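import Mathlib

set_option linter.all false

namespace Pool.Agent.Helper143.SimOrd

open Finset

namespace SO

/-- `a` is a `p`-ordering of `S` for every prime `p` at once. -/
def IsSim (S : Set ℤ) (a : ℕ → ℤ) : Prop :=
  (∀ n, a n ∈ S) ∧ ∀ p : ℕ, p.Prime → ∀ k : ℕ, ∀ x ∈ S,
    emultiplicity (p : ℤ) (∏ i ∈ range k, (a k - a i)) ≤
      emultiplicity (p : ℤ) (∏ i ∈ range k, (x - a i))

/-- positive upper Banach density -/
def PosUBD (S : Set ℤ) : Prop :=
  ∃ δ : ℝ, 0 < δ ∧ ∀ L₀ : ℕ, ∃ L : ℕ, L₀ ≤ L ∧ 0 < L ∧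
    ∃ x : ℤ, δ * L ≤ ((S ∩ Set.Ico x (x + L)).ncard : ℝ)

/-- `δ` is the (positive) upper Banach density of `S`, in usable form -/
structure Dens (S : Set ℤ) (δ : ℝ) : Prop where
  pos : 0 < δ
  le_one : δ ≤ 1
  upper : ∀ ε : ℝ, 0 < ε → ∃ K : ℝ, 0 ≤ K ∧ ∀ (x : ℤ) (L : ℕ),
    ((S ∩ Set.Ico x (x + L)).ncard : ℝ) ≤ (δ + ε) * L + K
  lower : ∀ L : ℕ, ∃ x : ℤ, δ * L ≤ ((S ∩ Set.Ico x (x + L)).ncard : ℝ)

/-- residue class -/
def cl (b : ℤ) (m : ℕ) : Set ℤ := {x | (m : ℤ) ∣ x - b}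

/-- number of residue classes mod `m` met by `S` -/
noncomputable def r (S : Set ℤ) (m : ℕ) : ℕ := ((fun x : ℤ => (x : ZMod m)) '' S).ncard

/-- Haar measure of the `p`-adic closure of `S` -/
noncomputable def mu (S : Set ℤ) (p : ℕ) : ℝ := ⨅ K : ℕ, (r S (p ^ K) : ℝ) / (p : ℝ) ^ K

/-- `S` meets every class modulo every power of `p` inside `b + p^j ℤ` -/
def Full (S : Set ℤ) (p : ℕ) (b : ℤ) (j : ℕ) : Prop :=
  ∀ K : ℕ, ∀ y ∈ cl b (p ^ j), ∃ x ∈ S, ((p ^ K : ℕ) : ℤ) ∣ x - y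

/-- the `n`-th generalized factorial of the sequence -/
def F (a : ℕ → ℤ) (n : ℕ) : ℕ := (∏ i ∈ range n, (a n - a i)).natAbs

/-- Vandermonde product of `x 0, …, x N` -/
def V (x : ℕ → ℤ) (N : ℕ) : ℤ := ∏ j ∈ range (N + 1), ∏ i ∈ range j, (x j - x i)

/-- product of the differences of `x i` with the other terms among `x 0, …, x n` -/
def G (x : ℕ → ℤ) (n i : ℕ) : ℤ := ∏ l ∈ (range (n + 1)).erase i, (x i - x l)

end SO

namespace SO.J_dens_exists
open SO



theorem c_le (S : Set ℤ) (x : ℤ) (L : ℕ) : (S ∩ Set.Ico x (x + L)).ncard ≤ L := by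
  have h1 : (S ∩ Set.Ico x (x + L)).ncard ≤ (Set.Ico x (x + L)).ncard :=
    Set.ncard_le_ncard Set.inter_subset_right (Set.finite_Ico _ _)
  have h2 : (Set.Ico x (x + L)).ncard = L := by
    rw [← Finset.coe_Ico, Set.ncard_coe_finset, Int.card_Ico]
    simp
  omega

theorem c_add (S : Set ℤ) (x : ℤ) (L1 L2 : ℕ) :
    (S ∩ Set.Ico x (x + (L1 + L2 : ℕ))).ncard ≤
      (S ∩ Set.Ico x (x + L1)).ncard + (S ∩ Set.Ico (x + L1) (x + L1 + L2)).ncard := by
  refine le_trans (Set.ncard_le_ncard ?_ ?_) (Set.ncard_union_le _ _)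
  · rintro y ⟨hy, h1, h2⟩
    push_cast at h2
    by_cases h : y < x + L1
    · exact Or.inl ⟨hy, h1, h⟩
    · exact Or.inr ⟨hy, not_lt.1 h, by linarith⟩
  · exact ((Set.finite_Ico _ _).inter_of_right _).union ((Set.finite_Ico _ _).inter_of_right _)

/-- maximum count in a window -/
noncomputable def MM (S : Set ℤ) (L : ℕ) : ℕ :=
  sSup (Set.range fun x : ℤ => (S ∩ Set.Ico x (x + L)).ncard)

theorem bdd (S : Set ℤ) (L : ℕ) :
    BddAbove (Set.range fun x : ℤ => (S ∩ Set.Ico x (x + L)).ncard) := by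
  refine ⟨L, ?_⟩
  rintro _ ⟨x, rfl⟩
  exact c_le S x L

theorem le_MM (S : Set ℤ) (x : ℤ) (L : ℕ) : (S ∩ Set.Ico x (x + L)).ncard ≤ MM S L :=
  le_csSup (bdd S L) ⟨x, rfl⟩

theorem MM_att (S : Set ℤ) (L : ℕ) : ∃ x : ℤ, (S ∩ Set.Ico x (x + L)).ncard = MM S L :=
  Nat.sSup_mem (Set.range_nonempty _) (bdd S L)

theorem MM_le (S : Set ℤ) (L : ℕ) : MM S L ≤ L := by
  obtain ⟨x, hx⟩ := MM_att S L
  rw [← hx]
  exact c_le S x L

theorem MM_sub (S : Set ℤ) : Subadditive (fun L : ℕ => (MM S L : ℝ)) := by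
  intro m n
  obtain ⟨x, hx⟩ := MM_att S (m + n)
  have h1 := c_add S x m n
  have h2 := le_MM S x m
  have h3 := le_MM S (x + m) n
  have h4 : MM S (m + n) ≤ MM S m + MM S n := by omega
  show ((MM S (m + n) : ℕ) : ℝ) ≤ (MM S m : ℝ) + (MM S n : ℝ)
  exact_mod_cast h4

theorem bb (S : Set ℤ) : BddBelow (Set.range fun n : ℕ => (MM S n : ℝ) / n) := by
  refine ⟨0, ?_⟩
  rintro _ ⟨n, rfl⟩
  positivity

theorem dens_exists {S : Set ℤ} (h : PosUBD S) : ∃ δ, Dens S δ := by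
  have hb := bb S
  have hsub := MM_sub S
  have htend := hsub.tendsto_lim hb
  have hlim0 : 0 ≤ hsub.lim := by
    apply ge_of_tendsto' htend
    intro n
    positivity
  refine ⟨hsub.lim, ⟨?_, ?_, ?_, ?_⟩⟩
  · obtain ⟨δ, hδ, hd⟩ := h
    by_contra hcon
    have h1 : hsub.lim < δ := by linarith
    have h2 := (htend.eventually_lt_const h1)
    obtain ⟨L₀, hL₀⟩ := Filter.eventually_atTop.1 h2
    obtain ⟨L, hL, hLp, x, hx⟩ := hd L₀
    have h3 := hL₀ L hL
    have hLp' : (0 : ℝ) < L := by exact_mod_cast hLp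
    rw [div_lt_iff₀ hLp'] at h3
    have h4 : ((S ∩ Set.Ico x (x + L)).ncard : ℝ) ≤ MM S L := by exact_mod_cast le_MM S x L
    linarith
  · have h1 := hsub.lim_le_div hb (n := 1) one_ne_zero
    have h2 : (MM S 1 : ℝ) ≤ 1 := by exact_mod_cast MM_le S 1
    simp only [Nat.cast_one, div_one] at h1
    linarith
  · intro ε hε
    have h1 : hsub.lim < hsub.lim + ε := by linarith
    have h2 := (htend.eventually_lt_const h1)
    obtain ⟨L₀, hL₀⟩ := Filter.eventually_atTop.1 h2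
    have h3 := hL₀ (L₀ + 1) (by omega)
    have hp : (0 : ℝ) < ((L₀ + 1 : ℕ) : ℝ) := by positivity
    rw [div_lt_iff₀ hp] at h3
    refine ⟨((L₀ + 1 : ℕ) : ℝ), hp.le, ?_⟩
    intro x L
    have h4 : ((S ∩ Set.Ico x (x + L)).ncard : ℝ) ≤ MM S L := by exact_mod_cast le_MM S x L
    have h5 := hsub.apply_mul_add_le (L / (L₀ + 1)) (L₀ + 1) (L % (L₀ + 1))
    rw [Nat.div_add_mod'] at h5
    have h6 : (MM S (L % (L₀ + 1)) : ℝ) ≤ ((L₀ + 1 : ℕ) : ℝ) := by
      have := MM_le S (L % (L₀ + 1))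
      have h7 := Nat.mod_lt L (Nat.succ_pos L₀)
      exact_mod_cast this.trans h7.le
    have h8 : ((L / (L₀ + 1) : ℕ) : ℝ) * ((L₀ + 1 : ℕ) : ℝ) ≤ L := by
      exact_mod_cast Nat.div_mul_le_self L (L₀ + 1)
    have h9 : ((L / (L₀ + 1) : ℕ) : ℝ) * (MM S (L₀ + 1) : ℝ) ≤
        ((L / (L₀ + 1) : ℕ) : ℝ) * ((hsub.lim + ε) * ((L₀ + 1 : ℕ) : ℝ)) :=
      mul_le_mul_of_nonneg_left h3.le (Nat.cast_nonneg _)
    have h10 : (hsub.lim + ε) * (((L / (L₀ + 1) : ℕ) : ℝ) * ((L₀ + 1 : ℕ) : ℝ)) ≤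
        (hsub.lim + ε) * L := mul_le_mul_of_nonneg_left h8 (by linarith)
    have h11 : ((L / (L₀ + 1) : ℕ) : ℝ) * ((hsub.lim + ε) * ((L₀ + 1 : ℕ) : ℝ)) =
      (hsub.lim + ε) * (((L / (L₀ + 1) : ℕ) : ℝ) * ((L₀ + 1 : ℕ) : ℝ)) := by ring
    linarith
  · intro L
    obtain ⟨x, hx⟩ := MM_att S L
    refine ⟨x, ?_⟩
    rw [hx]
    rcases Nat.eq_zero_or_pos L with h0 | h0
    · subst h0
      simp
    · have h1 := hsub.lim_le_div hb (n := L) (by omega)
      have hLp' : (0 : ℝ) < L := by exact_mod_cast h0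
      rwa [le_div_iff₀ hLp'] at h1


end SO.J_dens_exists

namespace SO
export J_dens_exists (dens_exists)
end SO

namespace SO.J_dens_infinite
open SO



theorem dens_infinite {S : Set ℤ} {δ : ℝ} (h : Dens S δ) : S.Infinite := by
  intro hfin
  obtain ⟨L, hL⟩ := exists_nat_gt ((S.ncard : ℝ) / δ)
  obtain ⟨x, hx⟩ := h.lower L
  have h1 : (S ∩ Set.Ico x (x + L)).ncard ≤ S.ncard :=
    Set.ncard_le_ncard Set.inter_subset_left hfin
  have h2 : ((S ∩ Set.Ico x (x + L)).ncard : ℝ) ≤ (S.ncard : ℝ) := by exact_mod_cast h1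
  rw [div_lt_iff₀ h.pos] at hL
  linarith [mul_comm (L : ℝ) δ]

end SO.J_dens_infinite

namespace SO
export J_dens_infinite (dens_infinite)
end SO

namespace SO.J_sim_injective
open SO



theorem sim_injective {S : Set ℤ} {a : ℕ → ℤ} (hinf : S.Infinite) (h : IsSim S a) :
    Function.Injective a := by
  have key : ∀ n i : ℕ, i < n → a n ≠ a i := by
    intro n i hi e
    obtain ⟨x, hxS, hx⟩ := hinf.exists_notMem_finset (Finset.image a (range n))
    have hne : ∏ j ∈ range n, (x - a j) ≠ 0 := by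
      rw [Finset.prod_ne_zero_iff]
      intro j hj h0
      apply hx
      rw [Finset.mem_image]
      exact ⟨j, hj, (sub_eq_zero.1 h0).symm⟩
    have hz : ∏ j ∈ range n, (a n - a j) = 0 :=
      Finset.prod_eq_zero (Finset.mem_range.2 hi) (sub_eq_zero.2 e)
    have h2 := h.2 2 Nat.prime_two n x hxS
    rw [hz, emultiplicity_zero, top_le_iff] at h2
    have h3 : FiniteMultiplicity ((2 : ℕ) : ℤ) (∏ j ∈ range n, (x - a j)) :=
      Int.finiteMultiplicity_iff.2 ⟨by norm_num, hne⟩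
    exact finiteMultiplicity_iff_emultiplicity_ne_top.1 h3 h2
  intro m n hmn
  rcases lt_trichotomy m n with h1 | h1 | h1
  · exact absurd hmn.symm (key n m h1)
  · exact h1
  · exact absurd hmn (key m n h1)

end SO.J_sim_injective

namespace SO
export J_sim_injective (sim_injective)
end SO

namespace SO.J_sim_dvd
open SO



theorem sim_dvd {S : Set ℤ} {a : ℕ → ℤ} (h : IsSim S a) (n : ℕ) {x : ℤ} (hx : x ∈ S) :
    (∏ i ∈ range n, (a n - a i)) ∣ ∏ i ∈ range n, (x - a i) := by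
  rw [← Int.natAbs_dvd_natAbs, Nat.dvd_iff_prime_pow_dvd_dvd]
  intro p k hp hpk
  rw [← Int.natCast_dvd] at hpk ⊢
  push_cast at hpk ⊢
  rw [pow_dvd_iff_le_emultiplicity] at hpk ⊢
  exact hpk.trans (h.2 p hp n x hx)

end SO.J_sim_dvd

namespace SO
export J_sim_dvd (sim_dvd)
end SO

namespace SO.J_vdiv
open SO




theorem vd_range (f : ℕ → ℤ) (N j : ℕ) (hj : j ≤ N + 1) :
    ∏ i ∈ range j, f i = ∏ i ∈ range (N + 1), if i < j then f i else 1 := by
  rw [← Finset.prod_filter]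
  congr 1
  ext i
  rw [Finset.mem_filter, Finset.mem_range, Finset.mem_range]
  omega

theorem vd_V (x : ℕ → ℤ) (N : ℕ) :
    V x N = (Matrix.vandermonde (fun i : Fin (N + 1) => x i)).det := by
  rw [Matrix.det_vandermonde]
  have h1 : V x N = ∏ j ∈ range (N + 1), ∏ i ∈ range (N + 1),
      if i < j then (x j - x i) else 1 := by
    unfold V
    refine Finset.prod_congr rfl fun j hj => ?_
    rw [Finset.mem_range] at hj
    exact vd_range (fun i => x j - x i) N j (le_of_lt hj)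
  rw [h1, Finset.prod_comm, Finset.prod_range]
  refine Finset.prod_congr rfl fun i _ => ?_
  rw [Finset.prod_range, ← Finset.prod_filter]
  refine Finset.prod_congr ?_ fun j _ => rfl
  ext j
  simp only [Finset.mem_filter, Finset.mem_univ, true_and, Finset.mem_Ioi, Fin.lt_def]

theorem vdiv {S : Set ℤ} {a : ℕ → ℤ} (h : IsSim S a) (N : ℕ) (x : ℕ → ℤ)
    (hx : ∀ i ≤ N, x i ∈ S) : V a N ∣ V x N := by
  rw [vd_V x N]
  obtain ⟨P, hP⟩ : ∃ P : ℕ → Polynomial ℤ, P = fun k =>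
    ∏ i ∈ range k, (Polynomial.X - Polynomial.C (a i)) := ⟨_, rfl⟩
  have hdeg : ∀ i : Fin (N + 1), (P i).natDegree = i := by
    intro i
    rw [hP]
    show (∏ l ∈ range (i : ℕ), (Polynomial.X - Polynomial.C (a l))).natDegree = (i : ℕ)
    rw [Polynomial.natDegree_finsetProd_X_sub_C_eq_card, Finset.card_range]
  have hmon : ∀ i : Fin (N + 1), (P i).Monic := by
    intro i
    rw [hP]
    exact Polynomial.monic_prod_X_sub_C a _
  rw [Matrix.det_eval_matrixOfPolynomials_eq_det_vandermonde _ (fun i : Fin (N + 1) => P i)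
    hdeg hmon]
  have hq : ∀ i j : Fin (N + 1), ∃ q : ℤ, (P j).eval (x i) =
      (∏ l ∈ range (j : ℕ), (a j - a l)) * q := by
    intro i j
    obtain ⟨q, hq⟩ := sim_dvd h (j : ℕ) (hx i (Nat.le_of_lt_succ i.2))
    refine ⟨q, ?_⟩
    rw [hP]
    show (∏ l ∈ range (j : ℕ), (Polynomial.X - Polynomial.C (a l))).eval (x i) = _
    rw [Polynomial.eval_prod, ← hq]
    refine Finset.prod_congr rfl fun l _ => ?_
    simp
  choose q hq using hq
  have e : (Matrix.of (fun i j : Fin (N + 1) => ((P j).eval (x i)))) =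
      Matrix.of fun i j : Fin (N + 1) => (∏ l ∈ range (j : ℕ), (a j - a l)) *
        (Matrix.of q) i j := by
    ext i j
    exact hq i j
  rw [e, Matrix.det_mul_row]
  have e2 : ∏ j : Fin (N + 1), ∏ l ∈ range (j : ℕ), (a j - a l) = V a N := by
    unfold V
    rw [Finset.prod_range]
  rw [e2]
  exact Dvd.intro _ rfl

end SO.J_vdiv

namespace SO
export J_vdiv (vdiv)
end SO

namespace SO.J_vand_split
open SO



theorem vand_split (x : ℕ → ℤ) {N i : ℕ} (hi : i ≤ N) :
    ∃ s : ℤ, (s = 1 ∨ s = -1) ∧ (∀ y : ℕ → ℤ, V y N = s * G y N i *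
      ∏ j ∈ (range (N + 1)).erase i, ∏ l ∈ (range j).erase i, (y j - y l)) := by
  classical
  have hself : ∀ m : ℕ, m ≤ i → (range m).erase i = range m := by
    intro m hm
    exact Finset.erase_eq_of_notMem (by rw [Finset.mem_range]; omega)
  induction N, hi using Nat.le_induction with
  | base =>
    refine ⟨1, Or.inl rfl, fun y => ?_⟩
    unfold V G
    have h1 : (range (i + 1)).erase i = range i := by
      rw [Finset.range_add_one, Finset.erase_insert (by simp)]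
    rw [h1, Finset.prod_range_succ, one_mul, mul_comm]
    congr 1
    refine Finset.prod_congr rfl (fun j hj => ?_)
    rw [hself j (by rw [Finset.mem_range] at hj; omega)]
  | succ N hN ih =>
    obtain ⟨s, hs, h⟩ := ih
    refine ⟨-s, ?_, fun y => ?_⟩
    · rcases hs with h | h
      · right; rw [h]
      · left; rw [h]; norm_num
    · have h1 : (range (N + 1 + 1)).erase i = insert (N + 1) ((range (N + 1)).erase i) := by
        rw [Finset.range_add_one, Finset.erase_insert_of_ne (by omega)]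
      have h2 : (N + 1) ∉ (range (N + 1)).erase i := by simp
      have hV : V y (N + 1) = V y N * ((y (N + 1) - y i) * ∏ l ∈ (range (N + 1)).erase i, (y (N + 1) - y l)) := by
        unfold V
        rw [Finset.prod_range_succ _ (N + 1), Finset.mul_prod_erase (range (N + 1)) (fun l => y (N + 1) - y l) (by rw [Finset.mem_range]; omega)]
      have hG : G y (N + 1) i = (y i - y (N + 1)) * G y N i := by
        unfold G
        rw [h1, Finset.prod_insert h2]
      rw [hV, hG, h1, Finset.prod_insert h2, h y]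
      ring
end SO.J_vand_split

namespace SO
export J_vand_split (vand_split)
end SO

namespace SO.J_gdvd
open SO



theorem gdvd {S : Set ℤ} {a : ℕ → ℤ} (hinf : S.Infinite) (h : IsSim S a) {n i : ℕ}
    (hi : i ≤ n) {x : ℤ} (hx : x ∈ S) :
    G a n i ∣ ∏ l ∈ (range (n + 1)).erase i, (x - a l) := by
  classical
  have hinj := sim_injective hinf h
  obtain ⟨s, hs, hV⟩ := vand_split a hi
  obtain ⟨s', hs', hV'⟩ := vand_split (Function.update a i x) hi
  have hd := vdiv h n (Function.update a i x) (by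
    intro j hj
    by_cases hji : j = i
    · subst hji
      rw [Function.update_self]
      exact hx
    · rw [Function.update_of_ne hji]
      exact h.1 j)
  rw [hV a, hV (Function.update a i x)] at hd
  have hW : (∏ j ∈ (range (n + 1)).erase i, ∏ l ∈ (range j).erase i,
      (Function.update a i x j - Function.update a i x l)) =
      ∏ j ∈ (range (n + 1)).erase i, ∏ l ∈ (range j).erase i, (a j - a l) := by
    apply Finset.prod_congr rfl
    intro j hj
    apply Finset.prod_congr rfl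
    intro l hl
    rw [Function.update_of_ne (Finset.ne_of_mem_erase hj), Function.update_of_ne (Finset.ne_of_mem_erase hl)]
  have hG : G (Function.update a i x) n i = ∏ l ∈ (range (n + 1)).erase i, (x - a l) := by
    unfold G
    apply Finset.prod_congr rfl
    intro l hl
    rw [Function.update_self, Function.update_of_ne (Finset.ne_of_mem_erase hl)]
  rw [hW, hG] at hd
  have hW0 : (∏ j ∈ (range (n + 1)).erase i, ∏ l ∈ (range j).erase i, (a j - a l)) ≠ 0 := by
    apply Finset.prod_ne_zero_iff.2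
    intro j _
    apply Finset.prod_ne_zero_iff.2
    intro l hl
    rw [sub_ne_zero]
    intro hjl
    have := hinj hjl
    have hl2 := Finset.mem_range.1 (Finset.mem_of_mem_erase hl)
    omega
  have hd2 := (mul_dvd_mul_iff_right hW0).1 hd
  have hs0 : s ≠ 0 := by
    rcases hs with h | h <;> rw [h] <;> decide
  exact (mul_dvd_mul_iff_left hs0).1 hd2

end SO.J_gdvd

namespace SO
export J_gdvd (gdvd)
end SO

namespace SO.J_r_window
open SO



theorem r_window (S : Set ℤ) {m : ℕ} (hm : 0 < m) (x : ℤ) (L : ℕ) :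
    ((S ∩ Set.Ico x (x + L)).ncard : ℝ) ≤ ((L : ℝ) / m + 1) * r S m := by
  classical
  haveI : NeZero m := ⟨hm.ne'⟩
  have hfin : (S ∩ Set.Ico x (x + L)).Finite := (Set.finite_Ico x (x + L)).inter_of_right S
  have himg : ((fun y : ℤ => (y : ZMod m)) '' S).Finite := Set.toFinite _
  set W : Finset ℤ := hfin.toFinset with hW
  set R : Finset (ZMod m) := himg.toFinset with hR
  have h1 : (S ∩ Set.Ico x (x + L)).ncard = W.card := by
    rw [Set.ncard_eq_toFinset_card _ hfin]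
  have h2 : r S m = R.card := by
    unfold r
    rw [Set.ncard_eq_toFinset_card _ himg]
  have hmaps : ∀ y ∈ W, ((y : ℤ) : ZMod m) ∈ R := by
    intro y hy
    rw [hW, Set.Finite.mem_toFinset] at hy
    rw [hR, Set.Finite.mem_toFinset]
    exact ⟨y, hy.1, rfl⟩
  have hmR : (0 : ℝ) < m := by exact_mod_cast hm
  have hfib : ∀ c ∈ R, (((W.filter fun y => ((y : ℤ) : ZMod m) = c).card : ℕ) : ℝ) ≤ (L : ℝ) / m + 1 := by
    intro c hc
    obtain ⟨v, hv⟩ := ZMod.intCast_surjective c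
    have hsub : (W.filter fun y => ((y : ℤ) : ZMod m) = c) ⊆
        (Finset.Ico x (x + L)).filter (fun y => y ≡ v [ZMOD (m : ℤ)]) := by
      intro y hy
      rw [Finset.mem_filter] at hy ⊢
      obtain ⟨hyW, hyc⟩ := hy
      rw [hW, Set.Finite.mem_toFinset] at hyW
      refine ⟨Finset.mem_Ico.mpr hyW.2, ?_⟩
      rw [← hv] at hyc
      exact (ZMod.intCast_eq_intCast_iff y v m).mp hyc
    have hcard := Finset.card_le_card hsub
    have hI := Int.Ico_filter_modEq_card x (x + L) (r := (m : ℤ)) (by exact_mod_cast hm) v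
    have hI' : (((Finset.Ico x (x + L)).filter (fun y => y ≡ v [ZMOD (m : ℤ)])).card : ℝ)
        ≤ (L : ℝ) / m + 1 := by
      have h3 : (((Finset.Ico x (x + L)).filter (fun y => y ≡ v [ZMOD (m : ℤ)])).card : ℤ) ≤
        max (⌈(((x + L : ℤ) - v : ℚ)) / ((m : ℤ) : ℚ)⌉ - ⌈((x - v : ℚ)) / ((m : ℤ) : ℚ)⌉) 0 := by
        rw [hI]
      have h4 : ((max (⌈(((x + L : ℤ) - v : ℚ)) / ((m : ℤ) : ℚ)⌉ - ⌈((x - v : ℚ)) / ((m : ℤ) : ℚ)⌉) 0 : ℤ) : ℚ)
          ≤ (L : ℚ) / m + 1 := by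
        push_cast
        apply max_le
        · have ha := Int.ceil_lt_add_one ((((x : ℚ) + L) - v) / (m : ℚ))
          have hb := Int.le_ceil (((x : ℚ) - v) / (m : ℚ))
          have hc : (((x : ℚ) + L) - v) / (m : ℚ) = ((x : ℚ) - v) / (m : ℚ) + (L : ℚ) / m := by ring
          rw [hc] at ha
          rw [hc]
          linarith
        · positivity
      have h5 : ((((Finset.Ico x (x + L)).filter (fun y => y ≡ v [ZMOD (m : ℤ)])).card : ℤ) : ℚ) ≤ (L : ℚ) / m + 1 :=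
        le_trans (by exact_mod_cast h3) h4
      have h6 : (((((Finset.Ico x (x + L)).filter (fun y => y ≡ v [ZMOD (m : ℤ)])).card : ℚ)) : ℝ) ≤ (((L : ℚ) / m + 1 : ℚ) : ℝ) := by
        have h7 : (((Finset.Ico x (x + L)).filter (fun y => y ≡ v [ZMOD (m : ℤ)])).card : ℚ) ≤ (L : ℚ) / m + 1 := by
          exact_mod_cast h5
        exact_mod_cast h7
      push_cast at h6
      exact h6
    calc (((W.filter fun y => ((y : ℤ) : ZMod m) = c).card : ℕ) : ℝ)
        ≤ (((Finset.Ico x (x + L)).filter (fun y => y ≡ v [ZMOD (m : ℤ)])).card : ℝ) := by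
          exact_mod_cast hcard
      _ ≤ _ := hI'
  have hsum : W.card = ∑ c ∈ R, (W.filter fun y => ((y : ℤ) : ZMod m) = c).card :=
    Finset.card_eq_sum_card_fiberwise (fun y hy => hmaps y hy)
  rw [h1, h2, hsum]
  push_cast
  calc ∑ c ∈ R, ((W.filter fun y => ((y : ℤ) : ZMod m) = c).card : ℝ)
      ≤ ∑ c ∈ R, ((L : ℝ) / m + 1) := Finset.sum_le_sum hfib
    _ = ((L : ℝ) / m + 1) * R.card := by
      rw [Finset.sum_const, nsmul_eq_mul, mul_comm]

end SO.J_r_window

namespace SO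
export J_r_window (r_window)
end SO

namespace SO.J_dens_le_r
open SO



theorem dens_le_r {S : Set ℤ} {δ : ℝ} (h : Dens S δ) {m : ℕ} (hm : 0 < m) :
    δ * m ≤ r S m := by
  have hm' : (0 : ℝ) < m := by exact_mod_cast hm
  have key : ∀ k : ℕ, (k : ℝ) * (δ * m - r S m) ≤ r S m := by
    intro k
    obtain ⟨x, hx⟩ := h.lower (k * m)
    have h2 := r_window S hm x (k * m)
    have h3 := hx.trans h2
    push_cast at h3
    have h4 : (k : ℝ) * m / m = k := by
      field_simp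
    rw [h4] at h3
    nlinarith
  by_contra hcon
  push Not at hcon
  have hpos : 0 < δ * m - r S m := by linarith
  obtain ⟨k, hk⟩ := exists_nat_gt ((r S m : ℝ) / (δ * m - r S m))
  rw [div_lt_iff₀ hpos] at hk
  exact absurd (key k) (not_le.2 hk)

end SO.J_dens_le_r

namespace SO
export J_dens_le_r (dens_le_r)
end SO

namespace SO.J_r_mul_le
open SO



theorem r_mul_le (S : Set ℤ) {m n : ℕ} (hm : 0 < m) (hn : 0 < n) (hmn : m.Coprime n) :
    r S (m * n) ≤ r S m * r S n := by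
  haveI : NeZero m := ⟨hm.ne'⟩
  haveI : NeZero n := ⟨hn.ne'⟩
  haveI : NeZero (m * n) := ⟨(Nat.mul_pos hm hn).ne'⟩
  unfold r
  have hinj : Function.Injective (ZMod.chineseRemainder hmn) := (ZMod.chineseRemainder hmn).injective
  rw [← Set.ncard_image_of_injective _ hinj, ← Set.ncard_prod]
  apply Set.ncard_le_ncard
  · rintro _ ⟨_, ⟨x, hx, rfl⟩, rfl⟩
    refine ⟨⟨x, hx, ?_⟩, ⟨x, hx, ?_⟩⟩
    · rw [map_intCast]; rfl
    · rw [map_intCast]; rfl
  · exact Set.toFinite _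

end SO.J_r_mul_le

namespace SO
export J_r_mul_le (r_mul_le)
end SO

namespace SO.J_r_basic
open SO



theorem r_mono {S T : Set ℤ} (h : S ⊆ T) {m : ℕ} (hm : 0 < m) : r S m ≤ r T m := by
  haveI : NeZero m := ⟨hm.ne'⟩
  exact Set.ncard_le_ncard (Set.image_mono h) (Set.toFinite _)

theorem r_le (S : Set ℤ) {m : ℕ} (hm : 0 < m) : r S m ≤ m := by
  haveI : NeZero m := ⟨hm.ne'⟩
  unfold r
  calc _ ≤ (Set.univ : Set (ZMod m)).ncard := Set.ncard_le_ncard (Set.subset_univ _) (Set.toFinite _)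
    _ = m := by rw [Set.ncard_univ, Nat.card_eq_fintype_card, ZMod.card]

theorem r_succ_le (S : Set ℤ) {p : ℕ} (hp : 0 < p) (K : ℕ) :
    r S (p ^ (K + 1)) ≤ p * r S (p ^ K) := by
  haveI : NeZero (p ^ (K + 1)) := ⟨(pow_pos hp _).ne'⟩
  haveI : NeZero (p ^ K) := ⟨(pow_pos hp _).ne'⟩
  have hpK : 0 < p ^ K := pow_pos hp _
  have hfin : ((↑(range p) : Set ℕ) ×ˢ ((fun x : ℤ => (x : ZMod (p ^ K))) '' S)).Finite :=
    (Finset.finite_toSet _).prod (Set.toFinite _)
  have h1 : ((fun x : ℤ => (x : ZMod (p ^ (K + 1)))) '' S).ncard ≤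
      ((↑(range p) : Set ℕ) ×ˢ ((fun x : ℤ => (x : ZMod (p ^ K))) '' S)).ncard := by
    refine Set.ncard_le_ncard_of_injOn
      (fun z : ZMod (p ^ (K + 1)) => (z.val / p ^ K, ((z.val : ℕ) : ZMod (p ^ K)))) ?_ ?_ hfin
    · rintro z ⟨x, hx, rfl⟩
      refine Set.mk_mem_prod ?_ ⟨x, hx, ?_⟩
      · rw [Finset.mem_coe, Finset.mem_range]
        rw [Nat.div_lt_iff_lt_mul hpK]
        calc _ < p ^ (K + 1) := ZMod.val_lt _
          _ = p * p ^ K := by rw [pow_succ, mul_comm]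
      · simp only
        have h2 : (((x : ZMod (p ^ (K + 1))).val : ℕ) : ℤ) = x % ((p ^ (K + 1) : ℕ) : ℤ) :=
          ZMod.val_intCast x
        have h3 : (((x : ZMod (p ^ (K + 1))).val : ℕ) : ZMod (p ^ K)) =
            (((((x : ZMod (p ^ (K + 1))).val : ℕ) : ℤ)) : ZMod (p ^ K)) := by
          rw [Int.cast_natCast]
        rw [h3, h2]
        rw [ZMod.intCast_eq_intCast_iff_dvd_sub]
        have h4 : ((p ^ K : ℕ) : ℤ) ∣ ((p ^ (K + 1) : ℕ) : ℤ) := by
          exact_mod_cast pow_dvd_pow p (Nat.le_succ K)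
        have h5 : ((p ^ (K + 1) : ℕ) : ℤ) ∣ x % ((p ^ (K + 1) : ℕ) : ℤ) - x := by
          have := Int.emod_add_mul_ediv x ((p ^ (K + 1) : ℕ) : ℤ)
          exact ⟨-(x / ((p ^ (K + 1) : ℕ) : ℤ)), by linarith⟩
        exact h4.trans h5
    · intro z _ z' _ hzz
      simp only [Prod.mk.injEq] at hzz
      obtain ⟨h2, h3⟩ := hzz
      rw [ZMod.natCast_eq_natCast_iff'] at h3
      apply ZMod.val_injective
      rw [← Nat.div_add_mod z.val (p ^ K), ← Nat.div_add_mod z'.val (p ^ K), h2, h3]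
  refine h1.trans ?_
  rw [Set.ncard_prod, Set.ncard_coe_finset, Finset.card_range]
  exact le_refl _

end SO.J_r_basic

namespace SO
export J_r_basic (r_mono r_le r_succ_le)
end SO

namespace SO.J_mu_basic
open SO



theorem bdd (S : Set ℤ) (p : ℕ) :
    BddBelow (Set.range fun K : ℕ => (r S (p ^ K) : ℝ) / (p : ℝ) ^ K) := by
  refine ⟨0, ?_⟩
  rintro _ ⟨K, rfl⟩
  positivity

theorem mu_le (S : Set ℤ) (p K : ℕ) : mu S p ≤ (r S (p ^ K) : ℝ) / (p : ℝ) ^ K := by
  exact ciInf_le (bdd S p) K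

theorem mu_tendsto (S : Set ℤ) {p : ℕ} (hp : 0 < p) :
    Filter.Tendsto (fun K : ℕ => (r S (p ^ K) : ℝ) / (p : ℝ) ^ K) Filter.atTop
      (nhds (mu S p)) := by
  refine tendsto_atTop_ciInf ?_ (bdd S p)
  refine antitone_nat_of_succ_le fun K => ?_
  have hp0 : (0:ℝ) < p := by exact_mod_cast hp
  have h1 : (r S (p ^ (K + 1)) : ℝ) ≤ p * r S (p ^ K) := by exact_mod_cast r_succ_le S hp K
  rw [div_le_div_iff₀ (by positivity) (by positivity)]
  calc (r S (p ^ (K + 1)) : ℝ) * (p : ℝ) ^ K ≤ (p * r S (p ^ K)) * (p : ℝ) ^ K :=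
        mul_le_mul_of_nonneg_right h1 (by positivity)
    _ = r S (p ^ K) * (p : ℝ) ^ (K + 1) := by ring

theorem mu_le_one (S : Set ℤ) {p : ℕ} (hp : 0 < p) : mu S p ≤ 1 := by
  have h1 := mu_le S p 0
  rw [pow_zero, pow_zero, div_one] at h1
  have h2 : (r S 1 : ℝ) ≤ 1 := by exact_mod_cast r_le S (m := 1) one_pos
  linarith

end SO.J_mu_basic

namespace SO
export J_mu_basic (mu_le mu_tendsto mu_le_one)
end SO

namespace SO.J_dens_le_prod
open SO



theorem r_prod_le (S : Set ℤ) (K : ℕ) (P : Finset ℕ) :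
    (∀ p ∈ P, p.Prime) → r S (∏ p ∈ P, p ^ K) ≤ ∏ p ∈ P, r S (p ^ K) := by
  classical
  induction P using Finset.induction_on with
  | empty =>
    intro _
    rw [Finset.prod_empty, Finset.prod_empty]
    exact r_le S one_pos
  | insert q P' hq ih =>
    intro hP
    rw [Finset.prod_insert hq, Finset.prod_insert hq]
    have hqp : q.Prime := hP q (Finset.mem_insert_self _ _)
    have hP' : ∀ p ∈ P', p.Prime := fun p hp => hP p (Finset.mem_insert_of_mem hp)
    have hpos : 0 < ∏ p ∈ P', p ^ K := Finset.prod_pos (fun p hp => pow_pos (hP' p hp).pos K)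
    have hcop : (q ^ K).Coprime (∏ p ∈ P', p ^ K) := by
      apply Nat.Coprime.prod_right
      intro p hp
      apply Nat.Coprime.pow
      rw [Nat.coprime_primes hqp (hP' p hp)]
      rintro rfl
      exact hq hp
    exact (r_mul_le S (pow_pos hqp.pos K) hpos hcop).trans (Nat.mul_le_mul_left _ (ih hP'))

theorem dens_le_prod {S : Set ℤ} {δ : ℝ} (h : Dens S δ) (P : Finset ℕ)
    (hP : ∀ p ∈ P, p.Prime) : δ ≤ ∏ p ∈ P, mu S p := by
  have ht : Filter.Tendsto (fun K : ℕ => ∏ p ∈ P, (r S (p ^ K) : ℝ) / (p : ℝ) ^ K) Filter.atTop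
      (nhds (∏ p ∈ P, mu S p)) :=
    tendsto_finsetProd P (fun p hp => mu_tendsto S (hP p hp).pos)
  refine ge_of_tendsto' ht ?_
  intro K
  have hpos : 0 < ∏ p ∈ P, p ^ K := Finset.prod_pos (fun p hp => pow_pos (hP p hp).pos K)
  have h1 := dens_le_r h hpos
  have h2 : (r S (∏ p ∈ P, p ^ K) : ℝ) ≤ ∏ p ∈ P, (r S (p ^ K) : ℝ) := by
    have := r_prod_le S K P hP
    exact_mod_cast this
  have hpos' : (0 : ℝ) < ((∏ p ∈ P, p ^ K : ℕ) : ℝ) := by exact_mod_cast hpos
  have h3 : ∏ p ∈ P, (r S (p ^ K) : ℝ) / (p : ℝ) ^ K =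
      (∏ p ∈ P, (r S (p ^ K) : ℝ)) / ((∏ p ∈ P, p ^ K : ℕ) : ℝ) := by
    rw [Finset.prod_div_distrib]
    push_cast
    rfl
  rw [h3, le_div_iff₀ hpos']
  exact h1.trans h2

end SO.J_dens_le_prod

namespace SO
export J_dens_le_prod (dens_le_prod)
end SO

namespace SO.J_sum_mu
open SO



theorem dens_le_mu {S : Set ℤ} {δ : ℝ} (h : Dens S δ) {p : ℕ} (hp : p.Prime) :
    δ ≤ mu S p := by
  have h1 := dens_le_prod h {p} (by
    intro q hq
    rw [Finset.mem_singleton] at hq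
    rw [hq]
    exact hp)
  rwa [Finset.prod_singleton] at h1

theorem sum_log_mu {S : Set ℤ} {δ : ℝ} (h : Dens S δ) (P : Finset ℕ)
    (hP : ∀ p ∈ P, p.Prime) : ∑ p ∈ P, Real.log (1 / mu S p) ≤ Real.log (1 / δ) := by
  have hpos : ∀ p ∈ P, 0 < mu S p := fun p hp => lt_of_lt_of_le h.pos (dens_le_mu h (hP p hp))
  have h1 := dens_le_prod h P hP
  have e : ∑ p ∈ P, Real.log (1 / mu S p) = - Real.log (∏ p ∈ P, mu S p) := by
    rw [Real.log_prod (fun p hp => (hpos p hp).ne'), ← Finset.sum_neg_distrib]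
    apply Finset.sum_congr rfl
    intro p _
    rw [one_div, Real.log_inv]
  rw [e, one_div, Real.log_inv]
  have h2 := Real.log_le_log h.pos h1
  linarith

theorem sum_one_sub_mu {S : Set ℤ} {δ : ℝ} (h : Dens S δ) (P : Finset ℕ)
    (hP : ∀ p ∈ P, p.Prime) : ∑ p ∈ P, (1 - mu S p) ≤ Real.log (1 / δ) := by
  refine le_trans ?_ (sum_log_mu h P hP)
  apply Finset.sum_le_sum
  intro p hp
  have hpos : 0 < mu S p := lt_of_lt_of_le h.pos (dens_le_mu h (hP p hp))
  rw [one_div, Real.log_inv]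
  have := Real.log_le_sub_one_of_pos hpos
  linarith

end SO.J_sum_mu

namespace SO
export J_sum_mu (dens_le_mu sum_log_mu sum_one_sub_mu)
end SO

namespace SO.J_avg
open SO



theorem avg_count {p : ℕ} (hp : p.Prime) (K : ℕ) (z : ℤ) (hz : ¬ ((p ^ K : ℕ) : ℤ) ∣ z) :
    emultiplicity (p : ℤ) z =
      (((Icc 1 K).filter (fun k => ((p ^ k : ℕ) : ℤ) ∣ z)).card : ℕ∞) := by
  have hz0 : z ≠ 0 := by
    rintro rfl
    exact hz (dvd_zero _)
  have hfm : FiniteMultiplicity (p : ℤ) z := by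
    rw [Int.finiteMultiplicity_iff]
    exact ⟨by rw [Int.natAbs_natCast]; exact hp.one_lt.ne', hz0⟩
  obtain ⟨m, hm⟩ : ∃ m, m = multiplicity (p : ℤ) z := ⟨_, rfl⟩
  have hdvd : ∀ k : ℕ, ((p ^ k : ℕ) : ℤ) ∣ z ↔ k ≤ m := by
    intro k
    rw [hm, Nat.cast_pow]
    exact hfm.pow_dvd_iff_le_multiplicity
  have hmK : m < K := by
    by_contra hcon
    exact hz ((hdvd K).2 (not_lt.mp hcon))
  have hf : (Icc 1 K).filter (fun k => ((p ^ k : ℕ) : ℤ) ∣ z) = Icc 1 m := by
    ext k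
    rw [mem_filter, mem_Icc, mem_Icc, hdvd]
    omega
  rw [hf, Nat.card_Icc, Nat.add_sub_cancel, hm]
  exact hfm.emultiplicity_eq_multiplicity

theorem avg (S : Set ℤ) {p : ℕ} (hp : p.Prime) (I : Finset ℕ) (c : ℕ → ℤ) (v : ℕ)
    (h : ∀ x ∈ S, ((p ^ v : ℕ) : ℤ) ∣ ∏ l ∈ I, (x - c l)) (K : ℕ) :
    ((r S (p ^ K) : ℝ) - I.card) * v ≤
      ∑ l ∈ I, ∑ k ∈ Icc 1 K, (r (S ∩ cl (c l) (p ^ k)) (p ^ K) : ℝ) := by
  classical
  have hne : NeZero (p ^ K) := ⟨pow_ne_zero _ hp.ne_zero⟩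
  obtain ⟨Rf, hRf⟩ : ∃ Rf : Finset (ZMod (p ^ K)),
    Rf = (Set.toFinite ((fun x : ℤ => (x : ZMod (p ^ K))) '' S)).toFinset := ⟨_, rfl⟩
  have hmem : ∀ t, t ∈ Rf ↔ ∃ x ∈ S, (x : ZMod (p ^ K)) = t := by
    intro t
    rw [hRf, Set.Finite.mem_toFinset]
    rfl
  have hr : r S (p ^ K) = Rf.card := by
    unfold r
    rw [Set.ncard_eq_toFinset_card _ (Set.toFinite _), hRf]
  choose! xs hxS hxt using fun t (ht : t ∈ Rf) => (hmem t).1 ht
  obtain ⟨T, hT⟩ : ∃ T, T = Rf \ I.image (fun l => ((c l : ℤ) : ZMod (p ^ K))) := ⟨_, rfl⟩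
  have hTR : T ⊆ Rf := by
    rw [hT]
    exact sdiff_subset
  have hcard : Rf.card ≤ T.card + I.card := by
    have h1 : Rf.card - (I.image (fun l => ((c l : ℤ) : ZMod (p ^ K)))).card ≤ T.card := by
      rw [hT]
      exact le_card_sdiff _ _
    have h2 : (I.image (fun l => ((c l : ℤ) : ZMod (p ^ K)))).card ≤ I.card := card_image_le
    omega
  have hnd : ∀ t ∈ T, ∀ l ∈ I, ¬ ((p ^ K : ℕ) : ℤ) ∣ xs t - c l := by
    intro t ht l hl hd
    have h1 : ((c l : ℤ) : ZMod (p ^ K)) = ((xs t : ℤ) : ZMod (p ^ K)) :=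
      (ZMod.intCast_eq_intCast_iff_dvd_sub _ _ _).2 hd
    rw [hT, mem_sdiff] at ht
    apply ht.2
    rw [mem_image]
    exact ⟨l, hl, by rw [h1]; exact hxt t ht.1⟩
  have hv : ∀ t ∈ T, v ≤ ∑ l ∈ I, ((Icc 1 K).filter (fun k => ((p ^ k : ℕ) : ℤ) ∣ xs t - c l)).card := by
    intro t ht
    have h1 := h (xs t) (hxS t (hTR ht))
    rw [Nat.cast_pow, pow_dvd_iff_le_emultiplicity,
      Finset.emultiplicity_prod (Nat.prime_iff_prime_int.mp hp)] at h1
    rw [sum_congr rfl fun l hl => avg_count hp K (xs t - c l) (hnd t ht l hl)] at h1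
    exact_mod_cast h1
  have hfin : ∀ l ∈ I, ∀ k ∈ Icc 1 K,
      (T.filter (fun t => ((p ^ k : ℕ) : ℤ) ∣ xs t - c l)).card ≤ r (S ∩ cl (c l) (p ^ k)) (p ^ K) := by
    intro l _ k _
    unfold r
    rw [← Set.ncard_coe_finset]
    apply Set.ncard_le_ncard _ (Set.toFinite _)
    intro t ht
    rw [mem_coe, mem_filter] at ht
    exact ⟨xs t, ⟨hxS t (hTR ht.1), ht.2⟩, hxt t (hTR ht.1)⟩
  have hmain : T.card * v ≤ ∑ l ∈ I, ∑ k ∈ Icc 1 K, r (S ∩ cl (c l) (p ^ k)) (p ^ K) := by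
    calc T.card * v = ∑ t ∈ T, v := by rw [sum_const, smul_eq_mul]
      _ ≤ ∑ t ∈ T, ∑ l ∈ I, ((Icc 1 K).filter (fun k => ((p ^ k : ℕ) : ℤ) ∣ xs t - c l)).card :=
          sum_le_sum hv
      _ = ∑ t ∈ T, ∑ l ∈ I, ∑ k ∈ Icc 1 K, (if ((p ^ k : ℕ) : ℤ) ∣ xs t - c l then 1 else 0) := by
          refine sum_congr rfl fun t _ => sum_congr rfl fun l _ => ?_
          rw [card_filter]
      _ = ∑ l ∈ I, ∑ k ∈ Icc 1 K, ∑ t ∈ T, (if ((p ^ k : ℕ) : ℤ) ∣ xs t - c l then 1 else 0) := by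
          rw [sum_comm]
          exact sum_congr rfl fun l _ => sum_comm
      _ = ∑ l ∈ I, ∑ k ∈ Icc 1 K, (T.filter (fun t => ((p ^ k : ℕ) : ℤ) ∣ xs t - c l)).card := by
          refine sum_congr rfl fun l _ => sum_congr rfl fun k _ => ?_
          rw [card_filter]
      _ ≤ _ := sum_le_sum fun l hl => sum_le_sum fun k hk => hfin l hl k hk
  have hmain' : (T.card : ℝ) * v ≤
      ∑ l ∈ I, ∑ k ∈ Icc 1 K, (r (S ∩ cl (c l) (p ^ k)) (p ^ K) : ℝ) := by
    exact_mod_cast hmain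
  have h3 : (r S (p ^ K) : ℝ) - I.card ≤ T.card := by
    rw [hr]
    have : (Rf.card : ℝ) ≤ T.card + I.card := by exact_mod_cast hcard
    linarith
  exact (mul_le_mul_of_nonneg_right h3 (Nat.cast_nonneg v)).trans hmain'

end SO.J_avg

namespace SO
export J_avg (avg)
end SO

namespace SO.J_r_cl_le
open SO



theorem r_cl_le (S : Set ℤ) (b : ℤ) {p : ℕ} (hp : p.Prime) {k K : ℕ} (hk : k ≤ K) :
    r (S ∩ cl b (p ^ k)) (p ^ K) ≤ p ^ (K - k) := by
  classical
  have hsub : ((fun x : ℤ => (x : ZMod (p ^ K))) '' (S ∩ cl b (p ^ k))) ⊆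
      ((Finset.range (p ^ (K - k))).image
        (fun i : ℕ => ((b + (p : ℤ) ^ k * (i : ℤ) : ℤ) : ZMod (p ^ K))) : Finset (ZMod (p ^ K))) := by
    rintro y ⟨x, ⟨_, hx⟩, rfl⟩
    have hx' : ((p ^ k : ℕ) : ℤ) ∣ x - b := hx
    obtain ⟨t, ht⟩ := hx'
    have hm : (0 : ℤ) < (p : ℤ) ^ (K - k) := by
      have := hp.pos
      positivity
    rw [Finset.mem_coe, Finset.mem_image]
    refine ⟨(t % (p : ℤ) ^ (K - k)).toNat, ?_, ?_⟩
    · rw [Finset.mem_range]
      have h1 := Int.emod_lt_of_pos t hm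
      have h2 := Int.emod_nonneg t hm.ne'
      zify
      rw [Int.toNat_of_nonneg h2]
      exact h1
    · have h2 := Int.emod_nonneg t hm.ne'
      rw [Int.toNat_of_nonneg h2]
      rw [ZMod.intCast_eq_intCast_iff_dvd_sub]
      refine ⟨t / (p : ℤ) ^ (K - k), ?_⟩
      have h3 := Int.emod_add_mul_ediv t ((p : ℤ) ^ (K - k))
      have h4 : ((p ^ K : ℕ) : ℤ) = (p : ℤ) ^ k * (p : ℤ) ^ (K - k) := by
        rw [← pow_add, Nat.add_sub_cancel' hk]
        push_cast
        ring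
      rw [h4]
      have h5 : x = b + (p : ℤ) ^ k * t := by
        push_cast at ht
        linarith
      rw [h5]
      linear_combination (-(p : ℤ) ^ k) * h3
  unfold r
  calc ((fun x : ℤ => (x : ZMod (p ^ K))) '' (S ∩ cl b (p ^ k))).ncard
      ≤ (((Finset.range (p ^ (K - k))).image
        (fun i : ℕ => ((b + (p : ℤ) ^ k * (i : ℤ) : ℤ) : ZMod (p ^ K))) :
          Finset (ZMod (p ^ K))) : Set (ZMod (p ^ K))).ncard :=
        Set.ncard_le_ncard hsub (Finset.finite_toSet _)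
    _ ≤ p ^ (K - k) := by
        rw [Set.ncard_coe_finset]
        exact Finset.card_image_le.trans (by rw [Finset.card_range])

end SO.J_r_cl_le

namespace SO
export J_r_cl_le (r_cl_le)
end SO

namespace SO.J_val_le_A
open SO



theorem val_le_A_geom (p : ℝ) (K : ℕ) :
    (∑ k ∈ Icc 1 K, p ^ (K - k)) * (p - 1) = p ^ K - 1 := by
  induction K with
  | zero => simp
  | succ K ih =>
    rw [Finset.sum_Icc_succ_top (by omega)]
    have h1 : ∑ k ∈ Icc 1 K, p ^ (K + 1 - k) = p * ∑ k ∈ Icc 1 K, p ^ (K - k) := by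
      rw [Finset.mul_sum]
      refine Finset.sum_congr rfl (fun k hk => ?_)
      have h2 := (Finset.mem_Icc.1 hk).2
      rw [show K + 1 - k = (K - k) + 1 by omega, pow_succ]
      ring
    rw [h1, Nat.sub_self, pow_zero, add_mul, mul_assoc, ih, pow_succ]
    ring

theorem val_le_A {S : Set ℤ} {p : ℕ} (hp : p.Prime) (I : Finset ℕ) (c : ℕ → ℤ) (v : ℕ)
    (h : ∀ x ∈ S, ((p ^ v : ℕ) : ℤ) ∣ ∏ l ∈ I, (x - c l)) :
    (v : ℝ) * (mu S p * ((p : ℝ) - 1)) ≤ I.card := by
  have hp1 : (1:ℝ) < p := by exact_mod_cast hp.one_lt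
  have hp0 : (0:ℝ) < p := by linarith
  have key : ∀ K : ℕ, (mu S p - (I.card : ℝ) * ((p:ℝ) ^ K)⁻¹) * ((v : ℝ) * ((p : ℝ) - 1)) ≤ I.card := by
    intro K
    have hpK : (0:ℝ) < (p:ℝ) ^ K := pow_pos hp0 K
    have h1 := avg S hp I c v h K
    have h2 : ∑ l ∈ I, ∑ k ∈ Icc 1 K, (r (S ∩ cl (c l) (p ^ k)) (p ^ K) : ℝ) ≤
        (I.card : ℝ) * ∑ k ∈ Icc 1 K, (p:ℝ) ^ (K - k) := by
      rw [← nsmul_eq_mul]
      refine Finset.sum_le_card_nsmul _ _ _ (fun l _ => ?_)
      refine Finset.sum_le_sum (fun k hk => ?_)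
      have h3 := r_cl_le S (c l) hp (Finset.mem_Icc.1 hk).2
      exact_mod_cast h3
    have h4 := mu_le S p K
    rw [le_div_iff₀ hpK] at h4
    have h5 := val_le_A_geom (p:ℝ) K
    have hv : (0:ℝ) ≤ v := Nat.cast_nonneg v
    have hn : (0:ℝ) ≤ I.card := Nat.cast_nonneg _
    have h6 : (mu S p * (p:ℝ) ^ K - I.card) * v ≤ (I.card : ℝ) * ∑ k ∈ Icc 1 K, (p:ℝ) ^ (K - k) := by
      refine le_trans ?_ (h1.trans h2)
      exact mul_le_mul_of_nonneg_right (by linarith) hv
    have h7 : (mu S p * (p:ℝ) ^ K - I.card) * v * ((p:ℝ) - 1) ≤ (I.card : ℝ) * (p:ℝ) ^ K := by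
      have h8 := mul_le_mul_of_nonneg_right h6 (show (0:ℝ) ≤ (p:ℝ) - 1 by linarith)
      rw [mul_assoc (I.card : ℝ), h5] at h8
      nlinarith
    have h9 : (mu S p - (I.card : ℝ) * ((p:ℝ) ^ K)⁻¹) * ((v : ℝ) * ((p : ℝ) - 1)) * (p:ℝ) ^ K ≤
        (I.card : ℝ) * (p:ℝ) ^ K := by
      calc (mu S p - (I.card : ℝ) * ((p:ℝ) ^ K)⁻¹) * ((v : ℝ) * ((p : ℝ) - 1)) * (p:ℝ) ^ K
          = (mu S p * (p:ℝ) ^ K - I.card * (((p:ℝ) ^ K)⁻¹ * (p:ℝ) ^ K)) * v * ((p:ℝ) - 1) := by ring
        _ = (mu S p * (p:ℝ) ^ K - I.card) * v * ((p:ℝ) - 1) := by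
            rw [inv_mul_cancel₀ hpK.ne', mul_one]
        _ ≤ _ := h7
    exact le_of_mul_le_mul_right h9 hpK
  have hlim : Filter.Tendsto (fun K : ℕ => (mu S p - (I.card : ℝ) * ((p:ℝ) ^ K)⁻¹) *
      ((v : ℝ) * ((p : ℝ) - 1))) Filter.atTop
      (nhds ((mu S p - (I.card : ℝ) * 0) * ((v : ℝ) * ((p : ℝ) - 1)))) := by
    refine Filter.Tendsto.mul_const _ (Filter.Tendsto.sub tendsto_const_nhds ?_)
    exact (tendsto_inv_atTop_zero.comp (tendsto_pow_atTop_atTop_of_one_lt hp1)).const_mul _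
  have h10 := le_of_tendsto' hlim key
  calc (v : ℝ) * (mu S p * ((p : ℝ) - 1)) = (mu S p - (I.card : ℝ) * 0) * ((v : ℝ) * ((p : ℝ) - 1)) := by ring
    _ ≤ _ := h10

end SO.J_val_le_A

namespace SO
export J_val_le_A (val_le_A)
end SO

namespace SO.J_phi_le
open SO



theorem geo (q t : ℝ) (hq : 2 ≤ q) (K : ℕ) :
    ∑ k ∈ range K, t / q ^ (k + 1) + (t / (q - 1)) / q ^ K = t / (q - 1) := by
  have h1 : q - 1 ≠ 0 := by linarith
  have h0 : q ≠ 0 := by linarith
  induction K with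
  | zero => simp
  | succ K ih =>
    rw [Finset.sum_range_succ]
    have e : t / q ^ (K + 1) + t / (q - 1) / q ^ (K + 1) = t / (q - 1) / q ^ K := by
      field_simp
      ring
    rw [add_assoc, e, ih]

theorem logc (q t : ℝ) (hq : 2 ≤ q) (h1 : 1 ≤ t) (h2 : t ≤ q) :
    (t - 1) / (q - 1) ≤ Real.logb q t := by
  have hq1 : 0 < q - 1 := by linarith
  have hlq : 0 < Real.log q := Real.log_pos (by linarith)
  have h1m : (1 : ℝ) ∈ Set.Ioi (0 : ℝ) := by simp
  have hqm : q ∈ Set.Ioi (0 : ℝ) := by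
    simp only [Set.mem_Ioi]; linarith
  have ha : 0 ≤ 1 - (t - 1) / (q - 1) := by
    rw [sub_nonneg, div_le_one hq1]; linarith
  have hb : 0 ≤ (t - 1) / (q - 1) := div_nonneg (by linarith) hq1.le
  have hc := strictConcaveOn_log_Ioi.concaveOn.2 h1m hqm ha hb (by ring)
  have e : (1 - (t - 1) / (q - 1)) • (1 : ℝ) + ((t - 1) / (q - 1)) • q = t := by
    simp only [smul_eq_mul]
    field_simp
    ring
  rw [e] at hc
  simp only [smul_eq_mul, Real.log_one, mul_zero, zero_add] at hc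
  unfold Real.logb
  rw [le_div_iff₀ hlq]
  exact hc

theorem main (q : ℝ) (hq : 2 ≤ q) (j : ℕ) : ∀ (ρ : ℝ), 1 ≤ ρ → ρ < q ^ (j + 1) → ∀ K : ℕ,
    ∑ k ∈ range K, min 1 (ρ / q ^ (k + 1)) ≤ Real.logb q ρ + 1 / (q - 1) := by
  have hq1 : 0 < q - 1 := by linarith
  have hq0 : 0 < q := by linarith
  have small : ∀ (ρ : ℝ), 1 ≤ ρ → ρ ≤ q → ∀ K : ℕ,
      ∑ k ∈ range K, min 1 (ρ / q ^ (k + 1)) ≤ Real.logb q ρ + 1 / (q - 1) := by
    intro ρ h1 h2 K
    have e1 : ∑ k ∈ range K, min 1 (ρ / q ^ (k + 1)) ≤ ∑ k ∈ range K, ρ / q ^ (k + 1) :=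
      Finset.sum_le_sum fun k _ => min_le_right _ _
    have e2 := geo q ρ hq K
    have e3 : 0 ≤ (ρ / (q - 1)) / q ^ K := by positivity
    have e4 := logc q ρ hq h1 h2
    have e5 : ρ / (q - 1) = (ρ - 1) / (q - 1) + 1 / (q - 1) := by ring
    linarith
  induction j with
  | zero =>
    intro ρ h1 h2 K
    exact small ρ h1 (by simpa using h2.le) K
  | succ j ih =>
    intro ρ h1 h2 K
    by_cases hρ : ρ ≤ q
    · exact small ρ h1 hρ K
    push Not at hρ
    cases K with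
    | zero =>
      simp only [Finset.range_zero, Finset.sum_empty]
      have := Real.logb_nonneg (b := q) (by linarith) h1
      positivity
    | succ K =>
      rw [Finset.sum_range_succ']
      have h3 : 1 ≤ ρ / q := by rw [le_div_iff₀ hq0]; linarith
      have h4 : ρ / q < q ^ (j + 1) := by
        rw [div_lt_iff₀ hq0, ← pow_succ]; exact h2
      have h5 := ih (ρ / q) h3 h4 K
      have h6 : Real.logb q (ρ / q) = Real.logb q ρ - 1 := by
        rw [Real.logb_div (by linarith) hq0.ne', Real.logb_self_eq_one (by linarith)]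
      have h7 : ∑ k ∈ range K, min 1 (ρ / q ^ (k + 1 + 1)) =
          ∑ k ∈ range K, min 1 (ρ / q / q ^ (k + 1)) := by
        refine Finset.sum_congr rfl fun k _ => ?_
        rw [div_div, ← pow_succ']
      have h8 : min 1 (ρ / q ^ (0 + 1)) ≤ 1 := min_le_left _ _
      rw [h7]
      linarith

theorem phi_le {p : ℕ} (hp : 2 ≤ p) {ρ : ℝ} (hρ : 1 ≤ ρ) (K : ℕ) :
    ∑ k ∈ Icc 1 K, min 1 (ρ / (p : ℝ) ^ k) ≤ Real.logb p ρ + 1 / ((p : ℝ) - 1) := by
  have hq : (2 : ℝ) ≤ (p : ℝ) := by exact_mod_cast hp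
  obtain ⟨j, _, hj⟩ := exists_nat_pow_near hρ (show (1 : ℝ) < (p : ℝ) by linarith)
  have h := main (p : ℝ) hq j ρ hρ hj K
  have e : ∑ k ∈ Icc 1 K, min 1 (ρ / (p : ℝ) ^ k) =
      ∑ k ∈ range K, min 1 (ρ / (p : ℝ) ^ (k + 1)) := by
    rw [Finset.range_eq_Ico, Finset.sum_Ico_add' (fun k => min 1 (ρ / (p : ℝ) ^ k)) 0 K 1]
    rfl
  rw [e]
  exact h

end SO.J_phi_le

namespace SO
export J_phi_le (phi_le)
end SO

namespace SO.J_val_le_B
open SO



theorem val_le_B {S : Set ℤ} {p : ℕ} (hp : p.Prime) (hmu : 0 < mu S p) (I : Finset ℕ)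
    (c : ℕ → ℤ) (v : ℕ) (h : ∀ x ∈ S, ((p ^ v : ℕ) : ℤ) ∣ ∏ l ∈ I, (x - c l)) :
    (v : ℝ) ≤ I.card * (Real.logb p (1 / mu S p) + 1 / ((p : ℝ) - 1)) := by
  have hp2 : 2 ≤ p := hp.two_le
  have hp0 : 0 < p := hp.pos
  have hpR : (2 : ℝ) ≤ (p : ℝ) := by exact_mod_cast hp2
  have hpR0 : (0 : ℝ) < (p : ℝ) := by linarith
  obtain ⟨μ, hμ⟩ : ∃ μ, μ = mu S p := ⟨_, rfl⟩
  rw [← hμ] at hmu ⊢
  obtain ⟨C, hC⟩ : ∃ C, C = Real.logb p (1 / μ) + 1 / ((p : ℝ) - 1) := ⟨_, rfl⟩
  rw [← hC]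
  by_contra hlt
  push Not at hlt
  have hε : 0 < (v : ℝ) - I.card * C := by linarith
  have key : ∀ K : ℕ, μ * (p : ℝ) ^ K * ((v : ℝ) - I.card * C) ≤ I.card * v := by
    intro K
    have hpK : (0 : ℝ) < (p : ℝ) ^ K := by positivity
    have hpKn : 0 < p ^ K := Nat.pow_pos hp0
    have hr1 : μ * (p : ℝ) ^ K ≤ (r S (p ^ K) : ℝ) := by
      have h1 := mu_le S p K
      rw [← hμ, le_div_iff₀ hpK] at h1
      exact h1
    have hr0 : (0 : ℝ) < (r S (p ^ K) : ℝ) := lt_of_lt_of_le (by positivity) hr1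
    have hr2 : (r S (p ^ K) : ℝ) ≤ (p : ℝ) ^ K := by
      have h1 := r_le S hpKn
      exact_mod_cast h1
    obtain ⟨ρ, hρ⟩ : ∃ ρ : ℝ, ρ = (p : ℝ) ^ K / (r S (p ^ K) : ℝ) := ⟨_, rfl⟩
    have hρ1 : 1 ≤ ρ := by
      rw [hρ, le_div_iff₀ hr0, one_mul]
      exact hr2
    have hρ2 : ρ ≤ 1 / μ := by
      rw [hρ, div_le_div_iff₀ hr0 hmu, one_mul, mul_comm]
      exact hr1
    have hterm : ∀ l ∈ I, ∑ k ∈ Icc 1 K, (r (S ∩ cl (c l) (p ^ k)) (p ^ K) : ℝ) ≤
        (r S (p ^ K) : ℝ) * C := by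
      intro l _
      have h1 : ∀ k ∈ Icc 1 K, (r (S ∩ cl (c l) (p ^ k)) (p ^ K) : ℝ) ≤
          (r S (p ^ K) : ℝ) * min 1 (ρ / (p : ℝ) ^ k) := by
        intro k hk
        rw [mem_Icc] at hk
        rw [mul_min_of_nonneg _ _ hr0.le, mul_one]
        refine le_min ?_ ?_
        · have h2 := r_mono (S := S ∩ cl (c l) (p ^ k)) (T := S) Set.inter_subset_left hpKn
          exact_mod_cast h2
        · have h2 := r_cl_le S (c l) hp hk.2
          have h3 : (r S (p ^ K) : ℝ) * (ρ / (p : ℝ) ^ k) = ((p ^ (K - k) : ℕ) : ℝ) := by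
            rw [hρ]
            push_cast
            rw [pow_sub₀ _ hpR0.ne' hk.2]
            field_simp
          rw [h3]
          exact_mod_cast h2
      refine (sum_le_sum h1).trans ?_
      rw [← mul_sum]
      refine mul_le_mul_of_nonneg_left ?_ hr0.le
      refine (phi_le hp2 hρ1 K).trans ?_
      rw [hC]
      have h4 := Real.logb_le_logb_of_le (b := (p : ℝ)) (by linarith) (by linarith : 0 < ρ) hρ2
      linarith
    have h5 := avg S hp I c v h K
    have h6 : ∑ l ∈ I, ∑ k ∈ Icc 1 K, (r (S ∩ cl (c l) (p ^ k)) (p ^ K) : ℝ) ≤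
        I.card * ((r S (p ^ K) : ℝ) * C) := by
      refine (sum_le_sum hterm).trans ?_
      rw [sum_const, nsmul_eq_mul]
    have h7 : (r S (p ^ K) : ℝ) * ((v : ℝ) - I.card * C) ≤ I.card * v := by
      have h8 := h5.trans h6
      linarith
    exact (mul_le_mul_of_nonneg_right hr1 hε.le).trans h7
  obtain ⟨K, hK⟩ := pow_unbounded_of_one_lt ((I.card * v) / (μ * ((v : ℝ) - I.card * C)))
    (by linarith : (1 : ℝ) < (p : ℝ))
  have h9 := key K
  rw [div_lt_iff₀ (mul_pos hmu hε)] at hK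
  linarith

end SO.J_val_le_B

namespace SO
export J_val_le_B (val_le_B)
end SO

namespace SO.J_val_le_C
open SO




theorem rT_ge {S : Set ℤ} {p : ℕ} (hp : p.Prime) {b : ℤ} {j : ℕ} (hfull : Full S p b j)
    (K : ℕ) (hK : j ≤ K) : p ^ (K - j) ≤ r (S ∩ cl b (p ^ j)) (p ^ K) := by
  have : NeZero (p ^ K) := ⟨pow_ne_zero _ hp.ne_zero⟩
  have hsub : (fun i : ℕ => (((b + (p : ℤ) ^ j * i : ℤ)) : ZMod (p ^ K))) ''
      (↑(range (p ^ (K - j))) : Set ℕ) ⊆
      (fun x : ℤ => (x : ZMod (p ^ K))) '' (S ∩ cl b (p ^ j)) := by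
    rintro _ ⟨i, _, rfl⟩
    have hy : (b + (p : ℤ) ^ j * i) ∈ cl b (p ^ j) := by
      change ((p ^ j : ℕ) : ℤ) ∣ b + (p : ℤ) ^ j * i - b
      push_cast
      exact ⟨i, by ring⟩
    obtain ⟨x, hxS, hx⟩ := hfull K _ hy
    refine ⟨x, ⟨hxS, ?_⟩, ?_⟩
    · change ((p ^ j : ℕ) : ℤ) ∣ x - b
      have h1 : ((p ^ j : ℕ) : ℤ) ∣ x - (b + (p : ℤ) ^ j * i) :=
        (Int.natCast_dvd_natCast.mpr (pow_dvd_pow p hK)).trans hx
      have h2 : ((p ^ j : ℕ) : ℤ) ∣ b + (p : ℤ) ^ j * i - b := hy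
      have h3 := dvd_add h1 h2
      rwa [show x - (b + (p : ℤ) ^ j * i) + (b + (p : ℤ) ^ j * i - b) = x - b by ring] at h3
    · exact ((ZMod.intCast_eq_intCast_iff_dvd_sub _ _ _).mpr hx).symm
  have hinj : Set.InjOn (fun i : ℕ => (((b + (p : ℤ) ^ j * i : ℤ)) : ZMod (p ^ K)))
      (↑(range (p ^ (K - j))) : Set ℕ) := by
    intro i hi i' hi' h
    have hi1 : i < p ^ (K - j) := by simpa using hi
    have hi2 : i' < p ^ (K - j) := by simpa using hi'
    have h1 := (ZMod.intCast_eq_intCast_iff _ _ _).mp h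
    have h2 : (p : ℤ) ^ j * i ≡ (p : ℤ) ^ j * i' [ZMOD ((p : ℤ) ^ j * (p : ℤ) ^ (K - j))] := by
      rw [← pow_add, Nat.add_sub_cancel' hK]
      have h3 := Int.ModEq.add_left_cancel' b h1
      simpa using h3
    have hp0 : (p : ℤ) ^ j ≠ 0 := pow_ne_zero _ (by exact_mod_cast hp.ne_zero)
    have h3 := Int.ModEq.mul_left_cancel' hp0 h2
    have h4 : (i : ℤ) ≡ (i' : ℤ) [ZMOD ((p ^ (K - j) : ℕ) : ℤ)] := by
      push_cast; exact h3
    exact Nat.ModEq.eq_of_lt_of_lt (Int.natCast_modEq_iff.mp h4) hi1 hi2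
  have h5 := Set.ncard_le_ncard hsub (Set.toFinite _)
  rw [hinj.ncard_image, Set.ncard_coe_finset, card_range] at h5
  exact h5

theorem r_empty (m : ℕ) : r ∅ m = 0 := by simp [r]

theorem Icc_eq (K : ℕ) : Icc 1 K = Ico 1 (K + 1) := by ext x; simp

theorem geo (p : ℕ) (hp : p.Prime) (j K : ℕ) (hK : j ≤ K) :
    ∑ k ∈ Ico (j + 1) (K + 1), (p : ℝ) ^ (K - k) ≤ (p : ℝ) ^ (K - j) * (1 / ((p : ℝ) - 1)) := by
  have hp1 : (1 : ℝ) < p := by exact_mod_cast hp.one_lt
  rw [sum_Ico_eq_sum_range]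
  have h1 : ∑ i ∈ range (K + 1 - (j + 1)), (p : ℝ) ^ (K - (j + 1 + i)) =
      ∑ i ∈ range (K - j), (p : ℝ) ^ (K - j - 1 - i) := by
    rw [show K + 1 - (j + 1) = K - j by omega]
    refine sum_congr rfl fun i hi => ?_
    congr 1
    omega
  rw [h1, sum_range_reflect (fun i => (p : ℝ) ^ i) (K - j), geom_sum_eq hp1.ne', mul_one_div]
  gcongr
  linarith

open Classical in
theorem val_le_C {S : Set ℤ} {p : ℕ} (hp : p.Prime) {b : ℤ} {j : ℕ} (hfull : Full S p b j)
    (I : Finset ℕ) (c : ℕ → ℤ) (v : ℕ)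
    (h : ∀ x ∈ S, ((p ^ v : ℕ) : ℤ) ∣ ∏ l ∈ I, (x - c l)) :
    (v : ℝ) ≤ ∑ l ∈ I, (if c l ∈ cl b (p ^ j) then (j : ℝ) + 1 / ((p : ℝ) - 1)
      else (j : ℝ) - 1) := by
  have hp1 : (1 : ℝ) < p := by exact_mod_cast hp.one_lt
  have hp0 : (0 : ℝ) < p := by linarith
  obtain ⟨g, hg⟩ : ∃ g : ℕ → ℝ, g = fun l => (if c l ∈ cl b (p ^ j) then
      (j : ℝ) + 1 / ((p : ℝ) - 1) else (j : ℝ) - 1) := ⟨_, rfl⟩
  have hgoal : ∑ l ∈ I, (if c l ∈ cl b (p ^ j) then (j : ℝ) + 1 / ((p : ℝ) - 1)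
      else (j : ℝ) - 1) = ∑ l ∈ I, g l := by rw [hg]
  rw [hgoal]
  -- main inequality
  have main : ∀ K, j ≤ K → ((p : ℝ) ^ (K - j) - I.card) * v ≤ (p : ℝ) ^ (K - j) * ∑ l ∈ I, g l := by
    intro K hK
    have hr : r (S ∩ cl b (p ^ j)) (p ^ K) = p ^ (K - j) :=
      le_antisymm (r_cl_le S b hp hK) (rT_ge hp hfull K hK)
    have h1 := avg (S ∩ cl b (p ^ j)) hp I c v (fun x hx => h x hx.1) K
    rw [hr] at h1
    push_cast at h1
    refine h1.trans ?_
    rw [mul_sum]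
    refine sum_le_sum fun l _ => ?_
    have hpK : 0 < p ^ K := pow_pos hp.pos K
    have hle1 : ∀ k, (r (S ∩ cl b (p ^ j) ∩ cl (c l) (p ^ k)) (p ^ K) : ℝ) ≤ (p : ℝ) ^ (K - j) := by
      intro k
      have := r_mono (Set.inter_subset_left : S ∩ cl b (p ^ j) ∩ cl (c l) (p ^ k) ⊆ _) hpK
      rw [hr] at this
      exact_mod_cast this
    have hle2 : ∀ k, k ≤ K → (r (S ∩ cl b (p ^ j) ∩ cl (c l) (p ^ k)) (p ^ K) : ℝ) ≤
        (p : ℝ) ^ (K - k) := by
      intro k hk
      have h2 : S ∩ cl b (p ^ j) ∩ cl (c l) (p ^ k) ⊆ S ∩ cl (c l) (p ^ k) :=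
        Set.inter_subset_inter_left _ Set.inter_subset_left
      have h3 := (r_mono h2 hpK).trans (r_cl_le S (c l) hp hk)
      exact_mod_cast h3
    rw [Icc_eq]
    by_cases hc : c l ∈ cl b (p ^ j)
    · have hgl : g l = (j : ℝ) + 1 / ((p : ℝ) - 1) := by rw [hg]; exact if_pos hc
      rw [hgl, ← sum_Ico_consecutive _ (show 1 ≤ j + 1 by omega) (show j + 1 ≤ K + 1 by omega),
        mul_add]
      refine add_le_add ?_ ?_
      · refine (sum_le_card_nsmul _ _ _ (fun k _ => hle1 k)).trans ?_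
        rw [Nat.card_Ico, nsmul_eq_mul]
        simp only [Nat.add_sub_cancel]
        rw [mul_comm]
      · refine le_trans ?_ (geo p hp j K hK)
        refine sum_le_sum fun k hk => hle2 k ?_
        rw [mem_Ico] at hk
        omega
    · have hgl : g l = (j : ℝ) - 1 := by rw [hg]; exact if_neg hc
      have hj : 1 ≤ j := by
        by_contra hj0
        have : j = 0 := by omega
        subst this
        exact hc (by simp [cl])
      rw [hgl, ← sum_Ico_consecutive _ hj (show j ≤ K + 1 by omega)]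
      have hz : ∑ k ∈ Ico j (K + 1), (r (S ∩ cl b (p ^ j) ∩ cl (c l) (p ^ k)) (p ^ K) : ℝ) = 0 := by
        refine sum_eq_zero fun k hk => ?_
        rw [mem_Ico] at hk
        have he : S ∩ cl b (p ^ j) ∩ cl (c l) (p ^ k) = ∅ := by
          refine Set.eq_empty_iff_forall_notMem.mpr ?_
          rintro x ⟨⟨_, h2⟩, h3⟩
          apply hc
          change ((p ^ j : ℕ) : ℤ) ∣ c l - b
          have h4 : ((p ^ j : ℕ) : ℤ) ∣ x - b := h2
          have h5 : ((p ^ j : ℕ) : ℤ) ∣ x - c l :=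
            (Int.natCast_dvd_natCast.mpr (pow_dvd_pow p hk.1)).trans h3
          have := dvd_sub h4 h5
          simpa using this
        rw [he, r_empty]
        simp
      rw [hz, add_zero]
      refine (sum_le_card_nsmul _ _ _ (fun k _ => hle1 k)).trans ?_
      rw [Nat.card_Ico, nsmul_eq_mul, Nat.cast_sub hj, mul_comm]
      simp
  by_contra hlt
  push Not at hlt
  have hd : 0 < (v : ℝ) - ∑ l ∈ I, g l := by linarith
  obtain ⟨m, hm⟩ := pow_unbounded_of_one_lt ((I.card : ℝ) * v / ((v : ℝ) - ∑ l ∈ I, g l)) hp1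
  have h1 := main (j + m) (by omega)
  rw [Nat.add_sub_cancel_left] at h1
  rw [div_lt_iff₀ hd] at hm
  nlinarith

end SO.J_val_le_C

namespace SO
export J_val_le_C (val_le_C)
end SO

namespace SO.J_vand_sorted
open SO



theorem V_eq_det (x : ℕ → ℤ) (N : ℕ) :
    V x N = (Matrix.vandermonde (fun i : Fin (N + 1) => x i)).det := by
  rw [Matrix.det_vandermonde]
  have h1 : ∏ i : Fin (N + 1), ∏ j ∈ Finset.Ioi i, (x j - x i)
      = ∏ i : Fin (N + 1), ∏ j : Fin (N + 1), if i < j then (x j - x i) else 1 := by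
    refine Finset.prod_congr rfl fun i _ => ?_
    rw [← Finset.filter_lt_eq_Ioi, Finset.prod_filter]
  rw [h1, Finset.prod_comm, V, Finset.prod_range]
  refine Finset.prod_congr rfl fun j _ => ?_
  have h2 : range (j : ℕ) = (range (N + 1)).filter (fun i => i < (j : ℕ)) := by
    ext i
    simp only [Finset.mem_range, Finset.mem_filter]
    have := j.2
    omega
  rw [h2, Finset.prod_filter, Finset.prod_range]
  refine Finset.prod_congr rfl fun i _ => ?_
  simp only [Fin.lt_def]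

theorem vand_sorted {x : ℕ → ℤ} (hx : Function.Injective x) (N : ℕ) :
    ∃ y : ℕ → ℤ, (∀ i j, i < j → j ≤ N → y i < y j) ∧ (∀ i ≤ N, ∃ l ≤ N, y i = x l) ∧
      |V x N| = V y N := by
  let f : Fin (N + 1) → ℤ := fun i => x i
  have hf : Function.Injective f := fun i j h => Fin.ext (hx h)
  let σ : Equiv.Perm (Fin (N + 1)) := Tuple.sort f
  have hmono : Monotone (f ∘ σ) := Tuple.monotone_sort f
  have hstrict : StrictMono (f ∘ σ) := hmono.strictMono_of_injective (hf.comp σ.injective)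
  let y : ℕ → ℤ := fun i => if h : i < N + 1 then f (σ ⟨i, h⟩) else 0
  have hy : ∀ i (h : i < N + 1), y i = f (σ ⟨i, h⟩) := fun i h => dif_pos h
  have hlt : ∀ i j, i < j → j ≤ N → y i < y j := by
    intro i j hij hj
    rw [hy i (by omega), hy j (by omega)]
    exact hstrict (show (⟨i, by omega⟩ : Fin (N + 1)) < ⟨j, by omega⟩ from hij)
  refine ⟨y, hlt, ?_, ?_⟩
  · intro i hi
    exact ⟨σ ⟨i, by omega⟩, by have := (σ ⟨i, by omega⟩).2; omega, hy i (by omega)⟩
  · have hpos : 0 < V y N := by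
      unfold V
      refine Finset.prod_pos fun j hj => Finset.prod_pos fun i hi => ?_
      rw [Finset.mem_range] at hi hj
      have := hlt i j hi (by omega)
      linarith
    have hyf : (fun i : Fin (N + 1) => y i) = f ∘ σ := by
      funext i
      exact hy i i.2
    have h3 : V y N = (Equiv.Perm.sign σ : ℤ) * V x N := by
      rw [V_eq_det y, V_eq_det x, hyf]
      have h4 : Matrix.vandermonde (f ∘ σ) = (Matrix.vandermonde f).submatrix σ id := by
        ext i j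
        simp [Matrix.vandermonde_apply]
      rw [h4, Matrix.det_permute]
      simp only [Int.cast_id]
      rfl
    have h5 : |V y N| = |V x N| := by
      rw [h3, abs_mul]
      rcases Int.units_eq_one_or (Equiv.Perm.sign σ) with h | h
      · rw [h]; simp
      · rw [h]; simp
    rw [← h5, abs_of_pos hpos]

end SO.J_vand_sorted

namespace SO
export J_vand_sorted (vand_sorted)
end SO

namespace SO.J_gap
open SO



theorem gap {S : Set ℤ} {α K : ℝ}
    (hw : ∀ (x : ℤ) (L : ℕ), ((S ∩ Set.Ico x (x + L)).ncard : ℝ) ≤ α * L + K)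
    {N : ℕ} {y : ℕ → ℤ} (hy : ∀ i j, i < j → j ≤ N → y i < y j) (hyS : ∀ i ≤ N, y i ∈ S)
    {i j : ℕ} (hij : i < j) (hj : j ≤ N) :
    (j : ℝ) - i ≤ (y j : ℝ) - y i ∧ (j : ℝ) - i + 1 - K ≤ α * ((y j : ℝ) - y i + 1) := by
  have hd : ∀ k, i + k ≤ N → (k : ℤ) ≤ y (i + k) - y i := by
    intro k
    induction k with
    | zero => intro _; simp
    | succ k ih =>
      intro hk
      have h1 := ih (by omega)
      have h2 := hy (i + k) (i + (k + 1)) (by omega) hk
      push_cast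
      omega
  have h1 : (j : ℤ) - i ≤ y j - y i := by
    have := hd (j - i) (by omega)
    have e : i + (j - i) = j := by omega
    rw [e] at this
    omega
  refine ⟨by exact_mod_cast h1, ?_⟩
  obtain ⟨L, hL⟩ : ∃ L : ℕ, (L : ℤ) = y j - y i + 1 :=
    ⟨(y j - y i + 1).toNat, Int.toNat_of_nonneg (by omega)⟩
  have hinj : Set.InjOn y (Finset.Icc i j : Set ℕ) := by
    intro a ha b hb hab
    simp only [Finset.coe_Icc, Set.mem_Icc] at ha hb
    rcases lt_trichotomy a b with h | h | h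
    · have := hy a b h (by omega); omega
    · exact h
    · have := hy b a h (by omega); omega
  have hsub : (((Finset.Icc i j).image y : Finset ℤ) : Set ℤ) ⊆ S ∩ Set.Ico (y i) (y i + L) := by
    intro z hz
    rw [Finset.mem_coe, Finset.mem_image] at hz
    obtain ⟨a, ha, rfl⟩ := hz
    rw [Finset.mem_Icc] at ha
    refine ⟨hyS a (by omega), ?_, ?_⟩
    · rcases ha.1.lt_or_eq with h | h
      · exact (hy i a h (by omega)).le
      · rw [h]
    · rcases ha.2.lt_or_eq with h | h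
      · have := hy a j h hj; omega
      · rw [h]; omega
  have hcard : ((Finset.Icc i j).image y).card = j + 1 - i := by
    rw [Finset.card_image_of_injOn hinj, Nat.card_Icc]
  have h2 := Set.ncard_le_ncard hsub ((Set.finite_Ico _ _).inter_of_right S)
  rw [Set.ncard_coe_finset, hcard] at h2
  have h3 := hw (y i) L
  have h4 : ((j + 1 - i : ℕ) : ℝ) ≤ α * L + K := le_trans (by exact_mod_cast h2) h3
  have h5 : ((j + 1 - i : ℕ) : ℝ) = (j : ℝ) - i + 1 := by
    rw [Nat.cast_sub (by omega)]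
    push_cast
    ring
  have h6 : (L : ℝ) = (y j : ℝ) - y i + 1 := by exact_mod_cast hL
  rw [h5, h6] at h4
  linarith


end SO.J_gap

namespace SO
export J_gap (gap)
end SO

namespace SO.J_gap_sum
open SO



theorem h400_fact (j : ℕ) :
    Real.log (j.factorial : ℝ) = ∑ i ∈ range j, Real.log ((j:ℝ) - i) := by
  rw [← Nat.descFactorial_self, Nat.descFactorial_eq_prod_range, Nat.cast_prod, Real.log_prod]
  · apply Finset.sum_congr rfl
    intro i hi
    rw [Nat.cast_sub (mem_range.mp hi).le]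
  · intro i hi
    have h1 := mem_range.mp hi
    have h2 : j - i ≠ 0 := by omega
    exact_mod_cast h2

theorem h400_factprod (N : ℕ) :
    Real.log (∏ n ∈ range (N + 1), (n.factorial : ℝ)) =
      ∑ j ∈ range (N + 1), ∑ i ∈ range j, Real.log ((j:ℝ) - i) := by
  rw [Real.log_prod]
  · apply Finset.sum_congr rfl
    intro j _
    exact h400_fact j
  · intro j _
    exact_mod_cast (Nat.factorial_pos j).ne'

theorem h400_gauss (N : ℕ) : ∑ j ∈ range (N + 1), (j:ℝ) = N * (N + 1) / 2 := by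
  induction N with
  | zero => simp
  | succ n ih =>
    rw [Finset.sum_range_succ, ih]
    push_cast
    ring

theorem gap_sum {α K : ℝ} (hα : 0 < α) (hK : 0 ≤ K) {ε : ℝ} (hε : 0 < ε) :
    ∃ N₀ : ℕ, ∀ N ≥ N₀, ∀ w : ℕ → ℕ → ℝ,
      (∀ i j, i < j → j ≤ N → (j : ℝ) - i ≤ w i j ∧ (j : ℝ) - i + 1 - K ≤ α * (w i j + 1)) →
      Real.log (∏ n ∈ range (N + 1), (n.factorial : ℝ)) +
        (N : ℝ) ^ 2 / 2 * (Real.log (1 / α) - ε) ≤
      ∑ j ∈ range (N + 1), ∑ i ∈ range j, Real.log (w i j) := by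
  -- basic lower bound
  have hbase : ∀ N : ℕ, ∀ w : ℕ → ℕ → ℝ,
      (∀ i j, i < j → j ≤ N → (j : ℝ) - i ≤ w i j ∧ (j : ℝ) - i + 1 - K ≤ α * (w i j + 1)) →
      ∀ j ≤ N, ∀ i ∈ range j, 0 ≤ Real.log (w i j) - Real.log ((j:ℝ) - i) := by
    intro N w hw j hj i hi
    have h1 := mem_range.mp hi
    have h2 : (i:ℝ) < j := by exact_mod_cast h1
    have h3 := (hw i j h1 hj).1
    have h4 := Real.log_le_log (by linarith : (0:ℝ) < (j:ℝ) - i) h3
    linarith
  by_cases hc : Real.log (1 / α) - ε ≤ 0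
  · refine ⟨0, ?_⟩
    intro N _ w hw
    rw [h400_factprod]
    have h1 : (N : ℝ) ^ 2 / 2 * (Real.log (1 / α) - ε) ≤ 0 :=
      mul_nonpos_of_nonneg_of_nonpos (by positivity) hc
    have h2 : ∑ j ∈ range (N + 1), ∑ i ∈ range j, Real.log ((j:ℝ) - i) ≤
        ∑ j ∈ range (N + 1), ∑ i ∈ range j, Real.log (w i j) := by
      apply Finset.sum_le_sum
      intro j hj
      apply Finset.sum_le_sum
      intro i hi
      have := hbase N w hw j (by have := mem_range.mp hj; omega) i hi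
      linarith
    linarith
  · have hc' : 0 < Real.log (1 / α) - ε := not_le.mp hc
    obtain ⟨β, hβ⟩ : ∃ β, β = Real.log (1 / α) - ε / 2 := ⟨_, rfl⟩
    have hβ0 : 0 < β := by
      rw [hβ]
      linarith
    obtain ⟨e, he⟩ : ∃ e, e = Real.exp (-(ε / 2)) := ⟨_, rfl⟩
    have he0 : 0 < e := by
      rw [he]
      exact Real.exp_pos _
    have he1 : e < 1 := by
      rw [he]
      exact Real.exp_lt_one_iff.mpr (by linarith)
    obtain ⟨D, hD⟩ := exists_nat_ge ((K + α) / (1 - e))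
    rw [div_le_iff₀ (by linarith)] at hD
    obtain ⟨N₀, hN₀⟩ := exists_nat_ge (8 * β * D / ε)
    rw [div_le_iff₀ hε] at hN₀
    refine ⟨N₀ + 1, ?_⟩
    intro N hN w hw
    have hN' : ((N₀:ℝ) + 1) ≤ N := by exact_mod_cast hN
    have hN1 : (1:ℝ) ≤ N := by
      have : (0:ℝ) ≤ N₀ := Nat.cast_nonneg _
      linarith
    -- good terms
    have hgood : ∀ j ≤ N, ∀ i ∈ range (j - D), β ≤ Real.log (w i j) - Real.log ((j:ℝ) - i) := by
      intro j hj i hi
      have h1 := mem_range.mp hi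
      have h2 : i + D < j := by omega
      have h3 : (i:ℝ) + D < j := by exact_mod_cast h2
      have hD0 : (0:ℝ) ≤ D := Nat.cast_nonneg _
      have hd : (0:ℝ) < (j:ℝ) - i := by linarith
      have h4 := (hw i j (by omega) hj).2
      have h5 : ((j:ℝ) - i) / α * e ≤ w i j := by
        have h6 : ((j:ℝ) - i) * e ≤ α * w i j := by
          have h7 : D * (1 - e) ≤ ((j:ℝ) - i) * (1 - e) :=
            mul_le_mul_of_nonneg_right (by linarith) (by linarith)
          nlinarith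
        rw [div_mul_eq_mul_div, div_le_iff₀ hα]
        linarith
      have h8 := Real.log_le_log (by positivity) h5
      rw [Real.log_mul (by positivity) he0.ne', div_eq_mul_one_div, Real.log_mul hd.ne'
        (by positivity), he, Real.log_exp] at h8
      rw [hβ]
      linarith
    have hrow : ∀ j ∈ range (N + 1), ((j:ℝ) - D) * β ≤
        ∑ i ∈ range j, (Real.log (w i j) - Real.log ((j:ℝ) - i)) := by
      intro j hj
      have hj' : j ≤ N := by
        have := mem_range.mp hj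
        omega
      calc ((j:ℝ) - D) * β ≤ ((j - D : ℕ) : ℝ) * β := by
            apply mul_le_mul_of_nonneg_right _ hβ0.le
            have h1 : j ≤ (j - D) + D := by omega
            have h2 : (j:ℝ) ≤ ((j - D : ℕ) : ℝ) + D := by exact_mod_cast h1
            linarith
        _ = ∑ i ∈ range (j - D), β := by
            rw [Finset.sum_const, Finset.card_range, nsmul_eq_mul]
        _ ≤ ∑ i ∈ range (j - D), (Real.log (w i j) - Real.log ((j:ℝ) - i)) :=
            Finset.sum_le_sum (hgood j hj')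
        _ ≤ ∑ i ∈ range j, (Real.log (w i j) - Real.log ((j:ℝ) - i)) := by
            apply Finset.sum_le_sum_of_subset_of_nonneg
            · exact Finset.range_subset_range.mpr (Nat.sub_le _ _)
            · intro i hi _
              exact hbase N w hw j hj' i hi
    have hsum := Finset.sum_le_sum hrow
    rw [← Finset.sum_mul, Finset.sum_sub_distrib, h400_gauss, Finset.sum_const, Finset.card_range,
      nsmul_eq_mul] at hsum
    simp only [Finset.sum_sub_distrib] at hsum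
    rw [← h400_factprod] at hsum
    have hfin : (N : ℝ) ^ 2 / 2 * (Real.log (1 / α) - ε) ≤
        ((N:ℝ) * (N + 1) / 2 - ((N + 1 : ℕ) : ℝ) * D) * β := by
      have e1 : Real.log (1 / α) - ε = β - ε / 2 := by
        rw [hβ]
        ring
      rw [e1]
      push_cast
      have hDN : (0:ℝ) ≤ D := Nat.cast_nonneg _
      have e2 : 8 * β * D ≤ N * ε := by
        calc 8 * β * D ≤ N₀ * ε := hN₀
          _ ≤ N * ε := mul_le_mul_of_nonneg_right (by linarith) hε.le
      have e3 : 8 * β * D * N ≤ N * ε * N := mul_le_mul_of_nonneg_right e2 (by linarith)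
      have e4 : ((N:ℝ) + 1) * (D * β) ≤ (2 * N) * (D * β) :=
        mul_le_mul_of_nonneg_right (by linarith) (by positivity)
      have e5 : 0 ≤ (N:ℝ) * β := by positivity
      nlinarith
    linarith

end SO.J_gap_sum

namespace SO
export J_gap_sum (gap_sum)
end SO

namespace SO.J_vand_lower
open SO



theorem vand_lower {S : Set ℤ} {δ : ℝ} (h : Dens S δ) {ε : ℝ} (hε : 0 < ε) :
    ∃ N₀ : ℕ, ∀ N ≥ N₀, ∀ x : ℕ → ℤ, (∀ i, x i ∈ S) → Function.Injective x →
      Real.log (∏ n ∈ range (N + 1), (n.factorial : ℝ)) +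
        (N : ℝ) ^ 2 / 2 * (Real.log (1 / δ) - ε) ≤ Real.log |(V x N : ℝ)| := by
  have hδ := h.pos
  have he1 : 1 < Real.exp (ε / 2) := Real.one_lt_exp_iff.2 (by linarith)
  have hε' : 0 < δ * (Real.exp (ε / 2) - 1) := mul_pos hδ (by linarith)
  obtain ⟨K, hK, hup⟩ := h.upper _ hε'
  have hαe : δ + δ * (Real.exp (ε / 2) - 1) = δ * Real.exp (ε / 2) := by ring
  rw [hαe] at hup
  have hα : 0 < δ * Real.exp (ε / 2) := mul_pos hδ (Real.exp_pos _)
  have hlog : Real.log (1 / (δ * Real.exp (ε / 2))) = Real.log (1 / δ) - ε / 2 := by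
    rw [one_div, one_div, Real.log_inv, Real.log_inv, Real.log_mul hδ.ne' (Real.exp_pos _).ne',
      Real.log_exp]
    ring
  obtain ⟨N₀, hN₀⟩ := gap_sum hα hK (ε := ε / 2) (by linarith)
  refine ⟨N₀, fun N hN x hxS hx => ?_⟩
  obtain ⟨y, hy1, hy2, hy3⟩ := vand_sorted hx N
  have hyS : ∀ i ≤ N, y i ∈ S := by
    intro i hi
    obtain ⟨l, _, hl⟩ := hy2 i hi
    rw [hl]
    exact hxS l
  have h1 := hN₀ N hN (fun i j => (y j : ℝ) - y i)
    (fun i j hij hj => gap hup hy1 hyS hij hj)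
  have h2 : Real.log |(V x N : ℝ)| =
      ∑ j ∈ range (N + 1), ∑ i ∈ range j, Real.log ((y j : ℝ) - y i) := by
    have h3 : |(V x N : ℝ)| = (V y N : ℝ) := by
      rw [← hy3]
      push_cast
      rfl
    rw [h3]
    unfold V
    push_cast
    have hne : ∀ j ∈ range (N + 1), ∀ i ∈ range j, ((y j : ℝ) - y i) ≠ 0 := by
      intro j hj i hi
      have := hy1 i j (mem_range.1 hi) (by have := mem_range.1 hj; omega)
      have h4 : (y i : ℝ) < y j := by exact_mod_cast this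
      exact (sub_pos.2 h4).ne'
    rw [Real.log_prod (fun j hj => prod_ne_zero_iff.2 (hne j hj))]
    exact sum_congr rfl fun j hj => Real.log_prod (hne j hj)
  rw [h2]
  rw [hlog] at h1
  have h5 : Real.log (1 / δ) - ε / 2 - ε / 2 = Real.log (1 / δ) - ε := by ring
  rw [h5] at h1
  exact h1

end SO.J_vand_lower

namespace SO
export J_vand_lower (vand_lower)
end SO

namespace SO.J_tail_half
open SO



theorem tail_half (μ : ℕ → ℝ) (C : ℝ) (hμ1 : ∀ p : ℕ, p.Prime → μ p ≤ 1)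
    (hC : ∀ P : Finset ℕ, (∀ p ∈ P, p.Prime) → ∑ p ∈ P, (1 - μ p) ≤ C) :
    ∃ P₀ : ℕ, ∀ p : ℕ, P₀ < p → p.Prime → 1 / 2 ≤ μ p := by
  by_contra hcon
  push Not at hcon
  have hinf : {p : ℕ | p.Prime ∧ μ p < 1 / 2}.Infinite := by
    apply Set.infinite_of_forall_exists_gt
    intro n
    obtain ⟨p, hp, hpp, hlt⟩ := hcon n
    exact ⟨p, ⟨hpp, hlt⟩, hp⟩
  obtain ⟨n, hn⟩ := exists_nat_gt (2 * C)
  obtain ⟨P, hPs, hPc⟩ := hinf.exists_subset_card_eq n
  have h1 := hC P (fun p hp => (hPs (Finset.mem_coe.2 hp)).1)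
  have h2 : (P.card : ℝ) * (1 / 2) ≤ ∑ p ∈ P, (1 - μ p) := by
    rw [← nsmul_eq_mul]
    apply Finset.card_nsmul_le_sum
    intro p hp
    have := (hPs (Finset.mem_coe.2 hp)).2
    linarith
  rw [hPc] at h2
  linarith

end SO.J_tail_half

namespace SO
export J_tail_half (tail_half)
end SO

namespace SO.J_tail_single
open SO



theorem tail_single {p : ℕ} (hp : 2 ≤ p) {μ : ℝ} (hμ : 1 / 2 ≤ μ) (hμ1 : μ ≤ 1)
    (f : ℕ → ℕ) (hf : ∀ n, (f n : ℝ) * (μ * ((p : ℝ) - 1)) ≤ n) (N : ℕ) :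
    (4 * N < p → ∑ n ∈ range (N + 1), max 0 ((f n : ℝ) - ((n / p : ℕ) : ℝ)) = 0) ∧
    ∑ n ∈ range (N + 1), max 0 ((f n : ℝ) - ((n / p : ℕ) : ℝ)) ≤
      16 * (N : ℝ) ^ 2 / (p : ℝ) ^ 2 * ((p : ℝ) * (1 - μ) + 1) + 4 * N / p := by
  classical
  have hp0 : 0 < p := by omega
  have hpR : (2:ℝ) ≤ p := by exact_mod_cast hp
  have hpR0 : (0:ℝ) < p := by linarith
  set c : ℝ := μ * ((p : ℝ) - 1) with hc
  have hc4 : (p:ℝ) / 4 ≤ c := by rw [hc]; nlinarith
  have hc0 : 0 < c := by linarith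
  have hcp : (p:ℝ) - c ≤ (p : ℝ) * (1 - μ) + 1 := by rw [hc]; nlinarith
  have hcp0 : 0 ≤ (p:ℝ) - c := by rw [hc]; nlinarith
  have hmN : ∀ n ≤ N, ∀ m : ℕ, (m:ℝ) * c ≤ n → m * p ≤ 4 * N := by
    intro n hn m hm
    have h1 : (n:ℝ) ≤ N := by exact_mod_cast hn
    have h2 : (m:ℝ) * (p / 4) ≤ m * c := mul_le_mul_of_nonneg_left hc4 (Nat.cast_nonneg m)
    have h3 : (m:ℝ) * p ≤ 4 * N := by linarith
    exact_mod_cast h3
  have hmax : ∀ n, max 0 ((f n : ℝ) - ((n / p : ℕ) : ℝ)) ≤ ((f n - n / p : ℕ) : ℝ) := by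
    intro n
    refine max_le (Nat.cast_nonneg _) ?_
    have h1 : f n ≤ (f n - n / p) + n / p := by omega
    have h2 : (f n : ℝ) ≤ ((f n - n / p : ℕ) : ℝ) + ((n / p : ℕ) : ℝ) := by exact_mod_cast h1
    linarith
  constructor
  · intro h4
    refine Finset.sum_eq_zero fun n hn => ?_
    have hn' : n ≤ N := by have := mem_range.1 hn; omega
    have h1 := hmN n hn' (f n) (hf n)
    have h2 : f n = 0 := by
      by_contra h
      have : 1 ≤ f n := Nat.one_le_iff_ne_zero.2 h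
      have := Nat.mul_le_mul_right p this
      omega
    rw [h2]
    refine max_eq_left ?_
    have : (0:ℝ) ≤ ((n / p : ℕ) : ℝ) := Nat.cast_nonneg _
    push_cast at this ⊢
    linarith
  · set M : ℕ := 4 * N / p with hM
    have hMr : (M:ℝ) ≤ 4 * N / p := by
      rw [le_div_iff₀ hpR0]
      have : M * p ≤ 4 * N := Nat.div_mul_le_self _ _
      exact_mod_cast this
    have step1 : ∀ n ∈ range (N + 1), max 0 ((f n : ℝ) - ((n / p : ℕ) : ℝ)) ≤
        ∑ m ∈ Icc 1 M, if n < m * p ∧ (m:ℝ) * c ≤ n then (1:ℝ) else 0 := by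
      intro n hn
      have hn' : n ≤ N := by have := mem_range.1 hn; omega
      refine (hmax n).trans ?_
      rw [Finset.sum_boole]
      have h1 : f n - n / p = (Icc (n / p + 1) (f n)).card := by
        rw [Nat.card_Icc]; omega
      rw [h1]
      refine Nat.cast_le.2 (Finset.card_le_card ?_)
      intro m hm
      rw [Finset.mem_Icc] at hm
      have h2 : (m:ℝ) * c ≤ n := by
        refine le_trans ?_ (hf n)
        exact mul_le_mul_of_nonneg_right (by exact_mod_cast hm.2) hc0.le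
      rw [Finset.mem_filter, Finset.mem_Icc]
      refine ⟨⟨le_trans (Nat.le_add_left 1 _) hm.1, ?_⟩, ?_, h2⟩
      · rw [hM, Nat.le_div_iff_mul_le hp0]
        exact hmN n hn' m h2
      · exact (Nat.div_lt_iff_lt_mul hp0).1 (by omega)
    have step2 : ∀ m ∈ Icc 1 M, ∑ n ∈ range (N + 1),
        (if n < m * p ∧ (m:ℝ) * c ≤ n then (1:ℝ) else 0) ≤ M * ((p:ℝ) - c) := by
      intro m hm
      rw [Finset.mem_Icc] at hm
      rw [Finset.sum_boole]
      have h1 : ((range (N + 1)).filter fun n : ℕ => n < m * p ∧ (m:ℝ) * c ≤ n) ⊆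
          Ico ⌈(m:ℝ) * c⌉₊ (m * p) := by
        intro n hn
        rw [Finset.mem_filter] at hn
        rw [Finset.mem_Ico]
        exact ⟨Nat.ceil_le.2 hn.2.2, hn.2.1⟩
      have h2 := Finset.card_le_card h1
      rw [Nat.card_Ico] at h2
      have h3 : ⌈(m:ℝ) * c⌉₊ ≤ m * p := by
        refine Nat.ceil_le.2 ?_
        push_cast
        exact mul_le_mul_of_nonneg_left (by linarith) (Nat.cast_nonneg m)
      have h4 : ((m * p - ⌈(m:ℝ) * c⌉₊ : ℕ) : ℝ) ≤ m * ((p:ℝ) - c) := by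
        rw [Nat.cast_sub h3]
        push_cast
        have := Nat.le_ceil ((m:ℝ) * c)
        linarith
      calc ((((range (N + 1)).filter fun n : ℕ => n < m * p ∧ (m:ℝ) * c ≤ n).card : ℕ) : ℝ)
          ≤ ((m * p - ⌈(m:ℝ) * c⌉₊ : ℕ) : ℝ) := by exact_mod_cast h2
        _ ≤ m * ((p:ℝ) - c) := h4
        _ ≤ M * ((p:ℝ) - c) := mul_le_mul_of_nonneg_right (by exact_mod_cast hm.2) hcp0
    have hNp : (0:ℝ) ≤ 4 * N / p := by positivity
    calc ∑ n ∈ range (N + 1), max 0 ((f n : ℝ) - ((n / p : ℕ) : ℝ))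
        ≤ ∑ n ∈ range (N + 1), ∑ m ∈ Icc 1 M,
            (if n < m * p ∧ (m:ℝ) * c ≤ n then (1:ℝ) else 0) := Finset.sum_le_sum step1
      _ = ∑ m ∈ Icc 1 M, ∑ n ∈ range (N + 1),
            (if n < m * p ∧ (m:ℝ) * c ≤ n then (1:ℝ) else 0) := Finset.sum_comm
      _ ≤ ∑ m ∈ Icc 1 M, M * ((p:ℝ) - c) := Finset.sum_le_sum step2
      _ = M * (M * ((p:ℝ) - c)) := by
          rw [Finset.sum_const, Nat.card_Icc, nsmul_eq_mul]
          simp
      _ ≤ (4 * N / p) * ((4 * N / p) * ((p : ℝ) * (1 - μ) + 1)) := by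
          have hM0 : (0:ℝ) ≤ M := Nat.cast_nonneg M
          refine mul_le_mul hMr (mul_le_mul hMr hcp hcp0 hNp) (mul_nonneg hM0 hcp0) hNp
      _ = 16 * (N : ℝ) ^ 2 / (p : ℝ) ^ 2 * ((p : ℝ) * (1 - μ) + 1) := by
          field_simp
          ring
      _ ≤ _ := by linarith
end SO.J_tail_single

namespace SO
export J_tail_single (tail_single)
end SO

namespace SO.J_tail_log
open SO



theorem tl_summable : Summable (fun m : ℕ => Real.log m / (m : ℝ) ^ 2) := by
  have h1 : Summable (fun m : ℕ => 2 * (m : ℝ) ^ (-(3 / 2) : ℝ)) :=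
    (Real.summable_nat_rpow.mpr (by norm_num)).mul_left 2
  refine Summable.of_nonneg_of_le (fun m => div_nonneg (Real.log_natCast_nonneg m) (by positivity))
    (fun m => ?_) h1
  rcases Nat.eq_zero_or_pos m with h | h
  · subst h
    simp
  · have hm : (0 : ℝ) < m := by exact_mod_cast h
    have h2 : Real.log m ≤ (m : ℝ) ^ (1 / 2 : ℝ) / (1 / 2) :=
      Real.log_le_rpow_div hm.le (by norm_num)
    rw [div_le_iff₀ (by positivity)]
    have h3 : (m : ℝ) ^ (-(3 / 2) : ℝ) * (m : ℝ) ^ 2 = (m : ℝ) ^ (1 / 2 : ℝ) := by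
      rw [← Real.rpow_natCast, ← Real.rpow_add hm]
      norm_num
    rw [mul_assoc, h3]
    linarith

theorem tl_two {ε : ℝ} (hε : 0 < ε) : ∃ P₀ : ℕ, ∀ m : ℕ, P₀ ≤ m → Real.log m / (m : ℝ) ≤ ε := by
  have h1 : Filter.Tendsto (fun x : ℝ => Real.log x / x) Filter.atTop (nhds 0) :=
    Real.isLittleO_log_id_atTop.tendsto_div_nhds_zero
  have h2 := h1.comp (tendsto_natCast_atTop_atTop (R := ℝ))
  have h3 := h2.eventually (Iic_mem_nhds hε)
  obtain ⟨P, hP⟩ := Filter.eventually_atTop.mp h3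
  exact ⟨P, fun m hm => hP m hm⟩

theorem tail_log {ε : ℝ} (hε : 0 < ε) :
    (∃ P₀ : ℕ, ∀ P₁ ≥ P₀, ∀ X : ℕ, ∑ m ∈ Ioc P₁ X, Real.log m / (m : ℝ) ^ 2 ≤ ε) ∧
    (∃ P₀ : ℕ, ∀ m : ℕ, P₀ ≤ m → Real.log m / (m : ℝ) ≤ ε) ∧
    (∃ N₀ : ℕ, ∀ N : ℕ, N₀ ≤ N →
      ∑ m ∈ Icc 1 (4 * N), Real.log m / (m : ℝ) ≤ ε * N) := by
  refine ⟨?_, tl_two hε, ?_⟩
  · obtain ⟨s, hs⟩ := summable_iff_vanishing_norm.mp tl_summable ε hε
    obtain ⟨n, hn⟩ := s.exists_nat_subset_range
    refine ⟨n, fun P₁ hP X => ?_⟩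
    have h1 := hs (Ioc P₁ X) (by
      rw [Finset.disjoint_left]
      intro m hm hms
      have h2 := mem_range.mp (hn hms)
      have h3 := (mem_Ioc.mp hm).1
      omega)
    exact (le_abs_self _).trans h1.le
  · obtain ⟨P, hP⟩ := tl_two (show 0 < ε / 8 by positivity)
    set C := ∑ m ∈ range P, |Real.log m / (m : ℝ)| with hC
    have hC0 : 0 ≤ C := Finset.sum_nonneg (fun m _ => abs_nonneg _)
    refine ⟨⌈2 * C / ε⌉₊, fun N hN => ?_⟩
    have hN' : 2 * C / ε ≤ N := Nat.ceil_le.mp hN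
    rw [div_le_iff₀ hε] at hN'
    have h1 : ∑ m ∈ Icc 1 (4 * N), Real.log m / (m : ℝ) ≤
        ∑ m ∈ Icc 1 (4 * N), ((if m < P then |Real.log m / (m : ℝ)| else 0) + ε / 8) := by
      apply Finset.sum_le_sum
      intro m _
      by_cases hm : m < P
      · rw [if_pos hm]
        have := le_abs_self (Real.log m / (m : ℝ))
        linarith
      · rw [if_neg hm, zero_add]
        exact hP m (not_lt.mp hm)
    have h2 : ∑ m ∈ Icc 1 (4 * N), (if m < P then |Real.log m / (m : ℝ)| else 0) ≤ C := by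
      rw [← Finset.sum_filter]
      apply Finset.sum_le_sum_of_subset_of_nonneg
      · intro m hm
        exact mem_range.mpr (Finset.mem_filter.mp hm).2
      · intro m _ _
        exact abs_nonneg _
    rw [Finset.sum_add_distrib, Finset.sum_const, Nat.card_Icc, nsmul_eq_mul] at h1
    push_cast [Nat.add_sub_cancel] at h1
    linarith


end SO.J_tail_log

namespace SO
export J_tail_log (tail_log)
end SO

namespace SO.J_tail
open SO



theorem tail (μ : ℕ → ℝ) (C : ℝ) (hμ0 : ∀ p : ℕ, p.Prime → 0 < μ p)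
    (hμ1 : ∀ p : ℕ, p.Prime → μ p ≤ 1)
    (hC : ∀ P : Finset ℕ, (∀ p ∈ P, p.Prime) → ∑ p ∈ P, (1 - μ p) ≤ C)
    (f : ℕ → ℕ → ℕ) (hf : ∀ p : ℕ, p.Prime → ∀ n, (f p n : ℝ) * (μ p * ((p : ℝ) - 1)) ≤ n)
    {ε : ℝ} (hε : 0 < ε) :
    ∃ P₀ : ℕ, ∀ P₁ ≥ P₀, ∃ N₀ : ℕ, ∀ N ≥ N₀, ∀ X : ℕ,
      ∑ p ∈ (Ioc P₁ X).filter Nat.Prime,
        Real.log p * ∑ n ∈ range (N + 1), max 0 ((f p n : ℝ) - ((n / p : ℕ) : ℝ))
      ≤ ε * (N : ℝ) ^ 2 := by
  have hC0 : 0 ≤ C := by
    have := hC ∅ (by simp)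
    simpa using this
  have hε1 : 0 < ε / (48 * (C + 1)) := by positivity
  have hε2 : 0 < ε / 48 := by positivity
  have hε3 : 0 < ε / 12 := by positivity
  obtain ⟨Pa, hPa⟩ := (tail_log hε2).1
  obtain ⟨Pb, hPb⟩ := (tail_log hε1).2.1
  obtain ⟨N₀, hN₀⟩ := (tail_log hε3).2.2
  obtain ⟨Pc, hPc⟩ := tail_half μ C hμ1 hC
  refine ⟨max Pa (max Pb Pc), fun P₁ hP₁ => ⟨N₀, fun N hN X => ?_⟩⟩
  have hPa1 : Pa ≤ P₁ := le_trans (le_max_left _ _) hP₁
  have hPb1 : Pb ≤ P₁ := le_trans (le_trans (le_max_left _ _) (le_max_right _ _)) hP₁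
  have hPc1 : Pc ≤ P₁ := le_trans (le_trans (le_max_right _ _) (le_max_right _ _)) hP₁
  have hterm : ∀ p ∈ (Ioc P₁ X).filter Nat.Prime,
      Real.log p * ∑ n ∈ range (N + 1), max 0 ((f p n : ℝ) - ((n / p : ℕ) : ℝ)) ≤
        16 * (N : ℝ) ^ 2 * (ε / (48 * (C + 1))) * (1 - μ p) +
          16 * (N : ℝ) ^ 2 * (Real.log p / (p : ℝ) ^ 2) +
          4 * (N : ℝ) * (if p ≤ 4 * N then Real.log p / (p : ℝ) else 0) := by
    intro p hp
    rw [mem_filter, mem_Ioc] at hp
    obtain ⟨⟨hp1, hp2⟩, hpp⟩ := hp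
    have hp0 : (0 : ℝ) < p := by exact_mod_cast hpp.pos
    have hlog : 0 ≤ Real.log p := Real.log_natCast_nonneg p
    have hμ2 : 1 / 2 ≤ μ p := hPc p (by omega) hpp
    obtain ⟨h1, h2⟩ := tail_single hpp.two_le hμ2 (hμ1 p hpp) (f p) (hf p hpp) N
    have hb := hPb p (by omega)
    have h1μ : 0 ≤ 1 - μ p := by linarith [hμ1 p hpp]
    have k1 : 0 ≤ 16 * (N : ℝ) ^ 2 * (ε / (48 * (C + 1))) * (1 - μ p) := by positivity
    have k2 : 0 ≤ 16 * (N : ℝ) ^ 2 * (Real.log p / (p : ℝ) ^ 2) := by positivity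
    by_cases h4 : p ≤ 4 * N
    · rw [if_pos h4]
      calc Real.log p * ∑ n ∈ range (N + 1), max 0 ((f p n : ℝ) - ((n / p : ℕ) : ℝ))
          ≤ Real.log p * (16 * (N : ℝ) ^ 2 / (p : ℝ) ^ 2 * ((p : ℝ) * (1 - μ p) + 1) + 4 * N / p) :=
            mul_le_mul_of_nonneg_left h2 hlog
        _ = 16 * (N : ℝ) ^ 2 * (1 - μ p) * (Real.log p / p) +
            16 * (N : ℝ) ^ 2 * (Real.log p / (p : ℝ) ^ 2) + 4 * (N : ℝ) * (Real.log p / (p : ℝ)) := by
            field_simp
            try ring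
        _ ≤ 16 * (N : ℝ) ^ 2 * (1 - μ p) * (ε / (48 * (C + 1))) +
            16 * (N : ℝ) ^ 2 * (Real.log p / (p : ℝ) ^ 2) + 4 * (N : ℝ) * (Real.log p / (p : ℝ)) := by
            have k3 : 16 * (N : ℝ) ^ 2 * (1 - μ p) * (Real.log p / p) ≤
                16 * (N : ℝ) ^ 2 * (1 - μ p) * (ε / (48 * (C + 1))) :=
              mul_le_mul_of_nonneg_left hb (by positivity)
            linarith
        _ = 16 * (N : ℝ) ^ 2 * (ε / (48 * (C + 1))) * (1 - μ p) +
            16 * (N : ℝ) ^ 2 * (Real.log p / (p : ℝ) ^ 2) + 4 * (N : ℝ) * (Real.log p / (p : ℝ)) := by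
            ring
    · rw [if_neg h4, h1 (by omega), mul_zero, mul_zero, add_zero]
      linarith
  refine le_trans (sum_le_sum hterm) ?_
  rw [sum_add_distrib, sum_add_distrib, ← mul_sum, ← mul_sum, ← mul_sum]
  have s1 : ∑ p ∈ (Ioc P₁ X).filter Nat.Prime, (1 - μ p) ≤ C := by
    apply hC
    intro p hp
    exact (mem_filter.mp hp).2
  have s2 : ∑ p ∈ (Ioc P₁ X).filter Nat.Prime, Real.log p / (p : ℝ) ^ 2 ≤ ε / 48 := by
    refine le_trans (sum_le_sum_of_subset_of_nonneg (filter_subset _ _) ?_) (hPa P₁ hPa1 X)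
    intro m _ _
    exact div_nonneg (Real.log_natCast_nonneg m) (by positivity)
  have s3 : ∑ p ∈ (Ioc P₁ X).filter Nat.Prime, (if p ≤ 4 * N then Real.log p / (p : ℝ) else 0) ≤
      ε / 12 * N := by
    refine le_trans ?_ (hN₀ N hN)
    rw [← sum_filter]
    apply sum_le_sum_of_subset_of_nonneg
    · intro p hp
      rw [mem_filter, mem_filter] at hp
      rw [mem_Icc]
      exact ⟨hp.1.2.pos, hp.2⟩
    · intro m _ _
      exact div_nonneg (Real.log_natCast_nonneg m) (by positivity)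
  have t1 : 16 * (N : ℝ) ^ 2 * (ε / (48 * (C + 1))) * ∑ p ∈ (Ioc P₁ X).filter Nat.Prime, (1 - μ p) ≤
      ε / 3 * (N : ℝ) ^ 2 := by
    calc 16 * (N : ℝ) ^ 2 * (ε / (48 * (C + 1))) * ∑ p ∈ (Ioc P₁ X).filter Nat.Prime, (1 - μ p)
        ≤ 16 * (N : ℝ) ^ 2 * (ε / (48 * (C + 1))) * (C + 1) :=
          mul_le_mul_of_nonneg_left (by linarith) (by positivity)
      _ = ε / 3 * (N : ℝ) ^ 2 := by
          field_simp
          ring
  have t2 : 16 * (N : ℝ) ^ 2 * ∑ p ∈ (Ioc P₁ X).filter Nat.Prime, Real.log p / (p : ℝ) ^ 2 ≤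
      ε / 3 * (N : ℝ) ^ 2 := by
    calc 16 * (N : ℝ) ^ 2 * ∑ p ∈ (Ioc P₁ X).filter Nat.Prime, Real.log p / (p : ℝ) ^ 2
        ≤ 16 * (N : ℝ) ^ 2 * (ε / 48) := mul_le_mul_of_nonneg_left s2 (by positivity)
      _ = ε / 3 * (N : ℝ) ^ 2 := by ring
  have t3 : 4 * (N : ℝ) * ∑ p ∈ (Ioc P₁ X).filter Nat.Prime,
      (if p ≤ 4 * N then Real.log p / (p : ℝ) else 0) ≤ ε / 3 * (N : ℝ) ^ 2 := by
    calc 4 * (N : ℝ) * ∑ p ∈ (Ioc P₁ X).filter Nat.Prime,
          (if p ≤ 4 * N then Real.log p / (p : ℝ) else 0)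
        ≤ 4 * (N : ℝ) * (ε / 12 * N) := mul_le_mul_of_nonneg_left s3 (by positivity)
      _ = ε / 3 * (N : ℝ) ^ 2 := by ring
  linarith

end SO.J_tail

namespace SO
export J_tail (tail)
end SO

namespace SO.J_legendre
open SO



theorem legendre_lower {p : ℕ} (hp : p.Prime) (n : ℕ) :
    (n : ℝ) / ((p : ℝ) - 1) - (Nat.log 2 n + 1) ≤ padicValNat p n.factorial := by
  have := Fact.mk hp
  have hp2 : 2 ≤ p := hp.two_le
  have hp1 : (0:ℝ) < (p:ℝ) - 1 := by
    have : (2:ℝ) ≤ p := by exact_mod_cast hp2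
    linarith
  rcases Nat.eq_zero_or_pos n with hn | hn
  · subst hn
    simp
  have h1 := sub_one_mul_padicValNat_factorial (p := p) n
  have hs : (p.digits n).sum ≤ n := Nat.digit_sum_le p n
  have hlen : (p.digits n).sum ≤ (p.digits n).length • (p - 1) := by
    apply List.sum_le_card_nsmul
    intro x hx
    have := Nat.digits_lt_base (by omega : 1 < p) hx
    omega
  have hl : (p.digits n).length = Nat.log p n + 1 :=
    Nat.digits_len p n (by omega) (by omega)
  have hlog : Nat.log p n ≤ Nat.log 2 n := Nat.log_anti_left (by norm_num) hp2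
  have h2 : (p - 1) * padicValNat p n.factorial + (p - 1) * (Nat.log 2 n + 1) ≥ n := by
    rw [hl, smul_eq_mul] at hlen
    have h3 : (Nat.log p n + 1) * (p - 1) ≤ (p - 1) * (Nat.log 2 n + 1) := by
      rw [mul_comm]
      exact Nat.mul_le_mul_left _ (by omega)
    omega
  have h4 : ((p:ℝ) - 1) * padicValNat p n.factorial + ((p:ℝ) - 1) * (Nat.log 2 n + 1) ≥ n := by
    have h5 : (((p - 1 : ℕ)) : ℝ) = (p:ℝ) - 1 := by
      rw [Nat.cast_sub (by omega)]; simp
    rw [← h5]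
    exact_mod_cast h2
  rw [sub_le_iff_le_add, div_le_iff₀ hp1]
  linarith

theorem div_le_val {p : ℕ} (hp : p.Prime) (n : ℕ) : n / p ≤ padicValNat p n.factorial := by
  have := Fact.mk hp
  rw [padicValNat_factorial (p := p) (n := n) (b := Nat.log p n + 2) (by omega)]
  have h := Finset.single_le_sum (f := fun i => n / p ^ i) (s := Finset.Ico 1 (Nat.log p n + 2))
    (fun i _ => Nat.zero_le _) (show 1 ∈ Finset.Ico 1 (Nat.log p n + 2) by simp)
  simpa using h

end SO.J_legendre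

namespace SO
export J_legendre (legendre_lower div_le_val)
end SO

namespace SO.J_log_eq_sum
open SO



theorem log_eq_sum {m : ℕ} (hm : m ≠ 0) {X : ℕ} (hX : m ≤ X) :
    Real.log m = ∑ p ∈ (range (X + 1)).filter Nat.Prime,
      (padicValNat p m : ℝ) * Real.log p := by
  have h1 := Nat.prod_pow_prime_padicValNat m hm (X + 1) (by omega)
  have h2 : (m : ℝ) = ∏ p ∈ (range (X + 1)).filter Nat.Prime, ((p : ℝ) ^ padicValNat p m) := by
    conv_lhs => rw [← h1]
    push_cast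
    rfl
  rw [h2, Real.log_prod]
  · refine Finset.sum_congr rfl fun p _ => ?_
    rw [Real.log_pow]
  · intro p hp
    have hp' : p.Prime := (Finset.mem_filter.1 hp).2
    exact pow_ne_zero _ (by exact_mod_cast hp'.ne_zero)

end SO.J_log_eq_sum

namespace SO
export J_log_eq_sum (log_eq_sum)
end SO

namespace SO.J_star_upper
open SO



theorem err (D T ε : ℝ) (hT : 0 ≤ T) (hε : 0 < ε) :
    ∃ N1 : ℕ, ∀ N ≥ N1, (N : ℝ) / 2 * D + ((N : ℝ) + 1) * ((Nat.log 2 N : ℝ) + 1) * T ≤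
      ε * (N : ℝ) ^ 2 := by
  have hl2 : 0 < Real.log 2 := Real.log_pos (by norm_num)
  set c : ℝ := ε * Real.log 2 / (4 * (T + 1)) with hc
  have hc0 : 0 < c := by positivity
  have h1 : ∀ᶠ x : ℝ in Filter.atTop, |Real.log x| ≤ c * |x| := by
    have := (Real.isLittleO_log_id_atTop.bound hc0)
    simpa using this
  have h2 : ∀ᶠ n : ℕ in Filter.atTop, |Real.log n| ≤ c * |(n : ℝ)| :=
    tendsto_natCast_atTop_atTop.eventually h1
  have h3 : ∀ᶠ n : ℕ in Filter.atTop, (|D| + 2 * T) * 2 / ε ≤ (n : ℝ) :=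
    tendsto_natCast_atTop_atTop.eventually_ge_atTop _
  have h4 : ∀ᶠ n : ℕ in Filter.atTop, 1 ≤ n := Filter.eventually_ge_atTop 1
  obtain ⟨N1, hN1⟩ := Filter.eventually_atTop.1 (h2.and (h3.and h4))
  refine ⟨N1, fun N hN => ?_⟩
  obtain ⟨a1, a2, a3⟩ := hN1 N hN
  have hN1' : (1 : ℝ) ≤ N := by exact_mod_cast a3
  have b1 : (Nat.log 2 N : ℝ) ≤ Real.log N / Real.log 2 := by
    have := Real.natLog_le_logb N 2
    simpa [Real.logb] using this
  have b2 : Real.log N ≤ c * N := by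
    have := (le_abs_self _).trans a1
    rwa [abs_of_nonneg (by linarith : (0:ℝ) ≤ N)] at this
  have b3 : Real.log N / Real.log 2 ≤ ε / (4 * (T + 1)) * N := by
    rw [div_le_iff₀ hl2]
    refine b2.trans (le_of_eq ?_)
    rw [hc]
    field_simp
  have b4 : (Nat.log 2 N : ℝ) * T ≤ ε / 4 * N := by
    have e1 : ε / (4 * (T + 1)) * N * T ≤ ε / 4 * N := by
      have e2 : ε / (4 * (T + 1)) * N * T = ε / 4 * N * (T / (T + 1)) := by
        field_simp
      rw [e2]
      have e3 : T / (T + 1) ≤ 1 := (div_le_one (by linarith)).2 (by linarith)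
      exact mul_le_of_le_one_right (by positivity) e3
    exact (mul_le_mul_of_nonneg_right (b1.trans b3) hT).trans e1
  have b5 : (|D| + 2 * T) * 2 ≤ ε * N := by
    rw [div_le_iff₀ hε] at a2
    linarith
  have b6 : D ≤ |D| := le_abs_self D
  have b7 : ((N : ℝ) + 1) * ((Nat.log 2 N : ℝ) + 1) * T ≤ 2 * N * (ε / 4 * N + T) := by
    have e1 : ((Nat.log 2 N : ℝ) + 1) * T ≤ ε / 4 * N + T := by linarith
    have e2 : 0 ≤ ε / 4 * N + T := by positivity
    calc ((N : ℝ) + 1) * ((Nat.log 2 N : ℝ) + 1) * T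
        = ((N : ℝ) + 1) * (((Nat.log 2 N : ℝ) + 1) * T) := by ring
      _ ≤ ((N : ℝ) + 1) * (ε / 4 * N + T) := mul_le_mul_of_nonneg_left e1 (by linarith)
      _ ≤ 2 * N * (ε / 4 * N + T) := mul_le_mul_of_nonneg_right (by linarith) e2
  have b8 : (N : ℝ) / 2 * D + 2 * N * (ε / 4 * N + T) ≤ ε * (N : ℝ) ^ 2 := by
    have e1 : (N : ℝ) / 2 * D ≤ N / 2 * |D| := mul_le_mul_of_nonneg_left b6 (by linarith)
    have e2 : (N : ℝ) * ((|D| + 2 * T) * 2) ≤ N * (ε * N) :=
      mul_le_mul_of_nonneg_left b5 (by linarith)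
    have e3 : 0 ≤ |D| := abs_nonneg D
    nlinarith
  linarith

theorem gauss (N : ℕ) : ∑ n ∈ range (N + 1), (n : ℝ) = (N : ℝ) * (N + 1) / 2 := by
  induction N with
  | zero => simp
  | succ N ih =>
    rw [sum_range_succ, ih]
    push_cast
    ring

theorem leg_sum {p : ℕ} (hp : p.Prime) (N : ℕ) :
    (N : ℝ) * (N + 1) / 2 / ((p : ℝ) - 1) - ((N : ℝ) + 1) * ((Nat.log 2 N : ℝ) + 1) ≤
      ∑ n ∈ range (N + 1), (padicValNat p n.factorial : ℝ) := by
  have h1 : ∀ n ∈ range (N + 1), (n : ℝ) / ((p : ℝ) - 1) - ((Nat.log 2 N : ℝ) + 1) ≤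
      (padicValNat p n.factorial : ℝ) := by
    intro n hn
    have h2 := legendre_lower hp n
    have h3 : (Nat.log 2 n : ℝ) ≤ Nat.log 2 N := by
      exact_mod_cast Nat.log_mono_right (Nat.lt_succ_iff.1 (mem_range.1 hn))
    linarith
  refine le_trans (le_of_eq ?_) (sum_le_sum h1)
  rw [sum_sub_distrib, ← sum_div, gauss, sum_const, card_range, nsmul_eq_mul]
  push_cast
  ring

theorem star_upper {S : Set ℤ} {a : ℕ → ℤ} {δ : ℝ} (hd : Dens S δ) (h : IsSim S a)
    {q : ℕ} (hq : q.Prime) {ε : ℝ} (hε : 0 < ε) :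
    ∃ N₀ : ℕ, ∀ N ≥ N₀, Real.log |(V a N : ℝ)| ≤
      Real.log (∏ n ∈ range (N + 1), (n.factorial : ℝ)) +
      Real.log q * (∑ n ∈ range (N + 1), (padicValNat q (F a n) : ℝ) -
        (N : ℝ) ^ 2 / 2 / ((q : ℝ) - 1)) +
      (N : ℝ) ^ 2 / 2 * (Real.log (1 / δ) - Real.log (1 / mu S q)) + ε * (N : ℝ) ^ 2 := by
  have hinf := dens_infinite hd
  have hinj := sim_injective hinf h
  have hF0 : ∀ n, F a n ≠ 0 := by
    intro n
    unfold F
    rw [Int.natAbs_ne_zero, prod_ne_zero_iff]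
    intro i hi
    rw [sub_ne_zero]
    intro he
    have := hinj he
    rw [mem_range] at hi
    omega
  have hmu0 : ∀ p : ℕ, p.Prime → 0 < mu S p := fun p hp => lt_of_lt_of_le hd.pos (dens_le_mu hd hp)
  have hdiv : ∀ p : ℕ, p.Prime → ∀ n, ∀ x ∈ S,
      ((p ^ padicValNat p (F a n) : ℕ) : ℤ) ∣ ∏ l ∈ range n, (x - a l) := by
    intro p hp n x hx
    have h1 : p ^ padicValNat p (F a n) ∣ F a n := pow_padicValNat_dvd
    have h2 : ((p ^ padicValNat p (F a n) : ℕ) : ℤ) ∣ ((F a n : ℕ) : ℤ) := by exact_mod_cast h1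
    have h3 : ((F a n : ℕ) : ℤ) ∣ ∏ i ∈ range n, (a n - a i) := by
      unfold F
      exact Int.natAbs_dvd.2 dvd_rfl
    exact h2.trans (h3.trans (sim_dvd h n hx))
  have hfA : ∀ p : ℕ, p.Prime → ∀ n, (padicValNat p (F a n) : ℝ) * (mu S p * ((p : ℝ) - 1)) ≤ n := by
    intro p hp n
    have := val_le_A hp (range n) a (padicValNat p (F a n)) (hdiv p hp n)
    rwa [card_range] at this
  have hfB : ∀ p : ℕ, p.Prime → ∀ n, (padicValNat p (F a n) : ℝ) ≤
      n * (Real.logb p (1 / mu S p) + 1 / ((p : ℝ) - 1)) := by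
    intro p hp n
    have := val_le_B hp (hmu0 p hp) (range n) a (padicValNat p (F a n)) (hdiv p hp n)
    rwa [card_range] at this
  obtain ⟨P₀, hP₀⟩ := tail (mu S) (Real.log (1 / δ)) hmu0 (fun p hp => mu_le_one S hp.pos)
    (fun P hP => sum_one_sub_mu hd P hP) (fun p n => padicValNat p (F a n)) hfA
    (half_pos hε)
  obtain ⟨N₀, hN₀⟩ := hP₀ (max P₀ q) (le_max_left _ _)
  set P₁ := max P₀ q with hP₁
  set P : Finset ℕ := (range (P₁ + 1)).filter Nat.Prime with hP
  have hPp : ∀ p ∈ P, p.Prime := fun p hp => (mem_filter.1 hp).2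
  have hqP : q ∈ P := by
    rw [hP, mem_filter, mem_range]
    have : q ≤ P₁ := le_max_right _ _
    exact ⟨by omega, hq⟩
  set T : ℝ := ∑ p ∈ P, Real.log p with hT
  have hT0 : 0 ≤ T := sum_nonneg fun p hp => Real.log_nonneg (by
    exact_mod_cast (hPp p hp).one_lt.le)
  set D : ℝ := Real.log (1 / δ) - Real.log (1 / mu S q) with hD
  obtain ⟨N₁, hN₁⟩ := err D T (ε / 2) hT0 (half_pos hε)
  refine ⟨max N₀ N₁, fun N hN => ?_⟩
  have hta := hN₀ N (le_trans (le_max_left _ _) hN)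
  have her := hN₁ N (le_trans (le_max_right _ _) hN)
  -- the range of primes
  set X : ℕ := P₁ + ∑ n ∈ range (N + 1), (F a n + n.factorial) with hX
  have hXn : ∀ n ∈ range (N + 1), F a n + n.factorial ≤ X := by
    intro n hn
    have h1 := single_le_sum (f := fun n => F a n + n.factorial) (fun i _ => Nat.zero_le _) hn
    beta_reduce at h1
    omega
  have htaX := hta X
  -- logarithms
  have hlogV : Real.log |(V a N : ℝ)| = ∑ n ∈ range (N + 1), Real.log (F a n : ℝ) := by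
    have h1 : |(V a N : ℝ)| = ∏ n ∈ range (N + 1), (F a n : ℝ) := by
      unfold V F
      push_cast
      rw [abs_prod]
      refine prod_congr rfl fun n _ => ?_
      rw [Nat.cast_natAbs]
      push_cast
      rfl
    rw [h1, Real.log_prod (fun n _ => by exact_mod_cast hF0 n)]
  have hlogf : Real.log (∏ n ∈ range (N + 1), (n.factorial : ℝ)) =
      ∑ n ∈ range (N + 1), Real.log (n.factorial : ℝ) := by
    rw [Real.log_prod (fun n _ => by exact_mod_cast n.factorial_ne_zero)]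
  have hdiff : ∑ n ∈ range (N + 1), Real.log (F a n : ℝ) -
      ∑ n ∈ range (N + 1), Real.log (n.factorial : ℝ) =
      ∑ p ∈ (range (X + 1)).filter Nat.Prime, Real.log p * ∑ n ∈ range (N + 1),
        ((padicValNat p (F a n) : ℝ) - padicValNat p n.factorial) := by
    rw [← sum_sub_distrib]
    have h1 : ∀ n ∈ range (N + 1), Real.log (F a n : ℝ) - Real.log (n.factorial : ℝ) =
        ∑ p ∈ (range (X + 1)).filter Nat.Prime, Real.log p *
          ((padicValNat p (F a n) : ℝ) - padicValNat p n.factorial) := by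
      intro n hn
      have h2 := hXn n hn
      rw [log_eq_sum (hF0 n) (by omega : F a n ≤ X),
        log_eq_sum n.factorial_ne_zero (by omega : n.factorial ≤ X), ← sum_sub_distrib]
      refine sum_congr rfl fun p _ => ?_
      ring
    rw [sum_congr rfl h1, sum_comm]
    refine sum_congr rfl fun p _ => ?_
    rw [mul_sum]
  have hsplit : (range (X + 1)).filter Nat.Prime = P ∪ (Ioc P₁ X).filter Nat.Prime := by
    rw [hP, ← filter_union]
    congr 1
    ext m
    simp only [mem_range, mem_union, mem_Ioc]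
    omega
  have hdisj : Disjoint P ((Ioc P₁ X).filter Nat.Prime) := by
    rw [disjoint_left]
    intro m hm hm'
    rw [hP, mem_filter, mem_range] at hm
    rw [mem_filter, mem_Ioc] at hm'
    omega
  rw [hsplit, sum_union hdisj, ← add_sum_erase P _ hqP] at hdiff
  -- large primes
  have hlarge : ∑ p ∈ (Ioc P₁ X).filter Nat.Prime, Real.log p * ∑ n ∈ range (N + 1),
        ((padicValNat p (F a n) : ℝ) - padicValNat p n.factorial) ≤ ε / 2 * (N : ℝ) ^ 2 := by
    refine le_trans (sum_le_sum fun p hp => ?_) htaX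
    have hpp := (mem_filter.1 hp).2
    refine mul_le_mul_of_nonneg_left ?_ (Real.log_nonneg (by exact_mod_cast hpp.one_lt.le))
    refine sum_le_sum fun n _ => ?_
    refine le_trans ?_ (le_max_right _ _)
    have : ((n / p : ℕ) : ℝ) ≤ padicValNat p n.factorial := by exact_mod_cast div_le_val hpp n
    linarith
  -- small primes
  have hsmall : ∑ p ∈ P.erase q, Real.log p * ∑ n ∈ range (N + 1),
        ((padicValNat p (F a n) : ℝ) - padicValNat p n.factorial) ≤
      (N : ℝ) * (N + 1) / 2 * D +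
        ((N : ℝ) + 1) * ((Nat.log 2 N : ℝ) + 1) * (T - Real.log q) := by
    have h1 : ∀ p ∈ P.erase q, Real.log p * ∑ n ∈ range (N + 1),
        ((padicValNat p (F a n) : ℝ) - padicValNat p n.factorial) ≤
        (N : ℝ) * (N + 1) / 2 * Real.log (1 / mu S p) +
          ((N : ℝ) + 1) * ((Nat.log 2 N : ℝ) + 1) * Real.log p := by
      intro p hp
      have hpp := hPp p (mem_of_mem_erase hp)
      have hlp : 0 < Real.log p := Real.log_pos (by exact_mod_cast hpp.one_lt)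
      have h2 : ∑ n ∈ range (N + 1), (padicValNat p (F a n) : ℝ) ≤
          (N : ℝ) * (N + 1) / 2 * (Real.logb p (1 / mu S p) + 1 / ((p : ℝ) - 1)) := by
        refine le_trans (sum_le_sum fun n _ => hfB p hpp n) (le_of_eq ?_)
        rw [← sum_mul, gauss]
      have h3 := leg_sum hpp N
      have h4 : ∑ n ∈ range (N + 1), ((padicValNat p (F a n) : ℝ) - padicValNat p n.factorial) ≤
          (N : ℝ) * (N + 1) / 2 * Real.logb p (1 / mu S p) +
            ((N : ℝ) + 1) * ((Nat.log 2 N : ℝ) + 1) := by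
        rw [sum_sub_distrib]
        have h5 : (N : ℝ) * (N + 1) / 2 * (Real.logb p (1 / mu S p) + 1 / ((p : ℝ) - 1)) =
          (N : ℝ) * (N + 1) / 2 * Real.logb p (1 / mu S p) +
            (N : ℝ) * (N + 1) / 2 / ((p : ℝ) - 1) := by ring
        linarith
      refine (mul_le_mul_of_nonneg_left h4 hlp.le).trans (le_of_eq ?_)
      have h6 : Real.log p * Real.logb p (1 / mu S p) = Real.log (1 / mu S p) := by
        unfold Real.logb
        rw [mul_div_cancel₀ _ hlp.ne']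
      calc Real.log p * ((N : ℝ) * (N + 1) / 2 * Real.logb p (1 / mu S p) +
            ((N : ℝ) + 1) * ((Nat.log 2 N : ℝ) + 1))
          = (N : ℝ) * (N + 1) / 2 * (Real.log p * Real.logb p (1 / mu S p)) +
            ((N : ℝ) + 1) * ((Nat.log 2 N : ℝ) + 1) * Real.log p := by ring
        _ = _ := by rw [h6]
    refine (sum_le_sum h1).trans ?_
    rw [sum_add_distrib, ← mul_sum, ← mul_sum]
    have h2 : ∑ p ∈ P.erase q, Real.log p = T - Real.log q := by
      have := add_sum_erase P (fun p : ℕ => Real.log (p : ℝ)) hqP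
      beta_reduce at this
      linarith
    have h3 : ∑ p ∈ P.erase q, Real.log (1 / mu S p) ≤ D := by
      have h4 := add_sum_erase P (fun p : ℕ => Real.log (1 / mu S p)) hqP
      have h5 := sum_log_mu hd P hPp
      beta_reduce at h4
      linarith
    rw [h2]
    have h6 : (0 : ℝ) ≤ (N : ℝ) * (N + 1) / 2 := by positivity
    have h7 := mul_le_mul_of_nonneg_left h3 h6
    linarith
  -- the prime q
  have hlq : 0 < Real.log q := Real.log_pos (by exact_mod_cast hq.one_lt)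
  have hqq : Real.log q * ∑ n ∈ range (N + 1),
        ((padicValNat q (F a n) : ℝ) - padicValNat q n.factorial) ≤
      Real.log q * (∑ n ∈ range (N + 1), (padicValNat q (F a n) : ℝ) -
        (N : ℝ) ^ 2 / 2 / ((q : ℝ) - 1)) +
        ((N : ℝ) + 1) * ((Nat.log 2 N : ℝ) + 1) * Real.log q := by
    have h3 := leg_sum hq N
    have hq1 : (0 : ℝ) < (q : ℝ) - 1 := by
      have : (1 : ℝ) < q := by exact_mod_cast hq.one_lt
      linarith
    have h4 : (N : ℝ) ^ 2 / 2 / ((q : ℝ) - 1) ≤ (N : ℝ) * (N + 1) / 2 / ((q : ℝ) - 1) := by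
      refine div_le_div_of_nonneg_right ?_ hq1.le
      have : (0 : ℝ) ≤ N := Nat.cast_nonneg N
      nlinarith
    rw [sum_sub_distrib]
    have h5 : ∑ n ∈ range (N + 1), (padicValNat q (F a n) : ℝ) -
        ∑ n ∈ range (N + 1), (padicValNat q n.factorial : ℝ) ≤
        (∑ n ∈ range (N + 1), (padicValNat q (F a n) : ℝ) - (N : ℝ) ^ 2 / 2 / ((q : ℝ) - 1)) +
        ((N : ℝ) + 1) * ((Nat.log 2 N : ℝ) + 1) := by linarith
    refine (mul_le_mul_of_nonneg_left h5 hlq.le).trans (le_of_eq ?_)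
    ring
  rw [hlogV, hlogf]
  have hfin : (N : ℝ) * (N + 1) / 2 * D = (N : ℝ) ^ 2 / 2 * D + (N : ℝ) / 2 * D := by ring
  have hfin2 : ((N : ℝ) + 1) * ((Nat.log 2 N : ℝ) + 1) * (T - Real.log q) +
      ((N : ℝ) + 1) * ((Nat.log 2 N : ℝ) + 1) * Real.log q =
      ((N : ℝ) + 1) * ((Nat.log 2 N : ℝ) + 1) * T := by ring
  rw [sum_sub_distrib] at hqq
  rw [sum_sub_distrib (s := range (N + 1)) (f := fun n => (padicValNat q (F a n) : ℝ))
    (g := fun n => (padicValNat q n.factorial : ℝ))] at hdiff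
  linarith

end SO.J_star_upper

namespace SO
export J_star_upper (star_upper)
end SO

namespace SO.J_star
open SO



theorem star {S : Set ℤ} {a : ℕ → ℤ} {δ : ℝ} (hd : Dens S δ) (h : IsSim S a)
    {q : ℕ} (hq : q.Prime) {ε : ℝ} (hε : 0 < ε) :
    ∃ N₀ : ℕ, ∀ N ≥ N₀,
      (N : ℝ) ^ 2 / 2 * (Real.logb q (1 / mu S q) + 1 / ((q : ℝ) - 1) - ε) ≤
        ∑ n ∈ range (N + 1), (padicValNat q (F a n) : ℝ) := by
  have hq1 : (1 : ℝ) < q := by exact_mod_cast hq.one_lt
  have hL : 0 < Real.log q := Real.log_pos hq1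
  obtain ⟨L, hLd⟩ : ∃ L, L = Real.log q := ⟨_, rfl⟩
  rw [← hLd] at hL
  obtain ⟨N₁, h1⟩ := vand_lower hd (show 0 < L * ε / 2 by positivity)
  obtain ⟨N₂, h2⟩ := star_upper hd h hq (show 0 < L * ε / 4 by positivity)
  refine ⟨max N₁ N₂, ?_⟩
  intro N hN
  have h3 := h1 N ((le_max_left _ _).trans hN) a h.1 (sim_injective (dens_infinite hd) h)
  have h4 := h2 N ((le_max_right _ _).trans hN)
  have h5 := h3.trans h4
  have hB : L * Real.logb q (1 / mu S q) = Real.log (1 / mu S q) := by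
    rw [Real.logb, ← hLd, mul_div_cancel₀ _ hL.ne']
  rw [← hLd, ← hB] at h5
  generalize Real.logb q (1 / mu S q) = B at h5 ⊢
  generalize ∑ n ∈ range (N + 1), (padicValNat q (F a n) : ℝ) = Sf at h5 ⊢
  generalize Real.log (∏ n ∈ range (N + 1), (n.factorial : ℝ)) = P at h5
  generalize Real.log (1 / δ) = E at h5
  have h6 : (N : ℝ) ^ 2 / 2 / ((q : ℝ) - 1) = (N : ℝ) ^ 2 / 2 * (1 / ((q : ℝ) - 1)) := by
    rw [mul_one_div]
  rw [h6] at h5
  generalize 1 / ((q : ℝ) - 1) = c at h5 ⊢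
  apply le_of_mul_le_mul_left _ hL
  nlinarith
end SO.J_star

namespace SO
export J_star (star)
end SO

namespace SO.J_exists_heavy
open SO



theorem exists_heavy {S : Set ℤ} {a : ℕ → ℤ} {q : ℕ} (hq : q.Prime) (hmu : 0 < mu S q)
    (f : ℕ → ℕ) (hf : ∀ n, ∀ x ∈ S, ((q ^ (f n) : ℕ) : ℤ) ∣ ∏ l ∈ range n, (x - a l))
    (H : ℝ) (hH : 0 < H)
    (hstar : ∀ ε : ℝ, 0 < ε → ∃ N₀ : ℕ, ∀ N ≥ N₀,
      (N : ℝ) ^ 2 / 2 * (H - ε) ≤ ∑ n ∈ range (N + 1), (f n : ℝ)) {ε : ℝ} (hε : 0 < ε)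
    (K₁ : ℕ) : ∃ K ≥ K₁, ∃ b : ℤ,
      (H - ε) * (r S (q ^ K) : ℝ) < ∑ k ∈ Icc 1 K, (r (S ∩ cl b (q ^ k)) (q ^ K) : ℝ) := by
  
  by_contra hcon
  push Not at hcon
  have hq1 : 1 < q := hq.one_lt
  have hbound : ∀ n : ℕ, (f n : ℝ) ≤ n * (H - ε) := by
    intro n
    by_contra hn
    push Not at hn
    set d : ℝ := (f n : ℝ) - n * (H - ε) with hd
    have hdpos : 0 < d := by rw [hd]; linarith
    have h1 : ∀ K : ℕ, K₁ ≤ K → (r S (q ^ K) : ℝ) * d ≤ n * f n := by
      intro K hK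
      have h2 := avg S hq (range n) a (f n) (hf n) K
      have h3 : ∑ l ∈ range n, ∑ k ∈ Icc 1 K, (r (S ∩ cl (a l) (q ^ k)) (q ^ K) : ℝ) ≤
          ∑ l ∈ range n, (H - ε) * (r S (q ^ K) : ℝ) :=
        Finset.sum_le_sum fun l _ => hcon K hK (a l)
      rw [Finset.sum_const, Finset.card_range, nsmul_eq_mul] at h3
      rw [Finset.card_range] at h2
      rw [hd]
      nlinarith
    obtain ⟨K2, hK2⟩ := exists_nat_gt ((n * f n : ℝ) / (mu S q * d))
    set K := max K₁ K2 with hK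
    have h4 := h1 K (le_max_left _ _)
    have h5 : mu S q * (q:ℝ) ^ K ≤ (r S (q ^ K) : ℝ) := by
      have := mu_le S q K
      rwa [le_div_iff₀ (by have : (0:ℝ) < q := by exact_mod_cast hq.pos
                           positivity)] at this
    have h6 : (K2 : ℝ) ≤ (q:ℝ) ^ K := by
      have h7 : K < q ^ K := Nat.lt_pow_self hq1
      have h8 : K2 ≤ K := le_max_right _ _
      exact_mod_cast (h8.trans h7.le)
    rw [div_lt_iff₀ (by positivity)] at hK2
    have h9 : mu S q * K2 ≤ (r S (q ^ K) : ℝ) :=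
      (mul_le_mul_of_nonneg_left h6 hmu.le).trans h5
    have h10 := mul_le_mul_of_nonneg_right h9 hdpos.le
    nlinarith
  obtain ⟨N0, hN0⟩ := hstar (ε / 2) (by positivity)
  obtain ⟨N1, hN1⟩ := exists_nat_gt (2 * H / ε)
  set N := max N0 (N1 + 1) with hN
  have hs := hN0 N (le_max_left _ _)
  have hs2 : ∑ n ∈ range (N + 1), (f n : ℝ) ≤ ∑ n ∈ range (N + 1), (n : ℝ) * (H - ε) :=
    Finset.sum_le_sum fun n _ => hbound n
  rw [← Finset.sum_mul] at hs2
  have hg : ∑ n ∈ range (N + 1), (n : ℝ) = N * (N + 1) / 2 := by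
    have := Finset.sum_range_id_mul_two (N + 1)
    rw [Nat.add_sub_cancel] at this
    have h' := congrArg (Nat.cast : ℕ → ℝ) this
    push_cast at h'
    linarith
  rw [hg] at hs2
  have hNpos : (0:ℝ) < N := by
    have : 0 < N := lt_of_lt_of_le (Nat.succ_pos N1) (le_max_right _ _)
    exact_mod_cast this
  have hN1' : (N1 : ℝ) + 1 ≤ N := by
    have : N1 + 1 ≤ N := le_max_right _ _
    exact_mod_cast this
  rw [div_lt_iff₀ hε] at hN1
  have h11 : (N : ℝ) ^ 2 / 2 * (H - ε / 2) ≤ N * (N + 1) / 2 * (H - ε) := hs.trans hs2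
  have h12 : (N : ℝ) * (N * ε / 2) ≤ N * (H - ε) := by nlinarith
  have h13 := le_of_mul_le_mul_left h12 hNpos
  nlinarith


end SO.J_exists_heavy

namespace SO
export J_exists_heavy (exists_heavy)
end SO

namespace SO.J_phi_strict
open SO



theorem aux_le {q : ℕ} {ρ : ℝ} (K : ℕ) : ∑ k ∈ Icc 1 K, min 1 (ρ / (q : ℝ) ^ k) ≤ K := by
  calc ∑ k ∈ Icc 1 K, min 1 (ρ / (q : ℝ) ^ k) ≤ ∑ k ∈ Icc 1 K, (1 : ℝ) :=
        sum_le_sum fun k _ => min_le_left _ _
    _ = K := by simp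

theorem aux_sum {q : ℕ} (hq : 2 ≤ q) {t : ℝ} (ht : 1 ≤ t) (j m : ℕ) :
    ∑ k ∈ Icc 1 (j + m), min 1 (((q : ℝ) ^ j * t) / (q : ℝ) ^ k) ≤
      j + t / ((q : ℝ) - 1) * (1 - 1 / (q : ℝ) ^ m) := by
  have hq' : (2 : ℝ) ≤ q := by exact_mod_cast hq
  have hq0 : (0 : ℝ) < q := by linarith
  have hq1 : (0 : ℝ) < (q : ℝ) - 1 := by linarith
  induction m with
  | zero => simpa using aux_le (q := q) (ρ := (q : ℝ) ^ j * t) j
  | succ m ih =>
    rw [← add_assoc, sum_Icc_succ_top (by omega)]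
    have h1 : min 1 (((q : ℝ) ^ j * t) / (q : ℝ) ^ (j + m + 1)) ≤ t / (q : ℝ) ^ (m + 1) := by
      refine (min_le_right _ _).trans (le_of_eq ?_)
      rw [add_assoc j m 1, pow_add]
      field_simp
    have h2 : t / ((q : ℝ) - 1) * (1 - 1 / (q : ℝ) ^ m) + t / (q : ℝ) ^ (m + 1) =
        t / ((q : ℝ) - 1) * (1 - 1 / (q : ℝ) ^ (m + 1)) := by
      rw [pow_succ]
      field_simp
      ring
    linarith

theorem phi_strict {q : ℕ} (hq : 2 ≤ q) {ρ : ℝ} (hρ : 1 ≤ ρ)
    (h : ∀ ε : ℝ, 0 < ε → ∃ K : ℕ, Real.logb q ρ + 1 / ((q : ℝ) - 1) - ε ≤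
      ∑ k ∈ Icc 1 K, min 1 (ρ / (q : ℝ) ^ k)) : ∃ j : ℕ, ρ = (q : ℝ) ^ j := by
  have hq' : (2 : ℝ) ≤ q := by exact_mod_cast hq
  have hq0 : (0 : ℝ) < q := by linarith
  have hq1 : (0 : ℝ) < (q : ℝ) - 1 := by linarith
  obtain ⟨j, h1, h2⟩ := exists_nat_pow_near hρ (by linarith : (1 : ℝ) < q)
  refine ⟨j, ?_⟩
  obtain ⟨t, ht⟩ : ∃ t : ℝ, ρ = (q : ℝ) ^ j * t := ⟨ρ / (q : ℝ) ^ j, by field_simp⟩
  have hqj : (0 : ℝ) < (q : ℝ) ^ j := by positivity
  have ht1 : 1 ≤ t := by
    rw [ht] at h1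
    exact le_of_mul_le_mul_left (by linarith) hqj
  have ht2 : t < q := by
    rw [ht, pow_succ] at h2
    exact lt_of_mul_lt_mul_left h2 hqj.le
  have hbound : ∀ K : ℕ, ∑ k ∈ Icc 1 K, min 1 (ρ / (q : ℝ) ^ k) ≤ j + t / ((q : ℝ) - 1) := by
    intro K
    have htq : 0 < t / ((q : ℝ) - 1) := by positivity
    rcases le_total K j with hK | hK
    · have := aux_le (q := q) (ρ := ρ) K
      have hK' : (K : ℝ) ≤ j := by exact_mod_cast hK
      linarith
    · obtain ⟨m, rfl⟩ := Nat.exists_eq_add_of_le hK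
      have h3 := aux_sum hq ht1 j m
      rw [← ht] at h3
      have h4 : t / ((q : ℝ) - 1) * (1 - 1 / (q : ℝ) ^ m) ≤ t / ((q : ℝ) - 1) * 1 := by
        apply mul_le_mul_of_nonneg_left _ htq.le
        have : 0 < 1 / (q : ℝ) ^ m := by positivity
        linarith
      linarith
  have hlog : Real.logb q ρ = j + Real.logb q t := by
    rw [ht, Real.logb_mul hqj.ne' (by linarith), Real.logb_pow, Real.logb_self_eq_one (by linarith)]
    ring
  have hmain : Real.logb q t + 1 / ((q : ℝ) - 1) ≤ t / ((q : ℝ) - 1) := by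
    apply le_of_forall_pos_le_add
    intro ε hε
    obtain ⟨K, hK⟩ := h ε hε
    have := hbound K
    rw [hlog] at hK
    linarith
  rcases eq_or_lt_of_le ht1 with h5 | h5
  · rw [ht, ← h5, mul_one]
  · exfalso
    have hlq : 0 < Real.log q := Real.log_pos (by linarith)
    have hc := strictConcaveOn_log_Ioi.2 (show (1 : ℝ) ∈ Set.Ioi 0 by simp)
      (show (q : ℝ) ∈ Set.Ioi 0 from hq0) (by linarith)
      (show 0 < ((q : ℝ) - t) / ((q : ℝ) - 1) from div_pos (by linarith) hq1)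
      (show 0 < (t - 1) / ((q : ℝ) - 1) from div_pos (by linarith) hq1)
      (by field_simp; ring)
    have h6 : (((q : ℝ) - t) / ((q : ℝ) - 1)) • (1 : ℝ) + ((t - 1) / ((q : ℝ) - 1)) • (q : ℝ) = t := by
      simp only [smul_eq_mul]
      field_simp
      ring
    rw [h6, Real.log_one, smul_zero, zero_add, smul_eq_mul] at hc
    have h7 : (t - 1) / ((q : ℝ) - 1) < Real.logb q t := by
      unfold Real.logb
      rw [lt_div_iff₀ hlq]
      exact hc
    have h8 : (t - 1) / ((q : ℝ) - 1) = t / ((q : ℝ) - 1) - 1 / ((q : ℝ) - 1) := by ring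
    linarith

end SO.J_phi_strict

namespace SO
export J_phi_strict (phi_strict)
end SO

namespace SO.J_struct_j
open SO



theorem struct_j {S : Set ℤ} {q : ℕ} (hq : q.Prime) (hmu : 0 < mu S q)
    (hheavy : ∀ ε : ℝ, 0 < ε → ∀ K₁ : ℕ, ∃ K ≥ K₁, ∃ b : ℤ,
      (Real.logb q (1 / mu S q) + 1 / ((q : ℝ) - 1) - ε) * (r S (q ^ K) : ℝ) <
        ∑ k ∈ Icc 1 K, (r (S ∩ cl b (q ^ k)) (q ^ K) : ℝ)) :
    ∃ j : ℕ, mu S q = 1 / (q : ℝ) ^ j := by
  have hq0 : (0 : ℝ) < q := by exact_mod_cast hq.pos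
  have hmu1 : mu S q ≤ 1 := mu_le_one S hq.pos
  have hρ : 1 ≤ 1 / mu S q := by
    rw [le_div_iff₀ hmu]; linarith
  obtain ⟨j, hj⟩ := phi_strict hq.two_le hρ (by
    intro ε hε
    obtain ⟨K, _, b, hK⟩ := hheavy ε hε 0
    refine ⟨K, ?_⟩
    have hr : mu S q * (q : ℝ) ^ K ≤ (r S (q ^ K) : ℝ) := by
      have := mu_le S q K
      rwa [le_div_iff₀ (by positivity)] at this
    have hr0 : (0 : ℝ) < (r S (q ^ K) : ℝ) := lt_of_lt_of_le (by positivity) hr
    have hsum : ∑ k ∈ Icc 1 K, (r (S ∩ cl b (q ^ k)) (q ^ K) : ℝ) ≤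
        (∑ k ∈ Icc 1 K, min 1 ((1 / mu S q) / (q : ℝ) ^ k)) * (r S (q ^ K) : ℝ) := by
      rw [Finset.sum_mul]
      apply Finset.sum_le_sum
      intro k hk
      have hk' := Finset.mem_Icc.1 hk
      have h1 : (r (S ∩ cl b (q ^ k)) (q ^ K) : ℝ) ≤ (r S (q ^ K) : ℝ) := by
        exact_mod_cast r_mono Set.inter_subset_left (pow_pos hq.pos K)
      have h2 : (r (S ∩ cl b (q ^ k)) (q ^ K) : ℝ) ≤ (q : ℝ) ^ (K - k) := by
        exact_mod_cast r_cl_le S b hq hk'.2
      have h3 : (q : ℝ) ^ (K - k) ≤ (1 / mu S q) / (q : ℝ) ^ k * (r S (q ^ K) : ℝ) := by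
        have e : (q : ℝ) ^ (K - k) = (q : ℝ) ^ K / (q : ℝ) ^ k := by
          rw [eq_div_iff (by positivity), ← pow_add, Nat.sub_add_cancel hk'.2]
        rw [e]
        have h4 : (q : ℝ) ^ K ≤ (1 / mu S q) * (r S (q ^ K) : ℝ) := by
          rw [one_div, inv_mul_eq_div, le_div_iff₀ hmu]
          linarith
        calc (q : ℝ) ^ K / (q : ℝ) ^ k ≤ ((1 / mu S q) * (r S (q ^ K) : ℝ)) / (q : ℝ) ^ k := by
              gcongr
          _ = _ := by ring
      rw [min_mul_of_nonneg _ _ hr0.le, one_mul]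
      exact le_min h1 (h2.trans h3)
    have h5 := lt_of_lt_of_le hK hsum
    exact (lt_of_mul_lt_mul_right h5 hr0.le).le)
  refine ⟨j, ?_⟩
  rw [← hj, one_div_one_div]

end SO.J_struct_j

namespace SO
export J_struct_j (struct_j)
end SO

namespace SO.J_struct_full
open SO



theorem miss {T : Set ℤ} {q : ℕ} (hq : q.Prime) {j m : ℕ} (hjm : j ≤ m) {b y : ℤ}
    (hT : T ⊆ cl b (q ^ j)) (hy : y ∈ cl b (q ^ j))
    (hmiss : ∀ x ∈ T, ¬ ((q ^ m : ℕ) : ℤ) ∣ x - y) :
    r T (q ^ m) + 1 ≤ q ^ (m - j) := by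
  haveI : NeZero (q ^ m) := ⟨pow_ne_zero _ hq.ne_zero⟩
  have h1 := r_cl_le (insert y T) b hq hjm
  have h2 : insert y T ∩ cl b (q ^ j) = insert y T := by
    apply Set.inter_eq_left.2
    intro z hz
    rcases Set.mem_insert_iff.1 hz with h | h
    · rw [h]; exact hy
    · exact hT h
  rw [h2] at h1
  unfold r at h1 ⊢
  rw [Set.image_insert_eq, Set.ncard_insert_of_notMem _ (Set.toFinite _)] at h1
  · exact h1
  · rintro ⟨x, hx, hxy⟩
    have hxy' : ((x : ℤ) : ZMod (q ^ m)) = ((y : ℤ) : ZMod (q ^ m)) := hxy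
    rw [ZMod.intCast_eq_intCast_iff_dvd_sub] at hxy'
    apply hmiss x hx
    rw [← dvd_neg, neg_sub]
    exact hxy'

theorem r_pow_le (T : Set ℤ) {q : ℕ} (hq : q.Prime) (m n : ℕ) :
    r T (q ^ (m + n)) ≤ q ^ n * r T (q ^ m) := by
  induction n with
  | zero => simp
  | succ n ih =>
    calc r T (q ^ (m + (n + 1))) = r T (q ^ ((m + n) + 1)) := by rw [add_assoc]
      _ ≤ q * r T (q ^ (m + n)) := r_succ_le T hq.pos (m + n)
      _ ≤ q * (q ^ n * r T (q ^ m)) := Nat.mul_le_mul_left _ ih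
      _ = q ^ (n + 1) * r T (q ^ m) := by rw [pow_succ]; ring

theorem geo {q : ℕ} (hq : q.Prime) (j n : ℕ) :
    ∑ k ∈ Ico (j + 1) (j + n + 1), (q : ℝ) ^ (j + n - k) ≤ (q : ℝ) ^ n / ((q : ℝ) - 1) := by
  have hq2 : (2 : ℝ) ≤ q := by exact_mod_cast hq.two_le
  rw [Finset.sum_Ico_eq_sum_range]
  have h1 : j + n + 1 - (j + 1) = n := by omega
  rw [h1]
  have h2 : ∑ i ∈ range n, (q : ℝ) ^ (j + n - (j + 1 + i)) = ∑ i ∈ range n, (q : ℝ) ^ i := by
    rw [← Finset.sum_range_reflect (fun i => (q : ℝ) ^ i) n]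
    apply Finset.sum_congr rfl
    intro i _
    congr 1
    omega
  rw [h2, geom_sum_eq (by linarith)]
  apply div_le_div_of_nonneg_right _ (by linarith)
  linarith

theorem term {S : Set ℤ} {q : ℕ} (hq : q.Prime) {j : ℕ} (hj : 1 ≤ j)
    (hmu : mu S q = 1 / (q : ℝ) ^ j) {ε : ℝ} (hε : ε ≤ 1) {K : ℕ} (hK : j ≤ K) (b : ℤ)
    (h : ((j : ℝ) + 1 / ((q : ℝ) - 1) - ε) * (r S (q ^ K) : ℝ) <
        ∑ k ∈ Icc 1 K, (r (S ∩ cl b (q ^ k)) (q ^ K) : ℝ)) :
    (1 - ε) * (q : ℝ) ^ (K - j) < (r (S ∩ cl b (q ^ j)) (q ^ K) : ℝ) := by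
  have hq2 : (2 : ℝ) ≤ q := by exact_mod_cast hq.two_le
  have hq0 : (0 : ℝ) < q := by linarith
  obtain ⟨R, hR⟩ : ∃ R : ℝ, R = (r S (q ^ K) : ℝ) := ⟨_, rfl⟩
  obtain ⟨t, ht⟩ : ∃ t : ℕ → ℝ, t = fun k => (r (S ∩ cl b (q ^ k)) (q ^ K) : ℝ) := ⟨_, rfl⟩
  have hRlow : (q : ℝ) ^ (K - j) ≤ R := by
    have h1 := mu_le S q K
    rw [hmu, ← hR, div_le_div_iff₀ (by positivity) (by positivity), one_mul] at h1
    have h2 : (q : ℝ) ^ K = (q : ℝ) ^ (K - j) * (q : ℝ) ^ j := by
      rw [← pow_add]; congr 1; omega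
    rw [h2] at h1
    exact le_of_mul_le_mul_right h1 (by positivity)
  have hR0 : 0 ≤ R := le_trans (by positivity) hRlow
  have ht1 : ∀ k, t k ≤ R := by
    intro k
    rw [ht, hR]
    show (r (S ∩ cl b (q ^ k)) (q ^ K) : ℝ) ≤ (r S (q ^ K) : ℝ)
    exact_mod_cast r_mono Set.inter_subset_left (pow_pos hq.pos K)
  have ht2 : ∀ k, k ≤ K → t k ≤ (q : ℝ) ^ (K - k) := by
    intro k hk
    rw [ht]
    show (r (S ∩ cl b (q ^ k)) (q ^ K) : ℝ) ≤ _
    exact_mod_cast r_cl_le S b hq hk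
  have hsum : ∑ k ∈ Icc 1 K, (r (S ∩ cl b (q ^ k)) (q ^ K) : ℝ) = ∑ k ∈ Ico 1 (K + 1), t k := by
    rw [ht]
    apply Finset.sum_congr _ (fun _ _ => rfl)
    ext k
    simp only [Finset.mem_Icc, Finset.mem_Ico]
    omega
  rw [hsum, ← hR, ← Finset.sum_Ico_consecutive t hj (show j ≤ K + 1 by omega),
    Finset.sum_eq_sum_Ico_succ_bot (show j < K + 1 by omega) t] at h
  have h3 : ∑ k ∈ Ico 1 j, t k ≤ ((j : ℝ) - 1) * R := by
    refine le_trans (Finset.sum_le_card_nsmul _ _ R (fun k _ => ht1 k)) ?_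
    rw [nsmul_eq_mul, Nat.card_Ico]
    push_cast [Nat.cast_sub hj]
    exact le_refl _
  have h4 : ∑ k ∈ Ico (j + 1) (K + 1), t k ≤ R / ((q : ℝ) - 1) := by
    obtain ⟨n, rfl⟩ : ∃ n, K = j + n := ⟨K - j, by omega⟩
    calc ∑ k ∈ Ico (j + 1) (j + n + 1), t k
        ≤ ∑ k ∈ Ico (j + 1) (j + n + 1), (q : ℝ) ^ (j + n - k) := by
          apply Finset.sum_le_sum
          intro k hk
          rw [Finset.mem_Ico] at hk
          exact ht2 k (by omega)
      _ ≤ (q : ℝ) ^ n / ((q : ℝ) - 1) := geo hq j n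
      _ ≤ R / ((q : ℝ) - 1) := by
          apply div_le_div_of_nonneg_right _ (by linarith)
          have : j + n - j = n := by omega
          rw [this] at hRlow
          exact hRlow
  have h5 : (1 - ε) * R < t j := by
    have h6 : ((j : ℝ) + 1 / ((q : ℝ) - 1) - ε) * R =
        ((j : ℝ) - 1) * R + R / ((q : ℝ) - 1) + (1 - ε) * R := by ring
    rw [h6] at h
    linarith
  have h7 : (1 - ε) * (q : ℝ) ^ (K - j) ≤ (1 - ε) * R :=
    mul_le_mul_of_nonneg_left hRlow (by linarith)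
  calc (1 - ε) * (q : ℝ) ^ (K - j) ≤ (1 - ε) * R := h7
    _ < t j := h5
    _ = _ := by rw [ht]

theorem cl_emod (b : ℤ) (m : ℕ) : cl (b % (m : ℤ)) m = cl b m := by
  have h1 : (m : ℤ) ∣ b - b % (m : ℤ) := Int.dvd_self_sub_emod
  ext x
  constructor
  · intro hx
    have hx' : (m : ℤ) ∣ x - b % (m : ℤ) := hx
    show (m : ℤ) ∣ x - b
    have : x - b = (x - b % (m : ℤ)) - (b - b % (m : ℤ)) := by ring
    rw [this]
    exact dvd_sub hx' h1
  · intro hx
    have hx' : (m : ℤ) ∣ x - b := hx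
    show (m : ℤ) ∣ x - b % (m : ℤ)
    have : x - b % (m : ℤ) = (x - b) + (b - b % (m : ℤ)) := by ring
    rw [this]
    exact dvd_add hx' h1

theorem heavy_class {S : Set ℤ} {q : ℕ} (hq : q.Prime) {j : ℕ}
    (hmu : mu S q = 1 / (q : ℝ) ^ j)
    (hheavy : ∀ ε : ℝ, 0 < ε → ∀ K₁ : ℕ, ∃ K ≥ K₁, ∃ b : ℤ,
      ((j : ℝ) + 1 / ((q : ℝ) - 1) - ε) * (r S (q ^ K) : ℝ) <
        ∑ k ∈ Icc 1 K, (r (S ∩ cl b (q ^ k)) (q ^ K) : ℝ)) :
    ∃ b : ℤ, ∀ n : ℕ, ∃ K ≥ n,
      (1 - 1 / ((n : ℝ) + 1)) * (q : ℝ) ^ (K - j) < (r (S ∩ cl b (q ^ j)) (q ^ K) : ℝ) := by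
  have hq2 : (2 : ℝ) ≤ q := by exact_mod_cast hq.two_le
  rcases Nat.eq_zero_or_pos j with hj | hj
  · subst hj
    refine ⟨0, fun n => ⟨n, le_refl _, ?_⟩⟩
    have h0 : S ∩ cl 0 (q ^ 0) = S := by
      apply Set.inter_eq_left.2
      intro x _
      show ((q ^ 0 : ℕ) : ℤ) ∣ x - 0
      simp
    rw [h0]
    have h1 := mu_le S q n
    rw [hmu] at h1
    rw [pow_zero, div_one, le_div_iff₀ (by positivity), one_mul] at h1
    refine lt_of_lt_of_le ?_ h1
    rw [Nat.sub_zero]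
    have h2 : 0 < (q : ℝ) ^ n := by positivity
    have h3 : 0 < 1 / ((n : ℝ) + 1) := by positivity
    nlinarith [mul_pos h2 h3]
  · -- the pigeonhole
    have hall : ∀ n : ℕ, ∃ c ∈ range (q ^ j), ∃ K ≥ n,
        (1 - 1 / ((n : ℝ) + 1)) * (q : ℝ) ^ (K - j) <
          (r (S ∩ cl (c : ℤ) (q ^ j)) (q ^ K) : ℝ) := by
      intro n
      obtain ⟨K, hK, b, hb⟩ := hheavy (1 / ((n : ℝ) + 1)) (by positivity) (max n j)
      have hKn : n ≤ K := le_trans (le_max_left _ _) hK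
      have hKj : j ≤ K := le_trans (le_max_right _ _) hK
      have hε1 : 1 / ((n : ℝ) + 1) ≤ 1 := by
        rw [div_le_one (by positivity)]
        have : (0 : ℝ) ≤ n := Nat.cast_nonneg n
        linarith
      have h1 := term hq hj hmu hε1 hKj b hb
      have hm : (0 : ℤ) < ((q ^ j : ℕ) : ℤ) := by
        exact_mod_cast pow_pos hq.pos j
      have hnn : 0 ≤ b % ((q ^ j : ℕ) : ℤ) := Int.emod_nonneg _ hm.ne'
      have hlt : b % ((q ^ j : ℕ) : ℤ) < ((q ^ j : ℕ) : ℤ) := Int.emod_lt_of_pos _ hm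
      refine ⟨(b % ((q ^ j : ℕ) : ℤ)).toNat, ?_, K, hKn, ?_⟩
      · rw [Finset.mem_range]
        omega
      · rw [Int.toNat_of_nonneg hnn, cl_emod]
        exact h1
    by_contra hcon
    push Not at hcon
    choose N hN using fun c : ℕ => hcon (c : ℤ)
    obtain ⟨c, hc, K, hK, hlt⟩ := hall ((range (q ^ j)).sup N)
    have hNc : N c ≤ (range (q ^ j)).sup N := Finset.le_sup hc
    have h2 := hN c K (le_trans hNc hK)
    have h3 : 1 / (((range (q ^ j)).sup N : ℕ) + 1 : ℝ) ≤ 1 / ((N c : ℝ) + 1) := by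
      apply one_div_le_one_div_of_le (by positivity)
      have : (N c : ℝ) ≤ (((range (q ^ j)).sup N : ℕ) : ℝ) := by exact_mod_cast hNc
      linarith
    have h4 : (1 - 1 / ((N c : ℝ) + 1)) * (q : ℝ) ^ (K - j) ≤
        (1 - 1 / (((range (q ^ j)).sup N : ℕ) + 1 : ℝ)) * (q : ℝ) ^ (K - j) :=
      mul_le_mul_of_nonneg_right (by linarith) (by positivity)
    linarith

theorem struct_full {S : Set ℤ} {q : ℕ} (hq : q.Prime) {j : ℕ}
    (hmu : mu S q = 1 / (q : ℝ) ^ j)
    (hheavy : ∀ ε : ℝ, 0 < ε → ∀ K₁ : ℕ, ∃ K ≥ K₁, ∃ b : ℤ,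
      ((j : ℝ) + 1 / ((q : ℝ) - 1) - ε) * (r S (q ^ K) : ℝ) <
        ∑ k ∈ Icc 1 K, (r (S ∩ cl b (q ^ k)) (q ^ K) : ℝ)) :
    ∃ b : ℤ, Full S q b j := by
  obtain ⟨b, hb⟩ := heavy_class hq hmu hheavy
  refine ⟨b, ?_⟩
  intro K2 y hy
  by_contra hno
  push Not at hno
  obtain ⟨m, hm⟩ : ∃ m, m = max K2 j := ⟨_, rfl⟩
  have hmK : K2 ≤ m := by rw [hm]; exact le_max_left _ _
  have hmj : j ≤ m := by rw [hm]; exact le_max_right _ _
  have hq2 : (2 : ℝ) ≤ q := by exact_mod_cast hq.two_le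
  have hmiss : ∀ x ∈ S ∩ cl b (q ^ j), ¬ ((q ^ m : ℕ) : ℤ) ∣ x - y := by
    intro x hx hdiv
    apply hno x hx.1
    refine dvd_trans ?_ hdiv
    exact_mod_cast pow_dvd_pow q hmK
  have h1 := miss hq hmj Set.inter_subset_right hy hmiss
  obtain ⟨K, hK, hlt⟩ := hb (max m (q ^ (m - j)))
  have hKm : m ≤ K := le_trans (le_max_left _ _) hK
  obtain ⟨n, rfl⟩ : ∃ n, K = m + n := ⟨K - m, by omega⟩
  have h2 := r_pow_le (S ∩ cl b (q ^ j)) hq m n
  obtain ⟨R1, hR1⟩ : ∃ R1, R1 = r (S ∩ cl b (q ^ j)) (q ^ m) := ⟨_, rfl⟩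
  obtain ⟨R2, hR2⟩ : ∃ R2, R2 = r (S ∩ cl b (q ^ j)) (q ^ (m + n)) := ⟨_, rfl⟩
  rw [← hR1] at h1 h2
  rw [← hR2] at h2 hlt
  have e1 : m + n - j = n + (m - j) := by omega
  rw [e1, pow_add] at hlt
  have h1' : (R1 : ℝ) + 1 ≤ (q : ℝ) ^ (m - j) := by exact_mod_cast h1
  have h2' : (R2 : ℝ) ≤ (q : ℝ) ^ n * R1 := by exact_mod_cast h2
  obtain ⟨A, hA⟩ : ∃ A : ℝ, A = (q : ℝ) ^ n := ⟨_, rfl⟩
  obtain ⟨B, hB⟩ : ∃ B : ℝ, B = (q : ℝ) ^ (m - j) := ⟨_, rfl⟩
  have hApos : 0 < A := by rw [hA]; positivity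
  have hBpos : 0 < B := by rw [hB]; positivity
  have hBle : B ≤ ((max m (q ^ (m - j)) : ℕ) : ℝ) := by
    rw [hB]
    exact_mod_cast le_max_right m (q ^ (m - j))
  rw [← hA, ← hB] at hlt
  rw [← hB] at h1'
  rw [← hA] at h2'
  obtain ⟨D, hD⟩ : ∃ D : ℝ, D = ((max m (q ^ (m - j)) : ℕ) : ℝ) := ⟨_, rfl⟩
  rw [← hD] at hlt hBle
  have hDpos : 0 < D + 1 := by linarith
  have h3 : (1 - 1 / (D + 1)) * (A * B) < A * (B - 1) := by
    refine lt_of_lt_of_le hlt (le_trans h2' ?_)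
    exact mul_le_mul_of_nonneg_left (by linarith) hApos.le
  have h4 : (1 - 1 / (D + 1)) * (A * B) = A * (B - B / (D + 1)) := by
    field_simp
  rw [h4] at h3
  have h5 : B - B / (D + 1) < B - 1 := lt_of_mul_lt_mul_left h3 hApos.le
  have h6 : B / (D + 1) < 1 := by rw [div_lt_one hDpos]; linarith
  linarith

end SO.J_struct_full

namespace SO
export J_struct_full (struct_full)
end SO

namespace SO.J_z_small
open SO



theorem sum_id_real (M : ℕ) : ∑ n ∈ range (M + 1), (n : ℝ) = (M : ℝ) * (M + 1) / 2 := by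
  induction M with
  | zero => simp
  | succ M ih =>
    rw [Finset.sum_range_succ, ih]
    push_cast
    ring

open Classical in
theorem z_small {S : Set ℤ} {a : ℕ → ℤ} {q : ℕ} (hq : q.Prime) {b : ℤ} {j : ℕ}
    (hfull : Full S q b j) (f : ℕ → ℕ)
    (hf : ∀ n, ∀ x ∈ S, ((q ^ (f n) : ℕ) : ℤ) ∣ ∏ l ∈ range n, (x - a l))
    (hstar : ∀ ε : ℝ, 0 < ε → ∃ N₀ : ℕ, ∀ N ≥ N₀,
      (N : ℝ) ^ 2 / 2 * ((j : ℝ) + 1 / ((q : ℝ) - 1) - ε) ≤
        ∑ n ∈ range (N + 1), (f n : ℝ)) {ε : ℝ} (hε : 0 < ε) :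
    ∃ N₀ : ℕ, ∀ n ≥ N₀,
      (((range n).filter (fun i => a i ∉ cl b (q ^ j))).card : ℝ) ≤ ε * n := by
  have hq1 : (0 : ℝ) < (q : ℝ) - 1 := by
    have : (2 : ℝ) ≤ q := by exact_mod_cast hq.two_le
    linarith
  have hi : (0 : ℝ) < 1 / ((q : ℝ) - 1) := by positivity
  obtain ⟨H, hH⟩ : ∃ H : ℝ, H = (j : ℝ) + 1 / ((q : ℝ) - 1) := ⟨_, rfl⟩
  have hH0 : 0 < H := by
    have : (0 : ℝ) ≤ j := Nat.cast_nonneg j
    linarith
  obtain ⟨z, hz⟩ : ∃ z : ℕ → ℝ, z = fun n =>
    (((range n).filter (fun i => a i ∉ cl b (q ^ j))).card : ℝ) := ⟨_, rfl⟩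
  have hz0 : ∀ n, 0 ≤ z n := fun n => by rw [hz]; positivity
  have hzm : Monotone z := by
    intro m n hmn
    rw [hz]
    refine Nat.cast_le.2 (Finset.card_le_card ?_)
    exact Finset.filter_subset_filter _ (Finset.range_subset_range.2 hmn)
  have hfz : ∀ n, (f n : ℝ) ≤ n * H - z n := by
    intro n
    refine (val_le_C hq hfull (range n) a (f n) (hf n)).trans ?_
    have e1 : ∀ l ∈ range n, (if a l ∈ cl b (q ^ j) then (j : ℝ) + 1 / ((q : ℝ) - 1)
        else (j : ℝ) - 1) ≤ H - (if a l ∉ cl b (q ^ j) then 1 else 0) := by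
      intro l _
      by_cases h : a l ∈ cl b (q ^ j)
      · rw [if_pos h, if_neg (not_not.2 h), hH]
        linarith
      · rw [if_neg h, if_pos h, hH]
        linarith
    refine (Finset.sum_le_sum e1).trans (le_of_eq ?_)
    rw [Finset.sum_sub_distrib, Finset.sum_const, Finset.card_range, nsmul_eq_mul,
      ← Finset.sum_filter, Finset.sum_const, nsmul_eq_mul, mul_one, hz]
  obtain ⟨N1, hN1⟩ := hstar (ε / 4) (by linarith)
  refine ⟨max N1 (⌈2 * H / ε⌉₊ + 1), fun n hn => ?_⟩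
  have hn1 : N1 ≤ 2 * n := by
    have := le_trans (le_max_left _ _) hn
    omega
  have hn2 : ⌈2 * H / ε⌉₊ + 1 ≤ n := le_trans (le_max_right _ _) hn
  have hnpos : (0 : ℝ) < n := by
    have : 0 < n := by omega
    exact_mod_cast this
  have hn3 : 2 * H / ε ≤ n := by
    have h1 := Nat.le_ceil (2 * H / ε)
    have h2 : ((⌈2 * H / ε⌉₊ : ℕ) : ℝ) ≤ n := by exact_mod_cast (by omega : ⌈2 * H / ε⌉₊ ≤ n)
    linarith
  have hn4 : 2 * H ≤ n * ε := by
    rwa [div_le_iff₀ hε] at hn3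
  have h1 := hN1 (2 * n) hn1
  rw [← hH] at h1
  have h2 : ∑ i ∈ range (2 * n + 1), (f i : ℝ) ≤
      ((2 * n : ℕ) : ℝ) * (((2 * n : ℕ) : ℝ) + 1) / 2 * H - ∑ i ∈ range (2 * n + 1), z i := by
    refine (Finset.sum_le_sum fun i _ => hfz i).trans (le_of_eq ?_)
    rw [Finset.sum_sub_distrib, ← Finset.sum_mul, sum_id_real]
  have h3 : (n : ℝ) * z n ≤ ∑ i ∈ range (2 * n + 1), z i := by
    calc (n : ℝ) * z n = ∑ i ∈ Ico n (2 * n), z n := by
          rw [Finset.sum_const, Nat.card_Ico, nsmul_eq_mul]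
          congr 2
          omega
      _ ≤ ∑ i ∈ Ico n (2 * n), z i := Finset.sum_le_sum fun i hi => hzm (Finset.mem_Ico.1 hi).1
      _ ≤ ∑ i ∈ range (2 * n + 1), z i := by
          refine Finset.sum_le_sum_of_subset_of_nonneg (fun i hi => ?_) fun i _ _ => hz0 i
          rw [Finset.mem_Ico] at hi
          rw [Finset.mem_range]
          omega
  have h4 : (n : ℝ) * z n ≤ n * (H + ε / 2 * n) := by
    push_cast at h1 h2
    nlinarith
  have h5 : z n ≤ H + ε / 2 * n := le_of_mul_le_mul_left h4 hnpos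
  have h6 : z n ≤ ε * n := by linarith
  rw [hz] at h6
  exact h6

end SO.J_z_small

namespace SO
export J_z_small (z_small)
end SO

namespace SO.J_exists_modulus
open SO



theorem exists_modulus {S : Set ℤ} {δ : ℝ} (h : Dens S δ)
    (hst : ∀ q : ℕ, q.Prime → ∃ (j : ℕ) (b : ℤ), mu S q = 1 / (q : ℝ) ^ j ∧ Full S q b j) :
    ∃ (m : ℕ) (b : ℤ), 0 < m ∧ δ ≤ 1 / m ∧ ∀ q : ℕ, q.Prime →
      mu S q = 1 / (q : ℝ) ^ (padicValNat q m) ∧ Full S q b (padicValNat q m) := by
  choose! j b hjb using hst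
  have hfin : {q : ℕ | q.Prime ∧ 1 ≤ j q}.Finite := by
    by_contra hinf
    have hinf' : {q : ℕ | q.Prime ∧ 1 ≤ j q}.Infinite := hinf
    obtain ⟨N, hN⟩ := exists_pow_lt_of_lt_one h.pos (by norm_num : (1 / 2 : ℝ) < 1)
    obtain ⟨P, hP, hcard⟩ := hinf'.exists_subset_card_eq N
    have h1 := dens_le_prod h P (fun p hp => (hP hp).1)
    have h2 : ∏ p ∈ P, mu S p ≤ ∏ p ∈ P, (1 / 2 : ℝ) := by
      apply Finset.prod_le_prod
      · intro p hp
        rw [(hjb p (hP hp).1).1]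
        positivity
      · intro p hp
        rw [(hjb p (hP hp).1).1]
        have hp2 : (2 : ℝ) ≤ p := by exact_mod_cast (hP hp).1.two_le
        have h3 : (2 : ℝ) ≤ (p : ℝ) ^ (j p) := by
          calc (2 : ℝ) ≤ p := hp2
            _ = (p : ℝ) ^ 1 := (pow_one _).symm
            _ ≤ (p : ℝ) ^ (j p) := pow_le_pow_right₀ (by linarith) (hP hp).2
        exact one_div_le_one_div_of_le (by norm_num) h3
    rw [Finset.prod_const, hcard] at h2
    linarith
  set P : Finset ℕ := hfin.toFinset with hPd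
  have hPm : ∀ q, q ∈ P ↔ (q.Prime ∧ 1 ≤ j q) := by
    intro q; rw [hPd, Set.Finite.mem_toFinset]; rfl
  have hPp : ∀ q ∈ P, q.Prime := fun q hq => ((hPm q).1 hq).1
  have hm0 : 0 < ∏ q ∈ P, q ^ j q := Finset.prod_pos (fun q hq => pow_pos (hPp q hq).pos _)
  have hval : ∀ q : ℕ, q.Prime → padicValNat q (∏ q ∈ P, q ^ j q) = j q := by
    intro q hq
    rw [← Nat.factorization_def _ hq, Nat.factorization_prod
      (fun x hx => (pow_pos (hPp x hx).pos _).ne'), Finsupp.finsetSum_apply]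
    have h1 : ∀ x ∈ P, (x ^ j x).factorization q = if x = q then j x else 0 := by
      intro x hx
      rw [(hPp x hx).factorization_pow, Finsupp.single_apply]
    rw [Finset.sum_congr rfl h1, Finset.sum_ite_eq']
    split_ifs with hqP
    · rfl
    · have : ¬ (1 ≤ j q) := fun h' => hqP ((hPm q).2 ⟨hq, h'⟩)
      omega
  obtain ⟨c, hc⟩ := Ideal.exists_forall_sub_mem_ideal
    (I := fun q : {q // q ∈ P} => Ideal.span {(((q : ℕ) : ℤ)) ^ (j q)}) (by
      intro q q' hqq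
      show IsCoprime (Ideal.span _) (Ideal.span _)
      rw [Ideal.isCoprime_span_singleton_iff]
      apply IsCoprime.pow
      rw [Nat.isCoprime_iff_coprime]
      exact (Nat.coprime_primes (hPp _ q.2) (hPp _ q'.2)).2 (fun h' => hqq (Subtype.ext h')))
    (fun q => b q)
  refine ⟨∏ q ∈ P, q ^ j q, c, hm0, ?_, ?_⟩
  · refine (dens_le_prod h P hPp).trans (le_of_eq ?_)
    rw [Finset.prod_congr rfl (fun q hq => (hjb q (hPp q hq)).1)]
    push_cast
    rw [Finset.prod_div_distrib, Finset.prod_const_one]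
  · intro q hq
    rw [hval q hq]
    refine ⟨(hjb q hq).1, ?_⟩
    intro K y hy
    apply (hjb q hq).2 K y
    by_cases hqP : q ∈ P
    · have h1 := hc ⟨q, hqP⟩
      rw [Ideal.mem_span_singleton] at h1
      have h2 : ((q ^ j q : ℕ) : ℤ) ∣ y - c := hy
      show ((q ^ j q : ℕ) : ℤ) ∣ y - b q
      have h3 : ((q ^ j q : ℕ) : ℤ) ∣ c - b q := by
        push_cast
        exact h1
      have := dvd_add h2 h3
      rwa [sub_add_sub_cancel] at this
    · have h0 : j q = 0 := by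
        have : ¬ (1 ≤ j q) := fun h' => hqP ((hPm q).2 ⟨hq, h'⟩)
        omega
      show ((q ^ j q : ℕ) : ℤ) ∣ y - b q
      rw [h0]
      simp

end SO.J_exists_modulus

namespace SO
export J_exists_modulus (exists_modulus)
end SO

namespace SO.J_val_full
open SO



theorem V_succ (x : ℕ → ℤ) (n : ℕ) :
    V x (n + 1) = V x n * ∏ i ∈ range (n + 1), (x (n + 1) - x i) := by
  unfold V
  rw [prod_range_succ _ (n + 1)]

theorem V_cast (n : ℕ) : V (fun i => (i : ℤ)) n = ((Nat.superFactorial n : ℕ) : ℤ) := by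
  induction n with
  | zero => simp [V]
  | succ n ih =>
    rw [V_succ, ih, Nat.superFactorial_succ]
    have : ∏ i ∈ range (n + 1), (((n + 1 : ℕ) : ℤ) - (i : ℤ)) =
        (((n + 1).factorial : ℕ) : ℤ) := by
      rw [← Finset.prod_range_add_one_eq_factorial, ← Finset.prod_range_reflect, Nat.cast_prod]
      apply Finset.prod_congr rfl
      intro j hj
      rw [mem_range] at hj
      omega
    rw [this]
    push_cast
    ring

theorem sf_ne (n : ℕ) : Nat.superFactorial n ≠ 0 := by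
  induction n with
  | zero => simp
  | succ n ih =>
    rw [Nat.superFactorial_succ]
    exact mul_ne_zero (Nat.factorial_ne_zero _) ih

theorem prod_modeq (s : Finset ℕ) (f g : ℕ → ℤ) (m : ℤ) (h : ∀ i ∈ s, f i ≡ g i [ZMOD m]) :
    ∏ i ∈ s, f i ≡ ∏ i ∈ s, g i [ZMOD m] := by
  classical
  induction s using Finset.induction_on with
  | empty => simp [Int.ModEq]
  | insert a s ha ih =>
    rw [prod_insert ha, prod_insert ha]
    exact (h a (mem_insert_self a s)).mul (ih fun i hi => h i (mem_insert_of_mem hi))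

theorem V_modeq (x y : ℕ → ℤ) (n : ℕ) (m : ℤ) (h : ∀ i, x i ≡ y i [ZMOD m]) :
    V x n ≡ V y n [ZMOD m] := by
  unfold V
  apply prod_modeq
  intro j _
  apply prod_modeq
  intro i _
  exact (h j).sub (h i)

theorem sf_dvd_V (x : ℕ → ℤ) (m : ℕ) : ((Nat.superFactorial m : ℕ) : ℤ) ∣ V x m := by
  have h := Matrix.superFactorial_dvd_vandermonde_det (n := m) (fun k : Fin (m + 1) => x k)
  rw [Matrix.det_vandermonde] at h
  have e : ∏ i : Fin (m + 1), ∏ j ∈ Ioi i, (x j - x i) = V x m := by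
    unfold V
    rw [Finset.prod_range]
    rw [Finset.prod_comm' (s' := fun j : Fin (m + 1) => Iio j) (t' := univ)]
    · apply prod_congr rfl
      intro j _
      rw [← Nat.Iio_eq_range, ← Fin.map_valEmbedding_Iio, prod_map]
      rfl
    · intro i j
      simp
  rw [e] at h
  exact h

/-- skipping `i` -/
def sk (i k : ℕ) : ℕ := if k < i then k else k + 1

theorem sk_inj (i : ℕ) : Function.Injective (sk i) := by
  intro k l h
  unfold sk at h
  split_ifs at h <;> omega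

theorem sk_image1 {m i : ℕ} (hi : i ≤ m + 1) :
    (range (m + 1 + 1)).erase i = (range (m + 1)).image (sk i) := by
  ext y
  simp only [mem_erase, mem_range, mem_image]
  constructor
  · rintro ⟨h1, h2⟩
    by_cases hy : y < i
    · exact ⟨y, by omega, by unfold sk; rw [if_pos hy]⟩
    · exact ⟨y - 1, by omega, by unfold sk; rw [if_neg (by omega)]; omega⟩
  · rintro ⟨k, hk, rfl⟩
    unfold sk
    split_ifs <;> omega

theorem sk_image2 (i k : ℕ) : (range (sk i k)).erase i = (range k).image (sk i) := by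
  ext y
  simp only [mem_erase, mem_range, mem_image]
  constructor
  · rintro ⟨h1, h2⟩
    unfold sk at h2
    by_cases hy : y < i
    · refine ⟨y, ?_, by unfold sk; rw [if_pos hy]⟩
      split_ifs at h2 <;> omega
    · refine ⟨y - 1, ?_, by unfold sk; rw [if_neg (by omega)]; omega⟩
      split_ifs at h2 <;> omega
  · rintro ⟨l, hl, rfl⟩
    unfold sk
    split_ifs <;> omega

theorem W_eq (a : ℕ → ℤ) {m i : ℕ} (hi : i ≤ m + 1) :
    ∏ j ∈ (range (m + 1 + 1)).erase i, ∏ l ∈ (range j).erase i, (a j - a l) =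
      V (fun k => a (sk i k)) m := by
  unfold V
  rw [sk_image1 hi, prod_image (fun x _ y _ h => sk_inj i h)]
  apply prod_congr rfl
  intro k _
  rw [sk_image2, prod_image (fun x _ y _ h => sk_inj i h)]

theorem val_full {S : Set ℤ} {a : ℕ → ℤ} (hinf : S.Infinite) (h : IsSim S a) {p : ℕ}
    (hp : p.Prime) {b : ℤ} (hfull : Full S p b 0) {n i : ℕ} (hi : i ≤ n) :
    padicValNat p (G a n i).natAbs ≤ padicValNat p n.factorial := by
  haveI : Fact p.Prime := ⟨hp⟩
  rcases n with _ | m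
  · have : i = 0 := by omega
    subst this
    simp [G]
  set v := padicValNat p (Nat.superFactorial (m + 1)) with hv
  have hx : ∀ k : ℕ, ∃ x ∈ S, ((p ^ (v + 1) : ℕ) : ℤ) ∣ x - (k : ℤ) := by
    intro k
    apply hfull (v + 1) (k : ℤ)
    show ((p ^ 0 : ℕ) : ℤ) ∣ _
    simp
  choose x hxS hxd using hx
  have h1 : V x (m + 1) ≡ V (fun i => (i : ℤ)) (m + 1) [ZMOD ((p ^ (v + 1) : ℕ) : ℤ)] := by
    apply V_modeq
    intro i
    exact ((Int.modEq_iff_dvd).2 (hxd i)).symm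
  have h2 : ¬ ((p ^ (v + 1) : ℕ) : ℤ) ∣ V a (m + 1) := by
    intro hd
    have h3 := hd.trans (vdiv h (m + 1) x (fun i _ => hxS i))
    have h4 : ((p ^ (v + 1) : ℕ) : ℤ) ∣ V (fun i => (i : ℤ)) (m + 1) := by
      have := dvd_add h1.dvd h3
      rwa [sub_add_cancel] at this
    rw [V_cast] at h4
    exact pow_succ_padicValNat_not_dvd (sf_ne _) (Int.natCast_dvd_natCast.1 h4)
  obtain ⟨s, _, hsplit⟩ := vand_split a hi
  have h5 := hsplit a
  rw [W_eq a hi] at h5
  have hW := sf_dvd_V (fun k => a (sk i k)) m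
  by_contra hcon
  push Not at hcon
  have h6 : ((p ^ (padicValNat p (m + 1).factorial + 1) : ℕ) : ℤ) ∣ G a (m + 1) i := by
    rw [Int.natCast_dvd]
    exact (pow_dvd_pow p hcon).trans pow_padicValNat_dvd
  have h7 : ((p ^ (padicValNat p (Nat.superFactorial m)) : ℕ) : ℤ) ∣
      ((Nat.superFactorial m : ℕ) : ℤ) := Int.natCast_dvd_natCast.2 pow_padicValNat_dvd
  have hv' : v = padicValNat p (m + 1).factorial + padicValNat p (Nat.superFactorial m) := by
    rw [hv, Nat.superFactorial_succ, padicValNat.mul (Nat.factorial_ne_zero _) (sf_ne _)]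
  apply h2
  rw [h5]
  have h8 : ((p ^ (v + 1) : ℕ) : ℤ) =
      ((p ^ (padicValNat p (m + 1).factorial + 1) : ℕ) : ℤ) *
        ((p ^ (padicValNat p (Nat.superFactorial m)) : ℕ) : ℤ) := by
    rw [← Nat.cast_mul, ← pow_add, hv']
    congr 2
    ring
  rw [h8]
  exact mul_dvd_mul (h6.mul_left s) (h7.trans hW)

end SO.J_val_full

namespace SO
export J_val_full (val_full)
end SO

namespace SO.J_G_upper
open SO



theorem G_upper {S : Set ℤ} {a : ℕ → ℤ} (hinf : S.Infinite) (h : IsSim S a)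
    {m : ℕ} {b : ℤ} (hm : 0 < m)
    (hst : ∀ q : ℕ, q.Prime → mu S q = 1 / (q : ℝ) ^ (padicValNat q m) ∧
      Full S q b (padicValNat q m)) :
    ∃ C : ℝ, 1 ≤ C ∧ ∀ n i : ℕ, i ≤ n → |(G a n i : ℝ)| ≤ n.factorial * C ^ n := by
  have hm1 : (1 : ℝ) ≤ m := by exact_mod_cast hm
  refine ⟨(m : ℝ) ^ 2, one_le_pow₀ hm1, ?_⟩
  intro n i hi
  have hinj := sim_injective hinf h
  have hG0 : G a n i ≠ 0 := by
    unfold G
    rw [prod_ne_zero_iff]
    intro l hl
    rw [mem_erase] at hl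
    rw [sub_ne_zero]
    intro he
    exact hl.1 (hinj he).symm
  have hg0 : (G a n i).natAbs ≠ 0 := by
    rwa [Ne, Int.natAbs_eq_zero]
  have hN0 : n.factorial * (m ^ 2) ^ n ≠ 0 := by positivity
  have hdvd : (G a n i).natAbs ∣ n.factorial * (m ^ 2) ^ n := by
    rw [← Nat.factorization_prime_le_iff_dvd hg0 hN0]
    intro q hq
    haveI : Fact q.Prime := ⟨hq⟩
    rw [Nat.factorization_def _ hq, Nat.factorization_def _ hq]
    rw [padicValNat.mul (Nat.factorial_ne_zero n) (by positivity), padicValNat.pow, padicValNat.pow]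
    obtain ⟨hmu, hfull⟩ := hst q hq
    rcases Nat.eq_zero_or_pos (padicValNat q m) with h0 | h0
    · rw [h0] at hfull
      have := val_full hinf h hq hfull hi
      omega
    · have hq1 : (1 : ℝ) < q := by exact_mod_cast hq.one_lt
      have hq2 : (2 : ℝ) ≤ q := by exact_mod_cast hq.two_le
      have hmupos : 0 < mu S q := by
        rw [hmu]; positivity
      set v := padicValNat q (G a n i).natAbs with hv
      have hvdvd : ((q ^ v : ℕ) : ℤ) ∣ G a n i := by
        rw [← Int.dvd_natAbs, Int.natCast_dvd_natCast]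
        exact pow_padicValNat_dvd
      have hval := val_le_B hq hmupos ((range (n + 1)).erase i) a v (by
        intro x hx
        exact hvdvd.trans (gdvd hinf h hi hx))
      have hcard : ((range (n + 1)).erase i).card = n := by
        rw [card_erase_of_mem (by rw [mem_range]; omega), card_range]
        omega
      rw [hcard] at hval
      have hlog : Real.logb q (1 / mu S q) = (padicValNat q m : ℝ) := by
        rw [hmu, one_div_one_div, Real.logb_pow, Real.logb_self_eq_one hq1, mul_one]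
      rw [hlog] at hval
      have hq3 : 1 / ((q : ℝ) - 1) ≤ 1 := by
        rw [div_le_one (by linarith)]
        linarith
      have hj1 : (1 : ℝ) ≤ (padicValNat q m : ℝ) := by exact_mod_cast h0
      have hfin : (v : ℝ) ≤ n * (2 * (padicValNat q m : ℝ)) := by
        refine hval.trans ?_
        apply mul_le_mul_of_nonneg_left _ (Nat.cast_nonneg n)
        linarith
      have hfin' : v ≤ n * (2 * padicValNat q m) := by exact_mod_cast hfin
      omega
  have hle := Nat.le_of_dvd (Nat.pos_of_ne_zero hN0) hdvd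
  have habs : |(G a n i : ℝ)| = ((G a n i).natAbs : ℝ) := by
    rw [← Int.cast_abs, Int.abs_eq_natAbs, Int.cast_natCast]
  rw [habs]
  exact_mod_cast hle

end SO.J_G_upper

namespace SO
export J_G_upper (G_upper)
end SO

namespace SO.J_diam_of_G
open SO



theorem fact_le_prod (d : ℕ → ℤ) : ∀ (c : ℕ) (T : Finset ℕ), T.card = c → (∀ l ∈ T, 0 < d l) →
    Set.InjOn d T → ((c.factorial : ℕ) : ℤ) ≤ ∏ l ∈ T, d l := by
  intro c
  induction c with
  | zero =>
    intro T h _ _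
    have : T = ∅ := card_eq_zero.mp h
    subst this
    simp
  | succ c ih =>
    intro T h hpos hinj
    have hne : T.Nonempty := card_pos.mp (by omega)
    obtain ⟨m, hm, hmax⟩ := T.exists_max_image d hne
    have hc : ((c + 1 : ℕ) : ℤ) ≤ d m := by
      have h1 : T.image d ⊆ Finset.Icc 1 (d m) := by
        intro v hv
        rw [mem_image] at hv
        obtain ⟨a, ha, rfl⟩ := hv
        rw [Finset.mem_Icc]
        exact ⟨hpos a ha, hmax a ha⟩
      have h2 := card_le_card h1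
      rw [card_image_of_injOn hinj, Int.card_Icc] at h2
      omega
    have ih' := ih (T.erase m) (by rw [card_erase_of_mem hm]; omega)
      (fun l hl => hpos l (mem_of_mem_erase hl))
      (hinj.mono (by intro x hx; exact mem_of_mem_erase (mem_coe.1 hx)))
    rw [← mul_prod_erase T d hm, Nat.factorial_succ, Nat.cast_mul]
    exact mul_le_mul hc ih' (by positivity) (le_of_lt (hpos m hm))

theorem core {n k : ℕ} {C D : ℝ} (hn : 1 ≤ n) (hk : k ≤ n - 1) (hC : 1 ≤ C) (hD : (n:ℝ) ≤ D)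
    (h1 : D * ((D / 2) ^ k * ((n - 1 - k).factorial : ℝ)) ≤ n.factorial * C ^ n)
    (h2 : D * ((k.factorial : ℝ) * (D / 2) ^ (n - 1 - k)) ≤ n.factorial * C ^ n) :
    D ≤ 4 * C ^ 2 * n := by
  have hn1 : (1:ℝ) ≤ n := by exact_mod_cast hn
  have hD0 : 0 < D := by linarith
  have hnf : (0:ℝ) < n.factorial := by exact_mod_cast Nat.factorial_pos n
  have hprod := mul_le_mul h1 h2 (by positivity) (by positivity)
  have hpow : (D / 2) ^ k * (D / 2) ^ (n - 1 - k) = (D / 2) ^ (n - 1) := by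
    rw [← pow_add]; congr 1; omega
  have hchoose : ((n - 1).factorial : ℝ) ≤ 2 ^ (n - 1) * ((k.factorial : ℝ) * ((n - 1 - k).factorial : ℝ)) := by
    have h := Nat.choose_mul_factorial_mul_factorial hk
    have h3 : (n - 1).choose k ≤ 2 ^ (n - 1) := by
      rw [← Nat.sum_range_choose]
      exact Finset.single_le_sum (f := fun m => (n - 1).choose m) (fun _ _ => Nat.zero_le _)
        (by rw [mem_range]; omega)
    have h4 : (n - 1).factorial ≤ 2 ^ (n - 1) * (k.factorial * (n - 1 - k).factorial) := by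
      rw [← h, mul_assoc]
      exact Nat.mul_le_mul_right _ h3
    exact_mod_cast h4
  have hfac : (n.factorial : ℝ) = n * (n - 1).factorial := by
    have : n.factorial = n * (n - 1).factorial := (Nat.mul_factorial_pred (by omega)).symm
    exact_mod_cast this
  -- (D/4)^n * n! ≤ (n! * C^n)^2
  have h5 : (D / 4) ^ n * n.factorial ≤ n.factorial * C ^ n * (n.factorial * C ^ n) := by
    refine le_trans ?_ hprod
    have e1 : D * ((D / 2) ^ k * ((n - 1 - k).factorial : ℝ)) * (D * ((k.factorial : ℝ) * (D / 2) ^ (n - 1 - k)))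
        = D * D * ((D / 2) ^ (n - 1)) * ((k.factorial : ℝ) * ((n - 1 - k).factorial : ℝ)) := by
      rw [← hpow]; ring
    rw [e1]
    have e2 : (D / 2) ^ (n - 1) = (D / 4) ^ (n - 1) * 2 ^ (n - 1) := by
      rw [← mul_pow]; congr 1; ring
    rw [e2]
    have e3 : (D / 4) ^ n = (D / 4) ^ (n - 1) * (D / 4) := by
      rw [← pow_succ]; congr 1; omega
    rw [e3]
    calc (D / 4) ^ (n - 1) * (D / 4) * n.factorial = (D / 4) ^ (n - 1) * ((D / 4) * (n * (n - 1).factorial)) := by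
          rw [hfac]; ring
      _ ≤ (D / 4) ^ (n - 1) * (D * (D * (n - 1).factorial)) := by
          apply mul_le_mul_of_nonneg_left _ (by positivity)
          apply mul_le_mul (by linarith) _ (by positivity) hD0.le
          exact mul_le_mul_of_nonneg_right hD (by positivity)
      _ ≤ (D / 4) ^ (n - 1) * (D * (D * (2 ^ (n - 1) * ((k.factorial : ℝ) * ((n - 1 - k).factorial : ℝ))))) := by
          gcongr
      _ = _ := by ring
  have h6 : (D / 4) ^ n ≤ (n * C ^ 2) ^ n := by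
    have h7 : (D / 4) ^ n ≤ n.factorial * (C ^ n * C ^ n) := by
      have : (D / 4) ^ n * n.factorial ≤ (n.factorial * (C ^ n * C ^ n)) * n.factorial := by
        calc _ ≤ _ := h5
          _ = _ := by ring
      exact le_of_mul_le_mul_right this hnf
    refine h7.trans ?_
    rw [mul_pow, ← pow_mul, mul_comm 2 n, pow_mul, sq]
    apply mul_le_mul_of_nonneg_right _ (by positivity)
    have := Nat.factorial_le_pow n
    exact_mod_cast this
  have h8 : D / 4 ≤ n * C ^ 2 := le_of_pow_le_pow_left₀ (by omega) (by positivity) h6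
  linarith

theorem diam_of_G {y : ℕ → ℤ} (hy : Function.Injective y) {n : ℕ} {C : ℝ} (hC : 1 ≤ C)
    (hG : ∀ i ≤ n, |(G y n i : ℝ)| ≤ n.factorial * C ^ n) {i l : ℕ} (hi : i ≤ n)
    (hl : l ≤ n) : |(y i : ℝ) - y l| ≤ 4 * C ^ 2 * n := by
  rcases Nat.eq_zero_or_pos n with rfl | hn
  · have h1 : i = 0 := by omega
    have h2 : l = 0 := by omega
    subst h1 h2
    simp
  obtain ⟨s, hs, hsmax⟩ := (range (n+1)).exists_max_image y ⟨0, by simp⟩
  obtain ⟨t, ht, htmin⟩ := (range (n+1)).exists_min_image y ⟨0, by simp⟩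
  have hDn : (n:ℤ) ≤ y s - y t := by
    have h1 : (range (n+1)).image y ⊆ Finset.Icc (y t) (y s) := by
      intro v hv
      rw [mem_image] at hv
      obtain ⟨a, ha, rfl⟩ := hv
      rw [Finset.mem_Icc]
      exact ⟨htmin a ha, hsmax a ha⟩
    have h2 := card_le_card h1
    rw [card_image_of_injective _ hy, Int.card_Icc, card_range] at h2
    omega
  have hst : s ≠ t := by
    rintro rfl
    simp at hDn
    omega
  have hDn' : (n:ℝ) ≤ (y s : ℝ) - y t := by exact_mod_cast hDn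
  have hils : ∀ a ≤ n, (y t : ℝ) ≤ y a ∧ (y a : ℝ) ≤ y s := by
    intro a ha
    exact ⟨by exact_mod_cast htmin a (by rw [mem_range]; omega),
      by exact_mod_cast hsmax a (by rw [mem_range]; omega)⟩
  have hb : |(y i : ℝ) - y l| ≤ (y s : ℝ) - y t := by
    rw [abs_le]
    have h1 := hils i hi
    have h2 := hils l hl
    constructor <;> linarith [h1.1, h1.2, h2.1, h2.2]
  refine hb.trans ?_
  -- the middle set
  set M := ((range (n + 1)).erase s).erase t with hM
  have htM : t ∈ (range (n + 1)).erase s := mem_erase.2 ⟨hst.symm, ht⟩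
  have hsM : s ∈ (range (n + 1)).erase t := mem_erase.2 ⟨hst, hs⟩
  have hM' : ((range (n + 1)).erase t).erase s = M := by rw [hM, erase_right_comm]
  have hMcard : M.card = n - 1 := by
    rw [hM, card_erase_of_mem htM, card_erase_of_mem hs, card_range]
    omega
  have hMmem : ∀ a ∈ M, a ≠ s ∧ a ≠ t ∧ y t < y a ∧ y a < y s := by
    intro a ha
    rw [hM, mem_erase, mem_erase] at ha
    have h1 := htmin a ha.2.2
    have h2 := hsmax a ha.2.2
    have h3 : y a ≠ y t := fun h => ha.1 (hy h)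
    have h4 : y a ≠ y s := fun h => ha.2.1 (hy h)
    exact ⟨ha.2.1, ha.1, lt_of_le_of_ne h1 (Ne.symm h3), lt_of_le_of_ne h2 h4⟩
  have hGs : ((y s : ℝ) - y t) * ∏ l ∈ M, ((y s : ℝ) - y l) ≤ n.factorial * C ^ n := by
    have h := hG s (by rw [mem_range] at hs; omega)
    refine le_trans (le_of_eq ?_) ((le_abs_self _).trans h)
    unfold G
    rw [← mul_prod_erase _ _ htM]
    push_cast
    rfl
  have hGt : ((y s : ℝ) - y t) * ∏ l ∈ M, ((y l : ℝ) - y t) ≤ n.factorial * C ^ n := by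
    have h := hG t (by rw [mem_range] at ht; omega)
    refine le_trans (le_of_eq ?_) h
    unfold G
    rw [← mul_prod_erase _ _ hsM, hM']
    push_cast
    rw [abs_mul, abs_prod, abs_sub_comm, abs_of_nonneg (by linarith [(hils s (by rw [mem_range] at hs; omega)).1] : (0:ℝ) ≤ (y s : ℝ) - y t)]
    congr 1
    apply prod_congr rfl
    intro a ha
    have h1 : (y t : ℝ) < y a := by exact_mod_cast (hMmem a ha).2.2.1
    rw [abs_sub_comm, abs_of_pos (by linarith)]
  classical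
  set A := M.filter (fun l => ((y s : ℝ) - y t) / 2 ≤ (y s : ℝ) - y l) with hA
  set B := M.filter (fun l => ¬ ((y s : ℝ) - y t) / 2 ≤ (y s : ℝ) - y l) with hB
  have hAB : A.card + B.card = n - 1 := by
    rw [← hMcard, hA, hB, card_filter_add_card_filter_not]
  have hBcard : n - 1 - A.card = B.card := by omega
  have hD2 : 0 ≤ ((y s : ℝ) - y t) / 2 := by
    have : (0:ℝ) ≤ n := by positivity
    linarith
  have hD0 : 0 ≤ ((y s : ℝ) - y t) := by linarith
  apply core (n := n) (k := A.card) hn (by omega) hC hDn'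
  · refine le_trans ?_ hGs
    apply mul_le_mul_of_nonneg_left _ hD0
    rw [← prod_filter_mul_prod_filter_not M (fun l => ((y s : ℝ) - y t) / 2 ≤ (y s : ℝ) - y l), hBcard]
    apply mul_le_mul
    · rw [← prod_const]
      apply prod_le_prod
      · intro _ _; exact hD2
      · intro a ha
        exact (mem_filter.1 ha).2
    · have := fact_le_prod (fun l => y s - y l) B.card B rfl
        (fun a ha => by have := (hMmem a (mem_filter.1 ha).1).2.2.2; show 0 < y s - y a; omega)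
        (fun a _ b _ h => hy (by have h' : y s - y a = y s - y b := h; omega))
      have h2 : ((B.card.factorial : ℤ) : ℝ) ≤ ((∏ l ∈ B, (y s - y l) : ℤ) : ℝ) := by exact_mod_cast this
      push_cast at h2
      exact h2
    · positivity
    · apply prod_nonneg
      intro a ha
      exact hD2.trans (mem_filter.1 ha).2
  · refine le_trans ?_ hGt
    apply mul_le_mul_of_nonneg_left _ hD0
    rw [← prod_filter_mul_prod_filter_not M (fun l => ((y s : ℝ) - y t) / 2 ≤ (y s : ℝ) - y l), hBcard]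
    apply mul_le_mul
    · have := fact_le_prod (fun l => y l - y t) A.card A rfl
        (fun a ha => by have := (hMmem a (mem_filter.1 ha).1).2.2.1; show 0 < y a - y t; omega)
        (fun a _ b _ h => hy (by have h' : y a - y t = y b - y t := h; omega))
      have h2 : ((A.card.factorial : ℤ) : ℝ) ≤ ((∏ l ∈ A, (y l - y t) : ℤ) : ℝ) := by exact_mod_cast this
      push_cast at h2
      exact h2
    · rw [← prod_const]
      apply prod_le_prod
      · intro _ _; exact hD2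
      · intro a ha
        have := (mem_filter.1 ha).2
        push Not at this
        linarith
    · positivity
    · apply prod_nonneg
      intro a ha
      have h1 : (y t : ℝ) < y a := by exact_mod_cast (hMmem a (mem_filter.1 ha).1).2.2.1
      linarith

end SO.J_diam_of_G

namespace SO
export J_diam_of_G (diam_of_G)
end SO

namespace SO.J_dist_sum
open SO



theorem aux {α K : ℝ} (hα : 0 < α) : ∀ n : ℕ, ∀ (d : ℕ → ℕ) (I : Finset ℕ), I.card = n →
      (∀ l ∈ I, 1 ≤ d l) →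
      (∀ T : ℕ, (((I.filter (fun l => d l ≤ T)).card : ℕ) : ℝ) ≤ α * (2 * T + 1) + K) →
      ∑ k ∈ range n, Real.log (max 1 (((k : ℝ) + 1 - K) / (2 * α) - 1 / 2)) ≤
        ∑ l ∈ I, Real.log (d l) := by
  intro n
  induction n with
  | zero =>
    intro d I hI _ _
    rw [Finset.card_eq_zero.1 hI]
    simp
  | succ n ih =>
    intro d I hI h1 hc
    have hne : I.Nonempty := by
      rw [← Finset.card_pos]; omega
    obtain ⟨l0, hl0, hmax⟩ := Finset.exists_max_image I d hne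
    have hfil : I.filter (fun l => d l ≤ d l0) = I := Finset.filter_true_of_mem hmax
    have h2 := hc (d l0)
    rw [hfil, hI] at h2
    have h3 : ((n : ℝ) + 1 - K) / (2 * α) - 1 / 2 ≤ d l0 := by
      have h4 : ((n : ℝ) + 1 - K) / (2 * α) ≤ d l0 + 1 / 2 := by
        rw [div_le_iff₀ (by positivity)]
        push_cast at h2
        nlinarith
      linarith
    have h4 : (1 : ℝ) ≤ d l0 := by exact_mod_cast h1 l0 hl0
    have h5 : Real.log (max 1 (((n : ℝ) + 1 - K) / (2 * α) - 1 / 2)) ≤ Real.log (d l0) :=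
      Real.log_le_log (lt_of_lt_of_le one_pos (le_max_left _ _)) (max_le h4 h3)
    have h6 := ih d (I.erase l0) (by rw [Finset.card_erase_of_mem hl0, hI]; rfl)
      (fun l hl => h1 l (Finset.mem_of_mem_erase hl))
      (fun T => le_trans (by
        exact_mod_cast Finset.card_le_card (Finset.filter_subset_filter _ (Finset.erase_subset _ _)))
        (hc T))
    rw [Finset.sum_range_succ, ← Finset.sum_erase_add I _ hl0]
    exact add_le_add h6 h5

theorem log_fact (n : ℕ) : Real.log n.factorial = ∑ k ∈ range n, Real.log ((k : ℝ) + 1) := by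
  induction n with
  | zero => simp
  | succ n ih =>
    rw [Finset.sum_range_succ, ← ih, Nat.factorial_succ]
    push_cast
    rw [Real.log_mul (by positivity) (by positivity)]
    ring

theorem lim_aux {α K : ℝ} (hα : 0 < α) : Filter.Tendsto (fun k : ℕ =>
    Real.log (max 1 (((k : ℝ) + 1 - K) / (2 * α) - 1 / 2)) - Real.log ((k : ℝ) + 1))
    Filter.atTop (nhds (Real.log (1 / (2 * α)))) := by
  have h0 : Filter.Tendsto (fun k : ℕ => 1 / ((k : ℝ) + 1)) Filter.atTop (nhds 0) :=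
    tendsto_one_div_add_atTop_nhds_zero_nat
  have h1 : Filter.Tendsto (fun k : ℕ => max (1 / ((k : ℝ) + 1))
      (1 / (2 * α) - (K / (2 * α) + 1 / 2) * (1 / ((k : ℝ) + 1)))) Filter.atTop
      (nhds (max 0 (1 / (2 * α) - (K / (2 * α) + 1 / 2) * 0))) :=
    h0.max (tendsto_const_nhds.sub (h0.const_mul _))
  have h2 : max 0 (1 / (2 * α) - (K / (2 * α) + 1 / 2) * 0) = 1 / (2 * α) := by
    rw [mul_zero, sub_zero]
    exact max_eq_right (by positivity)
  rw [h2] at h1
  have h3 := ((Real.continuousAt_log (show 1 / (2 * α) ≠ 0 by positivity)).tendsto).comp h1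
  refine h3.congr (fun k => ?_)
  have hk : (0 : ℝ) < (k : ℝ) + 1 := by positivity
  simp only [Function.comp]
  rw [← Real.log_div (ne_of_gt (lt_of_lt_of_le one_pos (le_max_left _ _))) hk.ne',
    ← max_div_div_right hk.le]
  congr 2
  field_simp
  ring

theorem dist_sum {α K : ℝ} (hα : 0 < α) (hK : 0 ≤ K) {ε : ℝ} (hε : 0 < ε) :
    ∃ N₀ : ℕ, ∀ n ≥ N₀, ∀ (d : ℕ → ℕ) (I : Finset ℕ), I.card = n → (∀ l ∈ I, 1 ≤ d l) →
      (∀ T : ℕ, (((I.filter (fun l => d l ≤ T)).card : ℕ) : ℝ) ≤ α * (2 * T + 1) + K) →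
      Real.log n.factorial + n * (Real.log (1 / (2 * α)) - ε) ≤ ∑ l ∈ I, Real.log (d l) := by
  have h1 := (lim_aux (K := K) hα).sub_const (Real.log (1 / (2 * α)) - ε)
  have h2 := h1.cesaro
  have h3 : Real.log (1 / (2 * α)) - (Real.log (1 / (2 * α)) - ε) = ε := by ring
  rw [h3] at h2
  obtain ⟨N₀, hN₀⟩ := Filter.eventually_atTop.1 ((h2.eventually (lt_mem_nhds hε)).and
    (Filter.eventually_gt_atTop 0))
  refine ⟨N₀, fun n hn d I hI h4 h5 => ?_⟩
  obtain ⟨h6, h7⟩ := hN₀ n hn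
  have hn0 : (0 : ℝ) < n := by exact_mod_cast h7
  have h8 := (mul_pos_iff_of_pos_left (inv_pos.2 hn0)).1 h6
  rw [Finset.sum_sub_distrib, Finset.sum_sub_distrib, ← log_fact, Finset.sum_const,
    Finset.card_range, nsmul_eq_mul] at h8
  have h9 := aux (K := K) hα n d I hI h4 h5
  linarith

end SO.J_dist_sum

namespace SO
export J_dist_sum (dist_sum)
end SO

namespace SO.J_G_lower
open SO



theorem G_lower {S : Set ℤ} {δ : ℝ} (h : Dens S δ) {ε : ℝ} (hε : 0 < ε) :
    ∃ N₀ : ℕ, ∀ n ≥ N₀, ∀ x : ℕ → ℤ, (∀ i, x i ∈ S) → Function.Injective x →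
      ∀ i ≤ n, Real.log n.factorial + n * (Real.log (1 / (2 * δ)) - ε) ≤
        Real.log |(G x n i : ℝ)| := by
  have hδ := h.pos
  obtain ⟨α, hα⟩ : ∃ α : ℝ, α = δ * Real.exp (ε / 2) := ⟨_, rfl⟩
  have hα0 : 0 < α := by rw [hα]; positivity
  have hexp : 1 < Real.exp (ε / 2) := by
    rw [Real.one_lt_exp_iff]; linarith
  have hε' : 0 < α - δ := by
    rw [hα]; nlinarith
  obtain ⟨K, hK, hup⟩ := h.upper (α - δ) hε'
  have hlog : Real.log (1 / (2 * α)) = Real.log (1 / (2 * δ)) - ε / 2 := by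
    have hE : Real.exp (ε / 2) ≠ 0 := (Real.exp_pos _).ne'
    have h2 : (2 : ℝ) ≠ 0 := by norm_num
    rw [one_div, one_div, Real.log_inv, Real.log_inv, hα,
      Real.log_mul h2 (mul_ne_zero hδ.ne' hE), Real.log_mul h2 hδ.ne',
      Real.log_mul hδ.ne' hE, Real.log_exp]
    ring
  obtain ⟨N₀, hN⟩ := dist_sum hα0 hK (half_pos hε)
  refine ⟨N₀, ?_⟩
  intro n hn x hxS hinj i hi
  have hcard : ((range (n + 1)).erase i).card = n := by
    rw [card_erase_of_mem (by simp; omega), card_range]; simp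
  have key := hN n hn (fun l => (x i - x l).natAbs) ((range (n + 1)).erase i) hcard ?_ ?_
  · rw [hlog] at key
    have e : Real.log |(G x n i : ℝ)|
        = ∑ l ∈ (range (n + 1)).erase i, Real.log (((x i - x l).natAbs : ℕ) : ℝ) := by
      rw [← Real.log_prod]
      · congr 1
        unfold G
        push_cast
        rw [abs_prod]
        apply prod_congr rfl
        intro l _
        simp [Nat.cast_natAbs]
      · intro l hl
        have hne : x i - x l ≠ 0 := by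
          intro h0
          have : x i = x l := by linarith
          exact (mem_erase.mp hl).1 (hinj this).symm
        have : (x i - x l).natAbs ≠ 0 := Int.natAbs_ne_zero.mpr hne
        exact_mod_cast this
    rw [e]
    calc Real.log n.factorial + n * (Real.log (1 / (2 * δ)) - ε)
        = Real.log n.factorial + n * (Real.log (1 / (2 * δ)) - ε / 2 - ε / 2) := by ring
      _ ≤ _ := key
  · intro l hl
    have hne : x i - x l ≠ 0 := by
      intro h0
      have : x i = x l := by linarith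
      exact (mem_erase.mp hl).1 (hinj this).symm
    exact Nat.one_le_iff_ne_zero.mpr (Int.natAbs_ne_zero.mpr hne)
  · intro T
    have h1 := hup (x i - T) (2 * T + 1)
    have h2 : (((range (n + 1)).erase i).filter (fun l => (x i - x l).natAbs ≤ T)).card
        ≤ (S ∩ Set.Ico (x i - T) (x i - T + ((2 * T + 1 : ℕ) : ℤ))).ncard := by
      rw [← card_image_of_injective _ hinj, ← Set.ncard_coe_finset]
      apply Set.ncard_le_ncard
      · intro y hy
        simp only [coe_image, Set.mem_image, coe_filter, Set.mem_ofPred_eq] at hy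
        obtain ⟨l, ⟨-, hl⟩, rfl⟩ := hy
        refine ⟨hxS l, ?_⟩
        rw [Set.mem_Ico]
        push_cast
        omega
      · exact (Set.finite_Ico _ _).inter_of_right _
    have h3 : ((((range (n + 1)).erase i).filter (fun l => (x i - x l).natAbs ≤ T)).card : ℝ)
        ≤ ((S ∩ Set.Ico (x i - T) (x i - T + ((2 * T + 1 : ℕ) : ℤ))).ncard : ℝ) := by
      exact_mod_cast h2
    refine h3.trans (h1.trans (le_of_eq ?_))
    push_cast
    ring

end SO.J_G_lower

namespace SO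
export J_G_lower (G_lower)
end SO

namespace SO.J_val_exc
open SO



theorem ve_sum {ι : Type} [DecidableEq ι] {q : ℕ} (hq : q.Prime) (f : ι → ℤ) (s : Finset ι)
    (h : ∀ l ∈ s, f l ≠ 0) :
    padicValNat q (∏ l ∈ s, f l).natAbs = ∑ l ∈ s, padicValNat q (f l).natAbs := by
  haveI : Fact q.Prime := ⟨hq⟩
  induction s using Finset.induction_on with
  | empty => simp
  | insert a s ha ih =>
    have h1 : f a ≠ 0 := h a (Finset.mem_insert_self a s)
    have h2 : ∀ l ∈ s, f l ≠ 0 := fun l hl => h l (Finset.mem_insert_of_mem hl)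
    have h3 : ∏ l ∈ s, f l ≠ 0 := Finset.prod_ne_zero_iff.mpr h2
    rw [Finset.prod_insert ha, Finset.sum_insert ha, Int.natAbs_mul,
      padicValNat.mul (Int.natAbs_ne_zero.mpr h1) (Int.natAbs_ne_zero.mpr h3), ih h2]

theorem ve_count {ι : Type} [DecidableEq ι] (f : ι → ℤ) (s : Finset ι) (m : ℕ) (hm : 0 < m)
    (X : ℝ) (hinj : Set.InjOn f s) (h0 : ∀ l ∈ s, f l ≠ 0) (hd : ∀ l ∈ s, (m : ℤ) ∣ f l)
    (hX : ∀ l ∈ s, |(f l : ℝ)| ≤ X) (hX0 : 0 ≤ X) : (s.card : ℝ) ≤ 2 * X / m := by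
  have hm' : (0 : ℝ) < m := by exact_mod_cast hm
  set B : ℕ := ⌊X / m⌋₊ with hB
  have hBX : (B : ℝ) ≤ X / m := Nat.floor_le (by positivity)
  have hcard : s.card ≤ ((Finset.Icc (-(B : ℤ)) B).erase 0).card := by
    apply Finset.card_le_card_of_injOn (fun l => f l / m)
    · intro l hl
      obtain ⟨c, hc⟩ := hd l hl
      have hdiv : f l / (m : ℤ) = c := by
        rw [hc]; exact Int.mul_ediv_cancel_left c (by exact_mod_cast hm.ne')
      have hc0 : c ≠ 0 := by
        rintro rfl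
        exact h0 l hl (by rw [hc, mul_zero])
      have hcX : |(c : ℝ)| ≤ X / m := by
        rw [le_div_iff₀ hm']
        have h1 := hX l hl
        rw [hc] at h1
        push_cast at h1
        rw [abs_mul, abs_of_pos hm'] at h1
        linarith
      have hcB : c.natAbs ≤ B := by
        apply Nat.le_floor
        rw [Nat.cast_natAbs, Int.cast_abs]
        exact hcX
      simp only [Finset.coe_erase, Finset.coe_Icc, Set.mem_diff, Set.mem_Icc, Set.mem_singleton_iff]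
      rw [hdiv]
      exact ⟨⟨by omega, by omega⟩, hc0⟩
    · intro l hl l' hl' he
      simp only at he
      apply hinj hl hl'
      obtain ⟨c, hc⟩ := hd l hl
      obtain ⟨c', hc'⟩ := hd l' hl'
      have hmz : (m : ℤ) ≠ 0 := by exact_mod_cast hm.ne'
      rw [hc, hc', Int.mul_ediv_cancel_left _ hmz, Int.mul_ediv_cancel_left _ hmz] at he
      rw [hc, hc', he]
  have hcard2 : ((Finset.Icc (-(B : ℤ)) B).erase 0).card = 2 * B := by
    rw [Finset.card_erase_of_mem (by simp), Int.card_Icc]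
    omega
  rw [hcard2] at hcard
  have h3 : (s.card : ℝ) ≤ 2 * (B : ℝ) := by exact_mod_cast hcard
  calc (s.card : ℝ) ≤ 2 * (B : ℝ) := h3
    _ ≤ 2 * (X / m) := by linarith
    _ = 2 * X / m := by ring

theorem ve_geo (q : ℕ) (hq : 2 ≤ q) (k₀ d : ℕ) :
    ∑ k ∈ Finset.Ioc k₀ (k₀ + d), 1 / (q : ℝ) ^ k ≤ 1 / (q : ℝ) ^ k₀ - 1 / (q : ℝ) ^ (k₀ + d) := by
  have hq' : (2 : ℝ) ≤ q := by exact_mod_cast hq
  induction d with
  | zero => simp
  | succ d ih =>
    have e : Finset.Ioc k₀ (k₀ + (d + 1)) = insert (k₀ + d + 1) (Finset.Ioc k₀ (k₀ + d)) := by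
      ext x
      simp only [Finset.mem_Ioc, Finset.mem_insert]
      omega
    rw [e, Finset.sum_insert (by simp)]
    have h1 : (0 : ℝ) < (q : ℝ) ^ (k₀ + d + 1) := by positivity
    have h2 : 2 * (1 / (q : ℝ) ^ (k₀ + d + 1)) ≤ 1 / (q : ℝ) ^ (k₀ + d) := by
      have h3 : (q : ℝ) * (1 / (q : ℝ) ^ (k₀ + d + 1)) = 1 / (q : ℝ) ^ (k₀ + d) := by
        rw [pow_succ]
        field_simp
      rw [← h3]
      exact mul_le_mul_of_nonneg_right hq' (by positivity)
    have e2 : k₀ + (d + 1) = k₀ + d + 1 := by ring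
    rw [e2]
    linarith

open Classical in
theorem val_exc {a : ℕ → ℤ} (ha : Function.Injective a) {q : ℕ} (hq : q.Prime) {b : ℤ}
    {j : ℕ} {n i : ℕ} (hi : i ≤ n) (hexc : a i ∉ cl b (q ^ j)) {R : ℝ}
    (hR : ∀ l ≤ n, |(a i : ℝ) - a l| ≤ R * n) (k₀ : ℕ) :
    (padicValNat q (G a n i).natAbs : ℝ) ≤ ((j : ℝ) - 1) * n +
      k₀ * (((range (n + 1)).filter (fun l => a l ∉ cl b (q ^ j))).card : ℝ) +
      2 * R * n / (q : ℝ) ^ k₀ := by
  haveI : Fact q.Prime := ⟨hq⟩
  have hj : 1 ≤ j := by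
    by_contra hcon
    have : j = 0 := by omega
    apply hexc
    rw [this, pow_zero]
    show ((1 : ℕ) : ℤ) ∣ a i - b
    rw [Nat.cast_one]; exact one_dvd _
  have hRn : 0 ≤ R * n := by
    have := hR i hi
    rw [sub_self, abs_zero] at this
    exact this
  have hne : ∀ l, l ≠ i → a i - a l ≠ 0 := by
    intro l hl h0
    exact hl (ha (by linarith)).symm
  unfold G
  rw [ve_sum hq _ _ (fun l hl => hne l (Finset.ne_of_mem_erase hl))]
  set s := (range (n + 1)).erase i with hs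
  obtain ⟨v, hv⟩ : ∃ v : ℕ → ℕ, ∀ l, v l = padicValNat q (a i - a l).natAbs := ⟨_, fun l => rfl⟩
  simp only [← hv]
  rw [← Finset.sum_filter_add_sum_filter_not s (fun l => a l ∈ cl b (q ^ j))]
  push_cast
  -- the non exceptional part
  have hpart1 : ∑ l ∈ s.filter (fun l => a l ∈ cl b (q ^ j)), (v l : ℝ) ≤ ((j : ℝ) - 1) * n := by
    have h1 : ∀ l ∈ s.filter (fun l => a l ∈ cl b (q ^ j)), (v l : ℝ) ≤ (j : ℝ) - 1 := by
      intro l hl
      obtain ⟨hls, hlc⟩ := Finset.mem_filter.mp hl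
      have hnd : ¬ q ^ j ∣ (a i - a l).natAbs := by
        intro hd
        apply hexc
        have hd' : ((q ^ j : ℕ) : ℤ) ∣ a i - a l := Int.natCast_dvd.mpr hd
        have hlc' : ((q ^ j : ℕ) : ℤ) ∣ a l - b := hlc
        show ((q ^ j : ℕ) : ℤ) ∣ a i - b
        have := dvd_add hd' hlc'
        rwa [sub_add_sub_cancel] at this
      have hlt : v l < j := by
        by_contra hcon
        apply hnd
        rw [padicValNat_dvd_iff_le (Int.natAbs_ne_zero.mpr (hne l (Finset.ne_of_mem_erase hls)))]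
        rw [← hv]; omega
      have : v l + 1 ≤ j := hlt
      have h2 : (v l : ℝ) + 1 ≤ j := by exact_mod_cast this
      linarith
    refine (Finset.sum_le_card_nsmul _ _ _ h1).trans ?_
    rw [nsmul_eq_mul, mul_comm]
    refine mul_le_mul_of_nonneg_left ?_ (by
      have : (1 : ℝ) ≤ j := by exact_mod_cast hj
      linarith)
    have h3 : (s.filter (fun l => a l ∈ cl b (q ^ j))).card ≤ n := by
      refine (Finset.card_filter_le _ _).trans ?_
      rw [hs, Finset.card_erase_of_mem (Finset.mem_range.mpr (by omega)), Finset.card_range]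
      omega
    exact_mod_cast h3
  -- the exceptional part
  set e := s.filter (fun l => ¬ a l ∈ cl b (q ^ j)) with he
  have hes : ∀ l ∈ e, l ≠ i ∧ l ≤ n := by
    intro l hl
    obtain ⟨hls, _⟩ := Finset.mem_filter.mp hl
    obtain ⟨h1, h2⟩ := Finset.mem_erase.mp hls
    exact ⟨h1, by have := Finset.mem_range.mp h2; omega⟩
  set d := ∑ l ∈ e, v l with hdd
  have hvd : ∀ l ∈ e, v l ≤ d := fun l hl =>
    Finset.single_le_sum (f := v) (fun _ _ => Nat.zero_le _) hl
  have hvl : ∀ l ∈ e, v l ≤ k₀ + ((Finset.Ioc k₀ (k₀ + d)).filter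
      (fun k => q ^ k ∣ (a i - a l).natAbs)).card := by
    intro l hl
    have h1 : Finset.Ioc k₀ (v l) ⊆ (Finset.Ioc k₀ (k₀ + d)).filter
        (fun k => q ^ k ∣ (a i - a l).natAbs) := by
      intro k hk
      rw [Finset.mem_Ioc] at hk
      rw [Finset.mem_filter, Finset.mem_Ioc]
      have h2 := hvd l hl
      refine ⟨⟨hk.1, by omega⟩, ?_⟩
      rw [padicValNat_dvd_iff_le (Int.natAbs_ne_zero.mpr (hne l (hes l hl).1)), ← hv]
      exact hk.2
    have h2 := Finset.card_le_card h1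
    rw [Nat.card_Ioc] at h2
    omega
  have hpart2 : ∑ l ∈ e, (v l : ℝ) ≤
      k₀ * (((range (n + 1)).filter (fun l => a l ∉ cl b (q ^ j))).card : ℝ) +
      2 * R * n / (q : ℝ) ^ k₀ := by
    have h1 : ∑ l ∈ e, (v l : ℝ) ≤ ∑ l ∈ e, ((k₀ : ℝ) + ∑ k ∈ Finset.Ioc k₀ (k₀ + d),
        (if q ^ k ∣ (a i - a l).natAbs then (1 : ℝ) else 0)) := by
      refine Finset.sum_le_sum fun l hl => ?_
      have h2 := hvl l hl
      rw [Finset.card_filter] at h2
      have h3 : (v l : ℝ) ≤ ((k₀ + ∑ k ∈ Finset.Ioc k₀ (k₀ + d),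
        (if q ^ k ∣ (a i - a l).natAbs then 1 else 0) : ℕ) : ℝ) := by exact_mod_cast h2
      push_cast at h3
      exact h3
    refine h1.trans ?_
    rw [Finset.sum_add_distrib, Finset.sum_const, nsmul_eq_mul, Finset.sum_comm]
    have hecard : (e.card : ℝ) ≤ (((range (n + 1)).filter (fun l => a l ∉ cl b (q ^ j))).card : ℝ) := by
      have : e ⊆ (range (n + 1)).filter (fun l => a l ∉ cl b (q ^ j)) := by
        intro l hl
        obtain ⟨hls, hlc⟩ := Finset.mem_filter.mp hl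
        exact Finset.mem_filter.mpr ⟨Finset.mem_of_mem_erase hls, hlc⟩
      exact_mod_cast Finset.card_le_card this
    have h2 : (e.card : ℝ) * k₀ ≤
        k₀ * (((range (n + 1)).filter (fun l => a l ∉ cl b (q ^ j))).card : ℝ) := by
      rw [mul_comm]
      exact mul_le_mul_of_nonneg_left hecard (Nat.cast_nonneg _)
    have h3 : ∀ k ∈ Finset.Ioc k₀ (k₀ + d), ∑ l ∈ e,
        (if q ^ k ∣ (a i - a l).natAbs then (1 : ℝ) else 0) ≤ 2 * (R * n) * (1 / (q : ℝ) ^ k) := by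
      intro k _
      rw [← Finset.sum_filter, Finset.sum_const, nsmul_eq_mul, mul_one]
      have h4 := ve_count (fun l => a i - a l) (e.filter (fun l => q ^ k ∣ (a i - a l).natAbs))
        (q ^ k) (pow_pos hq.pos k) (R * n) (by
          intro l _ l' _ h
          simp only at h
          exact ha (by linarith)) (by
          intro l hl
          exact hne l (hes l (Finset.mem_of_mem_filter l hl)).1) (by
          intro l hl
          exact Int.natCast_dvd.mpr (Finset.mem_filter.mp hl).2) (by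
          intro l hl
          have := hR l (hes l (Finset.mem_of_mem_filter l hl)).2
          push_cast
          exact this) hRn
      push_cast at h4
      refine h4.trans (le_of_eq ?_)
      ring
    have h4 : ∑ k ∈ Finset.Ioc k₀ (k₀ + d), ∑ l ∈ e,
        (if q ^ k ∣ (a i - a l).natAbs then (1 : ℝ) else 0) ≤ 2 * R * n / (q : ℝ) ^ k₀ := by
      refine (Finset.sum_le_sum h3).trans ?_
      rw [← Finset.mul_sum]
      have h5 := ve_geo q hq.two_le k₀ d
      have h6 : (0 : ℝ) ≤ 1 / (q : ℝ) ^ (k₀ + d) := by positivity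
      calc 2 * (R * n) * ∑ k ∈ Finset.Ioc k₀ (k₀ + d), 1 / (q : ℝ) ^ k
          ≤ 2 * (R * n) * (1 / (q : ℝ) ^ k₀) :=
            mul_le_mul_of_nonneg_left (by linarith) (by linarith)
        _ = 2 * R * n / (q : ℝ) ^ k₀ := by ring
    linarith
  linarith

end SO.J_val_exc

namespace SO
export J_val_exc (val_exc)
end SO

namespace SO.J_no_exc
open SO



theorem logq {q : ℕ} (hq : q.Prime) :
    Real.log 3 ≤ Real.log q + Real.log q / ((q:ℝ) - 1) := by
  have h2 := hq.two_le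
  rcases Nat.eq_or_lt_of_le h2 with h | h
  · rw [← h]
    have h1 : Real.log ((2:ℕ):ℝ) + Real.log ((2:ℕ):ℝ) / (((2:ℕ):ℝ) - 1) = Real.log 4 := by
      rw [show (4:ℝ) = 2^2 by norm_num, Real.log_pow]
      push_cast
      norm_num
      ring
    rw [h1]
    exact Real.log_le_log (by norm_num) (by norm_num)
  · have h3 : (3:ℝ) ≤ q := by exact_mod_cast h
    have h4 : Real.log 3 ≤ Real.log q := Real.log_le_log (by norm_num) h3
    have h5 : 0 ≤ Real.log q / ((q:ℝ) - 1) :=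
      div_nonneg (Real.log_nonneg (by linarith)) (by linarith)
    linarith

theorem logb_mu {q : ℕ} (hq : q.Prime) (j : ℕ) :
    Real.logb q (1 / (1 / (q : ℝ) ^ j)) = j := by
  have hq1 : (1:ℝ) < q := by exact_mod_cast hq.one_lt
  rw [one_div_one_div, Real.logb_pow, Real.logb_self_eq_one hq1, mul_one]

theorem lemA {S : Set ℤ} {a : ℕ → ℤ} {δ : ℝ} (hd : Dens S δ) (h : IsSim S a)
    {m : ℕ} {b : ℤ} (hm : 0 < m)
    (hst : ∀ q : ℕ, q.Prime → mu S q = 1 / (q : ℝ) ^ (padicValNat q m) ∧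
      Full S q b (padicValNat q m)) {q : ℕ} (hq : q.Prime) (i : ℕ)
    (hexc : a i ∉ cl b (q ^ (padicValNat q m))) {ε : ℝ} (hε : 0 < ε) :
    ∃ N : ℕ, ∀ n ≥ N, i ≤ n → (padicValNat q (G a n i).natAbs : ℝ)
      ≤ ((padicValNat q m : ℝ) - 1) * n + ε * n := by
  have hinf := dens_infinite hd
  have hinj := sim_injective hinf h
  obtain ⟨C, hC, hG⟩ := G_upper hinf h hm hst
  have hq1 : (1:ℝ) < q := by exact_mod_cast hq.one_lt
  have hq0 : (0:ℝ) < q := by linarith
  obtain ⟨k₀, hk₀⟩ : ∃ k₀ : ℕ, 2 * (4 * C^2) / (q:ℝ)^k₀ ≤ ε / 2 := by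
    obtain ⟨k, hk⟩ := pow_unbounded_of_one_lt (2 * (4*C^2) / (ε/2)) hq1
    refine ⟨k, ?_⟩
    rw [div_le_iff₀ (by positivity)]
    rw [div_lt_iff₀ (by positivity)] at hk
    linarith
  obtain ⟨N₀, hN₀⟩ := z_small hq (hst q hq).2 (fun n => padicValNat q (F a n))
    (by
      intro n x hx
      refine dvd_trans ?_ (sim_dvd h n hx)
      rw [Int.natCast_dvd]
      exact pow_padicValNat_dvd)
    (by
      intro ε' hε'
      obtain ⟨N₀, hN₀⟩ := star hd h hq hε'
      refine ⟨N₀, fun N hN => ?_⟩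
      have := hN₀ N hN
      rwa [(hst q hq).1, logb_mu hq] at this)
    (ε := ε / (4 * (k₀ + 1))) (by positivity)
  refine ⟨max N₀ 1, fun n hn hin => ?_⟩
  have hn0 : N₀ ≤ n := le_trans (le_max_left _ _) hn
  have hn1 : 1 ≤ n := le_trans (le_max_right _ _) hn
  have hn1' : (1:ℝ) ≤ n := by exact_mod_cast hn1
  have hR : ∀ l ≤ n, |(a i : ℝ) - a l| ≤ (4 * C^2) * n := fun l hl =>
    diam_of_G hinj hC (fun i hi => hG n i hi) hin hl
  have h1 := val_exc hinj hq hin hexc hR k₀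
  have h2 := hN₀ (n+1) (by omega)
  push_cast at h2
  have h3 : (k₀:ℝ) * (ε / (4 * (k₀ + 1)) * (n + 1)) ≤ ε / 2 * n := by
    have h4 : (k₀:ℝ) * (ε / (4 * (k₀ + 1))) ≤ ε / 4 := by
      rw [mul_div_assoc', div_le_iff₀ (by positivity)]
      nlinarith
    calc (k₀:ℝ) * (ε / (4 * (k₀ + 1)) * (n + 1)) = (k₀:ℝ) * (ε / (4 * (k₀ + 1))) * (n + 1) := by ring
      _ ≤ ε / 4 * (n + 1) := by gcongr
      _ ≤ ε / 2 * n := by nlinarith
  have h5 : 2 * (4 * C ^ 2) * n / (q : ℝ) ^ k₀ ≤ ε / 2 * n := by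
    calc 2 * (4 * C ^ 2) * n / (q : ℝ) ^ k₀ = 2 * (4 * C ^ 2) / (q : ℝ) ^ k₀ * n := by ring
      _ ≤ ε / 2 * n := by gcongr
  have h6 := mul_le_mul_of_nonneg_left h2 (Nat.cast_nonneg (α := ℝ) k₀)
  linarith

theorem lemB {S : Set ℤ} {a : ℕ → ℤ} {δ : ℝ} (hd : Dens S δ) (h : IsSim S a)
    {m : ℕ} {b : ℤ} (hm : 0 < m)
    (hst : ∀ q : ℕ, q.Prime → mu S q = 1 / (q : ℝ) ^ (padicValNat q m) ∧
      Full S q b (padicValNat q m)) {q : ℕ} (hq : q.Prime) (hj : 1 ≤ padicValNat q m)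
    {n i : ℕ} (hi : i ≤ n) {ε : ℝ}
    (hv : (padicValNat q (G a n i).natAbs : ℝ) ≤ ((padicValNat q m : ℝ) - 1) * n + ε * n) :
    Real.log |(G a n i : ℝ)| ≤ Real.log n.factorial + n * Real.log m
      + ((Nat.log 2 n : ℝ) + 1) * Real.log m
      + n * (-1 - 1 / ((q:ℝ) - 1) + ε) * Real.log q := by
  have hinf := dens_infinite hd
  have hinj := sim_injective hinf h
  have hGne : G a n i ≠ 0 := by
    unfold G
    rw [Finset.prod_ne_zero_iff]
    intro l hl
    rw [Finset.mem_erase] at hl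
    exact sub_ne_zero.2 fun he => hl.1 (hinj he).symm
  have hGn : (G a n i).natAbs ≠ 0 := Int.natAbs_ne_zero.2 hGne
  have habs : |(G a n i : ℝ)| = ((G a n i).natAbs : ℝ) := by
    rw [Nat.cast_natAbs, Int.cast_abs]
  set X := (G a n i).natAbs + n.factorial + m with hX
  have hqm : q ≤ m := Nat.le_of_dvd hm (dvd_of_one_le_padicValNat hj)
  have e1 := log_eq_sum hGn (X := X) (by omega)
  have e2 := log_eq_sum n.factorial_ne_zero (X := X) (by omega)
  have e3 := log_eq_sum hm.ne' (X := X) (by omega)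
  have hqmem : q ∈ (range (X + 1)).filter Nat.Prime := by
    rw [Finset.mem_filter, Finset.mem_range]
    exact ⟨by omega, hq⟩
  rw [habs, e1]
  have hkey : ∀ p ∈ (range (X + 1)).filter Nat.Prime,
      (padicValNat p (G a n i).natAbs : ℝ) * Real.log p ≤
        (padicValNat p n.factorial : ℝ) * Real.log p
        + n * ((padicValNat p m : ℝ) * Real.log p)
        + ((Nat.log 2 n : ℝ) + 1) * ((padicValNat p m : ℝ) * Real.log p)
        + (if p = q then n * (-1 - 1 / ((q:ℝ) - 1) + ε) * Real.log q else 0) := by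
    intro p hp
    rw [Finset.mem_filter] at hp
    have hpp := hp.2
    have hlog : 0 ≤ Real.log p := Real.log_nonneg (by exact_mod_cast hpp.one_lt.le)
    have hleg := legendre_lower hpp n
    have hL : (0:ℝ) ≤ (Nat.log 2 n : ℝ) + 1 := by positivity
    by_cases hpq : p = q
    · subst hpq
      rw [if_pos rfl]
      have hj' : (1:ℝ) ≤ padicValNat p m := by exact_mod_cast hj
      have h1 : (padicValNat p (G a n i).natAbs : ℝ) ≤ (padicValNat p n.factorial : ℝ)
          + n * (padicValNat p m : ℝ) + ((Nat.log 2 n : ℝ) + 1) * (padicValNat p m : ℝ)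
          + n * (-1 - 1 / ((p:ℝ) - 1) + ε) := by
        have h2 : ((Nat.log 2 n : ℝ) + 1) * 1 ≤ ((Nat.log 2 n : ℝ) + 1) * (padicValNat p m : ℝ) :=
          mul_le_mul_of_nonneg_left hj' hL
        have h3 : (n:ℝ) * (1 / ((p:ℝ) - 1)) = n / ((p:ℝ) - 1) := by ring
        nlinarith
      calc _ ≤ _ := mul_le_mul_of_nonneg_right h1 hlog
        _ = _ := by ring
    · rw [if_neg hpq, add_zero]
      rcases Nat.eq_zero_or_pos (padicValNat p m) with h0 | h0
      · have hfull : Full S p b 0 := h0 ▸ (hst p hpp).2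
        have h1 := val_full hinf h hpp hfull hi
        have h1' : (padicValNat p (G a n i).natAbs : ℝ) ≤ padicValNat p n.factorial := by
          exact_mod_cast h1
        rw [h0]
        have := mul_le_mul_of_nonneg_right h1' hlog
        simpa using this
      · have hj' : (1:ℝ) ≤ padicValNat p m := by exact_mod_cast h0
        have hp0 : (0:ℝ) < p := by exact_mod_cast hpp.pos
        have hmu : 0 < mu S p := by
          rw [(hst p hpp).1]
          positivity
        have h1 := val_le_B hpp hmu ((range (n + 1)).erase i) a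
          (padicValNat p (G a n i).natAbs) (by
            intro x hx
            refine dvd_trans ?_ (gdvd hinf h hi hx)
            rw [Int.natCast_dvd]
            exact pow_padicValNat_dvd)
        rw [(hst p hpp).1, logb_mu hpp, Finset.card_erase_of_mem
          (Finset.mem_range.2 (by omega)), Finset.card_range, Nat.add_sub_cancel] at h1
        have h2 : ((Nat.log 2 n : ℝ) + 1) * 1 ≤ ((Nat.log 2 n : ℝ) + 1) * (padicValNat p m : ℝ) :=
          mul_le_mul_of_nonneg_left hj' hL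
        have h3 : (n:ℝ) * (1 / ((p:ℝ) - 1)) = n / ((p:ℝ) - 1) := by ring
        have h4 : (padicValNat p (G a n i).natAbs : ℝ) ≤ (padicValNat p n.factorial : ℝ)
          + n * (padicValNat p m : ℝ) + ((Nat.log 2 n : ℝ) + 1) * (padicValNat p m : ℝ) := by
          nlinarith
        calc _ ≤ _ := mul_le_mul_of_nonneg_right h4 hlog
          _ = _ := by ring
  refine (Finset.sum_le_sum hkey).trans (le_of_eq ?_)
  rw [Finset.sum_add_distrib, Finset.sum_add_distrib, Finset.sum_add_distrib, ← Finset.mul_sum,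
    ← Finset.mul_sum, ← e2, ← e3, Finset.sum_ite_eq' _ q, if_pos hqmem]

theorem no_exc {S : Set ℤ} {a : ℕ → ℤ} {δ : ℝ} (hd : Dens S δ) (h : IsSim S a)
    {m : ℕ} {b : ℤ} (hm : 0 < m) (hδ : δ ≤ 1 / m)
    (hst : ∀ q : ℕ, q.Prime → mu S q = 1 / (q : ℝ) ^ (padicValNat q m) ∧
      Full S q b (padicValNat q m)) {q : ℕ} (hq : q.Prime) (i : ℕ) :
    a i ∈ cl b (q ^ (padicValNat q m)) := by
  rcases Nat.eq_zero_or_pos (padicValNat q m) with hj | hj
  · rw [hj, pow_zero]
    change ((1:ℕ):ℤ) ∣ a i - b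
    simp
  · by_contra hexc
    have hinf := dens_infinite hd
    have hinj := sim_injective hinf h
    have hm' : (0:ℝ) < m := by exact_mod_cast hm
    have hm1 : (1:ℝ) ≤ m := by exact_mod_cast hm
    have hlogm : 0 ≤ Real.log m := Real.log_nonneg hm1
    have hlq : 0 < Real.log q := Real.log_pos (by exact_mod_cast hq.one_lt)
    set c : ℝ := Real.log 3 - Real.log 2 with hc
    have hcpos : 0 < c := by
      have := Real.log_lt_log (x := 2) (y := 3) (by norm_num) (by norm_num)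
      linarith
    obtain ⟨N₁, hN₁⟩ := lemA hd h hm hst hq i hexc (ε := c / (4 * Real.log q)) (by positivity)
    obtain ⟨N₂, hN₂⟩ := G_lower hd (ε := c / 4) (by positivity)
    -- large `n`
    have hT : Filter.Tendsto (fun t : ℕ => (t:ℝ) ^ 1 / 2 ^ t) Filter.atTop (nhds 0) :=
      tendsto_pow_const_div_const_pow_of_one_lt 1 (by norm_num)
    have hT2 : Filter.Tendsto (fun t : ℕ => (((1:ℝ) / 2) ^ t)) Filter.atTop (nhds 0) :=
      tendsto_pow_atTop_nhds_zero_of_lt_one (by norm_num) (by norm_num)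
    have hT3 : Filter.Tendsto (fun t : ℕ => ((t:ℝ) ^ 1 / 2 ^ t + ((1:ℝ) / 2) ^ t) * Real.log m)
        Filter.atTop (nhds 0) := by
      have := (hT.add hT2).mul_const (Real.log m)
      simpa using this
    have hev := (hT3.eventually (gt_mem_nhds (show (0:ℝ) < c / 2 by positivity))).and
      (Filter.eventually_ge_atTop (N₁ + N₂ + i))
    obtain ⟨t, ht, htN⟩ := hev.exists
    have htlt : t < 2 ^ t := Nat.lt_two_pow_self
    set n : ℕ := 2 ^ t with hn
    have hlog2 : Nat.log 2 n = t := by rw [hn, Nat.log_pow (by norm_num)]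
    have hi : i ≤ n := by omega
    have h1 := hN₁ n (by omega) hi
    have h2 := hN₂ n (by omega) a h.1 hinj i hi
    have h3 := lemB hd h hm hst hq hj hi h1
    rw [hlog2] at h3
    have hnpos : (0:ℝ) < n := by
      rw [hn]; positivity
    have h4 : Real.log m - Real.log 2 ≤ Real.log (1 / (2 * δ)) := by
      rw [← Real.log_div hm'.ne' (by norm_num)]
      apply Real.log_le_log (by positivity)
      have hδ0 := hd.pos
      rw [le_div_iff₀ (by positivity)]
      rw [le_div_iff₀ hm'] at hδ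
      nlinarith
    have h5 := logq hq
    have h6 : ((t:ℝ) + 1) * Real.log m < n * (c / 2) := by
      have h7 : ((t:ℝ) ^ 1 / 2 ^ t + ((1:ℝ) / 2) ^ t) = ((t:ℝ) + 1) / n := by
        rw [hn]
        push_cast
        rw [one_div, inv_pow]
        field_simp
      rw [h7, div_mul_eq_mul_div, div_lt_iff₀ hnpos] at ht
      linarith
    have h8 : c / (4 * Real.log q) * Real.log q = c / 4 := by
      field_simp
    have h9 : (n:ℝ) * (-1 - 1 / ((q:ℝ) - 1) + c / (4 * Real.log q)) * Real.log q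
        = n * (-(Real.log q + Real.log q / ((q:ℝ) - 1)) + c / 4) := by
      rw [← h8]; ring
    rw [h9] at h3
    have h10 : (n:ℝ) * (Real.log m - Real.log 2) ≤ n * Real.log (1 / (2 * δ)) :=
      mul_le_mul_of_nonneg_left h4 hnpos.le
    have h11 : (n:ℝ) * Real.log 3 ≤ n * (Real.log q + Real.log q / ((q:ℝ) - 1)) :=
      mul_le_mul_of_nonneg_left h5 hnpos.le
    have h12 := h2.trans h3
    have h13 : (n:ℝ) * c = n * Real.log 3 - n * Real.log 2 := by rw [hc]; ring
    nlinarith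

end SO.J_no_exc

namespace SO
export J_no_exc (no_exc)
end SO

namespace SO.J_sub_class
open SO



theorem sub_class {S : Set ℤ} {a : ℕ → ℤ} (h : IsSim S a) {b : ℤ} {M : ℕ}
    (ha : ∀ i, a i ∈ cl b M) {x : ℤ} (hx : x ∈ S) : x ∈ cl b M := by
  have h1 := sim_dvd h 1 hx
  simp only [Finset.prod_range_one] at h1
  have h2 : (M : ℤ) ∣ a 1 - b := ha 1
  have h3 : (M : ℤ) ∣ a 0 - b := ha 0
  have h4 : (M : ℤ) ∣ a 1 - a 0 := by
    have := dvd_sub h2 h3
    rwa [sub_sub_sub_cancel_right] at this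
  have h5 := dvd_add (h4.trans h1) h3
  rw [sub_add_sub_cancel] at h5
  exact h5


end SO.J_sub_class

namespace SO
export J_sub_class (sub_class)
end SO

namespace SO.J_rescale
open SO



theorem rs_prod {k : ℕ} {a a' : ℕ → ℤ} {m : ℕ} {b : ℤ} (ha : ∀ i, a i = b + m * a' i) (y : ℤ) :
    ∏ i ∈ range k, (b + m * y - a i) = (m : ℤ) ^ k * ∏ i ∈ range k, (y - a' i) := by
  have h1 : ∀ i ∈ range k, b + m * y - a i = (m : ℤ) * (y - a' i) := by
    intro i _
    rw [ha i]
    ring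
  rw [prod_congr rfl h1, prod_mul_distrib, prod_const, card_range]

theorem rs_cancel {p m k : ℕ} (hp : p.Prime) (hm : 0 < m) {u v : ℤ}
    (h : emultiplicity (p : ℤ) ((m : ℤ) ^ k * u) ≤ emultiplicity (p : ℤ) ((m : ℤ) ^ k * v)) :
    emultiplicity (p : ℤ) u ≤ emultiplicity (p : ℤ) v := by
  have hp' : Prime (p : ℤ) := Nat.prime_iff_prime_int.1 hp
  rw [emultiplicity_mul hp', emultiplicity_mul hp'] at h
  have hfin : FiniteMultiplicity (p : ℤ) ((m : ℤ) ^ k) := by
    rw [Int.finiteMultiplicity_iff]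
    refine ⟨?_, ?_⟩
    · rw [Int.natAbs_natCast]
      exact hp.one_lt.ne'
    · have : (m : ℤ) ≠ 0 := by exact_mod_cast hm.ne'
      exact pow_ne_zero _ this
  have hne : emultiplicity (p : ℤ) ((m : ℤ) ^ k) ≠ ⊤ :=
    finiteMultiplicity_iff_emultiplicity_ne_top.1 hfin
  exact (ENat.add_le_add_iff_left hne).1 h

theorem rs_dvd {p m : ℕ} (hp : p.Prime) (hm : 0 < m) (K : ℕ) {z : ℤ}
    (h : ((p ^ (K + padicValNat p m) : ℕ) : ℤ) ∣ m * z) : ((p ^ K : ℕ) : ℤ) ∣ z := by
  haveI : Fact p.Prime := ⟨hp⟩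
  obtain ⟨m', hm'⟩ := pow_padicValNat_dvd (p := p) (n := m)
  have hnd : ¬ p ∣ m' := by
    rintro ⟨c, hc⟩
    apply pow_succ_padicValNat_not_dvd (p := p) hm.ne'
    refine ⟨c, ?_⟩
    rw [pow_succ, mul_assoc, ← hc]
    exact hm'
  have hpos : ((p ^ padicValNat p m : ℕ) : ℤ) ≠ 0 := by
    exact_mod_cast (pow_pos hp.pos _).ne'
  have h1 : ((p ^ K : ℕ) : ℤ) ∣ (m' : ℤ) * z := by
    have e1 : ((p ^ (K + padicValNat p m) : ℕ) : ℤ) =
        ((p ^ padicValNat p m : ℕ) : ℤ) * ((p ^ K : ℕ) : ℤ) := by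
      push_cast
      ring
    have e2 : (m : ℤ) * z = ((p ^ padicValNat p m : ℕ) : ℤ) * ((m' : ℤ) * z) := by
      conv_lhs => rw [hm']
      push_cast
      ring
    rw [e1, e2] at h
    exact (mul_dvd_mul_iff_left hpos).1 h
  have hcop : IsCoprime ((p ^ K : ℕ) : ℤ) (m' : ℤ) :=
    Nat.isCoprime_iff_coprime.2 (Nat.Coprime.pow_left K ((Nat.Prime.coprime_iff_not_dvd hp).2 hnd))
  exact hcop.dvd_of_dvd_mul_left h1

theorem rescale {S : Set ℤ} {a : ℕ → ℤ} (hinf : S.Infinite) (h : IsSim S a) {m : ℕ} {b : ℤ}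
    (hm : 0 < m) (hS : ∀ x ∈ S, x ∈ cl b m)
    (hst : ∀ q : ℕ, q.Prime → Full S q b (padicValNat q m)) :
    ∃ (T : Set ℤ) (a' : ℕ → ℤ), T.Infinite ∧ IsSim T a' ∧ (∀ y, y ∈ T ↔ b + m * y ∈ S) ∧
      ∀ p : ℕ, p.Prime → Full T p 0 0 := by
  have hm0 : (m : ℤ) ≠ 0 := by exact_mod_cast hm.ne'
  have hdiv : ∀ x ∈ S, x = b + m * ((x - b) / m) := by
    intro x hx
    have h1 : (m : ℤ) ∣ x - b := hS x hx
    rw [Int.mul_ediv_cancel' h1]
    ring
  have ha : ∀ i, a i = b + m * ((a i - b) / m) := fun i => hdiv _ (h.1 i)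
  refine ⟨{y | b + m * y ∈ S}, fun i => (a i - b) / m, ?_, ⟨?_, ?_⟩, fun y => Iff.rfl, ?_⟩
  · intro hfin
    apply hinf
    refine (hfin.image (fun y : ℤ => b + m * y)).subset ?_
    intro x hx
    refine ⟨(x - b) / m, ?_, (hdiv x hx).symm⟩
    show b + m * ((x - b) / m) ∈ S
    rw [← hdiv x hx]
    exact hx
  · intro n
    show b + m * ((a n - b) / m) ∈ S
    rw [← ha n]
    exact h.1 n
  · intro p hp k y hy
    have h1 := h.2 p hp k (b + m * y) hy
    have e1 := rs_prod (k := k) ha y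
    have e2 := rs_prod (k := k) ha ((a k - b) / m)
    rw [← ha k] at e2
    rw [e1, e2] at h1
    exact rs_cancel hp hm h1
  · intro p hp K y _
    haveI : Fact p.Prime := ⟨hp⟩
    have hY : b + m * y ∈ cl b (p ^ padicValNat p m) := by
      show ((p ^ padicValNat p m : ℕ) : ℤ) ∣ b + m * y - b
      have h1 : ((p ^ padicValNat p m : ℕ) : ℤ) ∣ (m : ℤ) :=
        Int.natCast_dvd_natCast.2 pow_padicValNat_dvd
      have h2 : b + m * y - b = m * y := by ring
      rw [h2]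
      exact h1.mul_right y
    obtain ⟨x, hx, hxd⟩ := hst p hp (K + padicValNat p m) _ hY
    refine ⟨(x - b) / m, ?_, ?_⟩
    · show b + m * ((x - b) / m) ∈ S
      rw [← hdiv x hx]
      exact hx
    · apply rs_dvd hp hm K
      have h3 : x - (b + m * y) = m * ((x - b) / m - y) := by
        conv_lhs => rw [hdiv x hx]
        ring
      rw [← h3]
      exact hxd

end SO.J_rescale

namespace SO
export J_rescale (rescale)
end SO

namespace SO.J_F_dvd_factorial
open SO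



theorem prod_ne {S : Set ℤ} {a : ℕ → ℤ} (hinf : S.Infinite) (h : IsSim S a) (n : ℕ) :
    ∏ i ∈ range n, (a n - a i) ≠ 0 := by
  obtain ⟨x, hxS, hx⟩ := hinf.exists_notMem_finset ((range n).image a)
  have hx' : ∏ i ∈ range n, (x - a i) ≠ 0 := by
    rw [Finset.prod_ne_zero_iff]
    intro i hi h0
    apply hx
    rw [sub_eq_zero] at h0
    rw [h0]
    exact Finset.mem_image_of_mem a hi
  intro h0
  have h1 := h.2 2 Nat.prime_two n x hxS
  rw [h0, emultiplicity_zero, top_le_iff] at h1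
  rw [emultiplicity_eq_top] at h1
  have hfin : FiniteMultiplicity ((2 : ℕ) : ℤ) (∏ i ∈ range n, (x - a i)) := by
    rw [Int.finiteMultiplicity_iff]
    exact ⟨by norm_num, hx'⟩
  exact h1 hfin

theorem F_eq (a : ℕ → ℤ) (n : ℕ) : F a n = (G a n n).natAbs := by
  unfold F G
  congr 2
  rw [Finset.range_add_one, Finset.erase_insert (by simp)]

theorem F_dvd_factorial {S : Set ℤ} {a : ℕ → ℤ} (hinf : S.Infinite) (h : IsSim S a)
    (hfull : ∀ p : ℕ, p.Prime → Full S p 0 0) (n : ℕ) : F a n ∣ n.factorial := by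
  have hF : F a n ≠ 0 := by
    unfold F
    rw [Int.natAbs_ne_zero]
    exact prod_ne hinf h n
  rw [← Nat.factorization_prime_le_iff_dvd hF (Nat.factorial_ne_zero n)]
  intro p hp
  rw [Nat.factorization_def _ hp, Nat.factorization_def _ hp, F_eq]
  exact val_full hinf h hp (hfull p hp) le_rfl


end SO.J_F_dvd_factorial

namespace SO
export J_F_dvd_factorial (F_dvd_factorial)
end SO

namespace SO.J_interval
open SO



theorem itv_prod (n e : ℕ) (he : 1 ≤ e) (h : ∏ k ∈ range (n + 1), (e + k) ≤ (n + 1).factorial) :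
    e = 1 := by
  by_contra hne
  have he2 : 2 ≤ e := by omega
  have h1 : ∏ k ∈ range (n + 1), (2 + k) ≤ ∏ k ∈ range (n + 1), (e + k) :=
    Finset.prod_le_prod (fun _ _ => Nat.zero_le _) (fun k _ => by omega)
  have h2 : ∏ k ∈ range (n + 1), (2 + k) = (n + 2).factorial := by
    rw [← Finset.prod_range_add_one_eq_factorial (n + 2), Finset.prod_range_succ' _ (n + 1)]
    simp only [zero_add, mul_one]
    exact Finset.prod_congr rfl (fun k _ => by ring)
  have h3 : (n + 1).factorial < (n + 2).factorial := by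
    rw [Nat.factorial_succ (n + 1)]
    have := Nat.factorial_pos (n + 1)
    nlinarith
  omega

theorem interval {a : ℕ → ℤ} (ha : Function.Injective a)
    (hF : ∀ n, F a n ∣ n.factorial) (n : ℕ) :
    ∃ u : ℤ, ∀ y : ℤ, (∃ i ≤ n, a i = y) ↔ u ≤ y ∧ y ≤ u + n := by
  induction n with
  | zero =>
    refine ⟨a 0, fun y => ?_⟩
    constructor
    · rintro ⟨i, hi, rfl⟩
      have : i = 0 := by omega
      subst this
      simp
    · rintro ⟨h1, h2⟩
      exact ⟨0, le_rfl, by push_cast at h2; omega⟩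
  | succ n ih =>
    obtain ⟨u, hu⟩ := ih
    have himg : (range (n + 1)).image a = Finset.Icc u (u + n) := by
      ext y
      rw [Finset.mem_image, Finset.mem_Icc, ← hu y]
      constructor
      · rintro ⟨i, hi, rfl⟩
        exact ⟨i, by rw [mem_range] at hi; omega, rfl⟩
      · rintro ⟨i, hi, rfl⟩
        exact ⟨i, by rw [mem_range]; omega, rfl⟩
    have hprod : F a (n + 1) = ∏ y ∈ Finset.Icc u (u + n), (a (n + 1) - y).natAbs := by
      unfold F
      rw [← himg, Finset.prod_image (fun i _ j _ h => ha h)]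
      exact map_prod Int.natAbsHom _ _
    have hle : F a (n + 1) ≤ (n + 1).factorial := Nat.le_of_dvd (Nat.factorial_pos _) (hF (n + 1))
    have hout : ¬ (u ≤ a (n + 1) ∧ a (n + 1) ≤ u + n) := by
      rw [← hu]
      rintro ⟨i, hi, h⟩
      have := ha h
      omega
    by_cases hx : a (n + 1) < u
    · obtain ⟨e, he⟩ : ∃ e : ℕ, a (n + 1) = u - e := ⟨(u - a (n + 1)).toNat, by omega⟩
      have he1 : 1 ≤ e := by omega
      have h1 : ∏ y ∈ Finset.Icc u (u + n), (a (n + 1) - y).natAbs = ∏ k ∈ range (n + 1), (e + k) := by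
        symm
        refine Finset.prod_bij (fun k _ => u + (k : ℤ)) ?_ ?_ ?_ ?_
        · intro k hk
          rw [mem_range] at hk
          rw [Finset.mem_Icc]; omega
        · intro k _ k' _ h
          omega
        · intro y hy
          rw [Finset.mem_Icc] at hy
          exact ⟨(y - u).toNat, by rw [mem_range]; omega, by omega⟩
        · intro k hk
          rw [he]
          omega
      have he' : e = 1 := by
        apply itv_prod n e he1
        rw [← h1, ← hprod]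
        exact hle
      refine ⟨u - 1, fun y => ?_⟩
      constructor
      · rintro ⟨i, hi, rfl⟩
        rcases Nat.lt_or_ge n i with h | h
        · have : i = n + 1 := by omega
          subst this
          push_cast
          omega
        · have := (hu (a i)).1 ⟨i, h, rfl⟩
          push_cast
          omega
      · rintro ⟨h2, h3⟩
        push_cast at h3
        by_cases hy : y = u - 1
        · exact ⟨n + 1, le_rfl, by omega⟩
        · obtain ⟨i, hi, h4⟩ := (hu y).2 (by omega)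
          exact ⟨i, by omega, h4⟩
    · obtain ⟨e, he⟩ : ∃ e : ℕ, a (n + 1) = u + n + e := ⟨(a (n + 1) - u - n).toNat, by omega⟩
      have he1 : 1 ≤ e := by omega
      have h1 : ∏ y ∈ Finset.Icc u (u + n), (a (n + 1) - y).natAbs = ∏ k ∈ range (n + 1), (e + k) := by
        symm
        refine Finset.prod_bij (fun k _ => u + n - (k : ℤ)) ?_ ?_ ?_ ?_
        · intro k hk
          rw [mem_range] at hk
          rw [Finset.mem_Icc]; omega
        · intro k _ k' _ h
          omega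
        · intro y hy
          rw [Finset.mem_Icc] at hy
          exact ⟨(u + n - y).toNat, by rw [mem_range]; omega, by omega⟩
        · intro k hk
          rw [he]
          omega
      have he' : e = 1 := by
        apply itv_prod n e he1
        rw [← h1, ← hprod]
        exact hle
      refine ⟨u, fun y => ?_⟩
      constructor
      · rintro ⟨i, hi, rfl⟩
        rcases Nat.lt_or_ge n i with h | h
        · have : i = n + 1 := by omega
          subst this
          push_cast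
          omega
        · have := (hu (a i)).1 ⟨i, h, rfl⟩
          push_cast
          omega
      · rintro ⟨h2, h3⟩
        push_cast at h3
        by_cases hy : y = u + n + 1
        · exact ⟨n + 1, le_rfl, by omega⟩
        · obtain ⟨i, hi, h4⟩ := (hu y).2 (by omega)
          exact ⟨i, by omega, h4⟩

end SO.J_interval

namespace SO
export J_interval (interval)
end SO

namespace SO.J_ray
open SO



theorem ray {a : ℕ → ℤ} (ha : Function.Injective a)
    (hint : ∀ n : ℕ, ∃ u : ℤ, ∀ y : ℤ, (∃ i ≤ n, a i = y) ↔ u ≤ y ∧ y ≤ u + n) :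
    (∃ c : ℤ, ∀ k : ℕ, ∃ i, a i = c + k) ∨ (∃ c : ℤ, ∀ k : ℕ, ∃ i, a i = c - k) := by
  choose u hu using hint
  have h0 : ∀ n, u n ≤ a 0 ∧ a 0 ≤ u n + n := fun n => (hu n (a 0)).1 ⟨0, Nat.zero_le n, rfl⟩
  by_cases hb : ∃ m : ℤ, ∀ n, m < u n
  · left
    obtain ⟨m, hm⟩ := hb
    refine ⟨a 0, fun k => ?_⟩
    obtain ⟨i, -, hi⟩ := (hu ((a 0 + k - m).toNat) (a 0 + k)).2
      ⟨by have := (h0 ((a 0 + k - m).toNat)).1; omega, by
        have h1 := hm ((a 0 + k - m).toNat)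
        have h2 : a 0 + k - m ≤ ((a 0 + k - m).toNat : ℤ) := Int.self_le_toNat _
        omega⟩
    exact ⟨i, hi⟩
  · right
    push Not at hb
    refine ⟨a 0, fun k => ?_⟩
    obtain ⟨n, hn⟩ := hb (a 0 - k)
    obtain ⟨i, -, hi⟩ := (hu n (a 0 - k)).2 ⟨hn, by have := (h0 n).2; omega⟩
    exact ⟨i, hi⟩

end SO.J_ray

namespace SO
export J_ray (ray)
end SO

namespace SO.J_converse
open SO



theorem fac_dvd (k : ℕ) (y : ℤ) : ((k.factorial : ℕ) : ℤ) ∣ ∏ i ∈ range k, (y - (i : ℤ)) := by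
  rw [← descPochhammer_eval_eq_prod_range]
  have h0 : 0 ≤ y + k.factorial * |y| := by
    have : (1 : ℤ) ≤ k.factorial := by
      exact_mod_cast Nat.one_le_iff_ne_zero.2 (Nat.factorial_ne_zero k)
    nlinarith [neg_abs_le y, abs_nonneg y]
  obtain ⟨N, hN⟩ := Int.eq_ofNat_of_zero_le h0
  have h1 : ((k.factorial : ℕ) : ℤ) ∣ (descPochhammer ℤ k).eval (N : ℤ) := by
    rw [descPochhammer_eval_eq_descFactorial]
    exact_mod_cast Nat.factorial_dvd_descFactorial N k
  have h2 : ((N : ℤ) - y) ∣ (descPochhammer ℤ k).eval (N : ℤ) - (descPochhammer ℤ k).eval y :=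
    Polynomial.sub_dvd_eval_sub _ _ _
  have h3 : ((k.factorial : ℕ) : ℤ) ∣ (N : ℤ) - y := ⟨|y|, by rw [← hN]; ring⟩
  have h4 := h3.trans h2
  exact (dvd_sub_right h1).1 h4

theorem prod_self (k : ℕ) : ∏ i ∈ range k, ((k : ℤ) - (i : ℤ)) = ((k.factorial : ℕ) : ℤ) := by
  rw [← descPochhammer_eval_eq_prod_range, descPochhammer_eval_eq_descFactorial,
    Nat.descFactorial_self]

theorem main {S : Set ℤ} {b c : ℤ} (hS : ∀ x ∈ S, c ∣ x - b) (hray : ∀ k : ℕ, b + c * k ∈ S) :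
    ∃ a : ℕ → ℤ, IsSim S a := by
  refine ⟨fun n => b + c * n, hray, ?_⟩
  intro p hp k x hx
  obtain ⟨y, hy⟩ := hS x hx
  apply emultiplicity_le_emultiplicity_of_dvd_right
  have e1 : ∏ i ∈ range k, ((b + c * (k : ℤ)) - (b + c * (i : ℤ))) =
      c ^ k * ((k.factorial : ℕ) : ℤ) := by
    have e3 : c ^ k = ∏ _i ∈ range k, c := by rw [Finset.prod_const, Finset.card_range]
    rw [← prod_self, e3, ← Finset.prod_mul_distrib]
    apply Finset.prod_congr rfl
    intro i _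
    ring
  have e2 : ∏ i ∈ range k, (x - (b + c * (i : ℤ))) = c ^ k * ∏ i ∈ range k, (y - (i : ℤ)) := by
    have e3 : c ^ k = ∏ _i ∈ range k, c := by rw [Finset.prod_const, Finset.card_range]
    rw [e3, ← Finset.prod_mul_distrib]
    apply Finset.prod_congr rfl
    intro i _
    have : x = b + c * y := by linarith
    rw [this]
    ring
  simp only
  rw [e1, e2]
  exact mul_dvd_mul_left _ (fac_dvd k y)

theorem converse {S : Set ℤ} {m : ℕ} {b : ℤ} (hm : 0 < m) (hS : ∀ x ∈ S, (m : ℤ) ∣ x - b)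
    (hray : (∀ k : ℕ, b + m * k ∈ S) ∨ (∀ k : ℕ, b - m * k ∈ S)) :
    ∃ a : ℕ → ℤ, IsSim S a := by
  rcases hray with h | h
  · exact main hS h
  · refine main (c := -(m : ℤ)) (fun x hx => neg_dvd.2 (hS x hx)) (fun k => ?_)
    have := h k
    rwa [sub_eq_add_neg, ← neg_mul] at this

end SO.J_converse

namespace SO
export J_converse (converse)
end SO

namespace SO.J_main
open SO



theorem main (S : Set ℤ) (hS : PosUBD S) :
    (∃ a : ℕ → ℤ, IsSim S a) ↔
      ∃ (m : ℕ) (b : ℤ), 0 < m ∧ (∀ x ∈ S, (m : ℤ) ∣ x - b) ∧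
        ((∀ k : ℕ, b + m * k ∈ S) ∨ (∀ k : ℕ, b - m * k ∈ S)) := by
  constructor
  · rintro ⟨a, h⟩
    obtain ⟨δ, hd⟩ := dens_exists hS
    have hinf := dens_infinite hd
    have hst : ∀ q : ℕ, q.Prime → ∃ (j : ℕ) (b : ℤ), mu S q = 1 / (q : ℝ) ^ j ∧ Full S q b j := by
      intro q hq
      have hmu0 : 0 < mu S q := lt_of_lt_of_le hd.pos (dens_le_mu hd hq)
      have hmu1 : mu S q ≤ 1 := mu_le_one S hq.pos
      have hq1 : (1 : ℝ) < q := by exact_mod_cast hq.one_lt
      have hf : ∀ n, ∀ x ∈ S, ((q ^ (padicValNat q (F a n)) : ℕ) : ℤ) ∣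
          ∏ l ∈ range n, (x - a l) := by
        intro n x hx
        refine dvd_trans ?_ (sim_dvd h n hx)
        rw [Int.natCast_dvd]
        exact pow_padicValNat_dvd
      have hlog : 0 ≤ Real.logb q (1 / mu S q) := by
        apply Real.logb_nonneg hq1
        rw [le_div_iff₀ hmu0]
        linarith
      have hH : 0 < Real.logb q (1 / mu S q) + 1 / ((q : ℝ) - 1) := by
        have : 0 < 1 / ((q : ℝ) - 1) := by
          apply div_pos one_pos
          linarith
        linarith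
      have hheavy : ∀ ε : ℝ, 0 < ε → ∀ K₁ : ℕ, ∃ K ≥ K₁, ∃ b : ℤ,
          (Real.logb q (1 / mu S q) + 1 / ((q : ℝ) - 1) - ε) * (r S (q ^ K) : ℝ) <
          ∑ k ∈ Icc 1 K, (r (S ∩ cl b (q ^ k)) (q ^ K) : ℝ) := by
        intro ε hε K₁
        exact exists_heavy hq hmu0 (fun n => padicValNat q (F a n)) hf _ hH
          (fun ε' hε' => star hd h hq hε') hε K₁
      obtain ⟨j, hj⟩ := struct_j hq hmu0 hheavy
      have hlj : Real.logb q (1 / mu S q) = j := by
        rw [hj, one_div_one_div, Real.logb_pow, Real.logb_self_eq_one hq1, mul_one]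
      rw [hlj] at hheavy
      obtain ⟨b, hb⟩ := struct_full hq hj hheavy
      exact ⟨j, b, hj, hb⟩
    obtain ⟨m, b, hm, hδ, hst'⟩ := exists_modulus hd hst
    have hS' : ∀ x ∈ S, x ∈ cl b m := by
      intro x hx
      show (m : ℤ) ∣ x - b
      rw [Int.natCast_dvd, Nat.dvd_iff_prime_pow_dvd_dvd]
      intro p k hp hk
      have h1 : x ∈ cl b (p ^ (padicValNat p m)) :=
        sub_class h (fun i => no_exc hd h hm hδ hst' hp i) hx
      have h2 : ((p ^ (padicValNat p m) : ℕ) : ℤ) ∣ x - b := h1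
      rw [Int.natCast_dvd] at h2
      haveI : Fact p.Prime := ⟨hp⟩
      have h3 : k ≤ padicValNat p m := (padicValNat_dvd_iff_le hm.ne').1 hk
      exact (pow_dvd_pow p h3).trans h2
    obtain ⟨T, a', hTinf, hsim, hT, hfull⟩ := rescale hinf h hm hS' (fun q hq => (hst' q hq).2)
    have hinj := sim_injective hTinf hsim
    have hFd := F_dvd_factorial hTinf hsim hfull
    rcases ray hinj (interval hinj hFd) with ⟨c, hc⟩ | ⟨c, hc⟩
    · refine ⟨m, b + m * c, hm, ?_, Or.inl ?_⟩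
      · intro x hx
        have h1 : (m : ℤ) ∣ x - b := hS' x hx
        have : x - (b + m * c) = (x - b) - m * c := by ring
        rw [this]
        exact dvd_sub h1 (dvd_mul_right _ _)
      · intro k
        obtain ⟨i, hi⟩ := hc k
        have h1 := (hT (a' i)).1 (hsim.1 i)
        rw [hi] at h1
        have : b + (m : ℤ) * c + m * k = b + m * (c + k) := by ring
        rw [this]
        exact h1
    · refine ⟨m, b + m * c, hm, ?_, Or.inr ?_⟩
      · intro x hx
        have h1 : (m : ℤ) ∣ x - b := hS' x hx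
        have : x - (b + m * c) = (x - b) - m * c := by ring
        rw [this]
        exact dvd_sub h1 (dvd_mul_right _ _)
      · intro k
        obtain ⟨i, hi⟩ := hc k
        have h1 := (hT (a' i)).1 (hsim.1 i)
        rw [hi] at h1
        have : b + (m : ℤ) * c - m * k = b + m * (c - k) := by ring
        rw [this]
        exact h1
  · rintro ⟨m, b, hm, hS', hray⟩
    exact converse hm hS' hray

end SO.J_main

namespace SO
export J_main (main)
end SO

end Pool.Agent.Helper143.SimOrd
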